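import Mathlib

set_option autoImplicit false

/-!
Successful computations of a nondeterministic transition system: uniqueness and forward reasoning.
-/

namespace Pool.Agent.H720.UV

open Relation

variable {X : Type}

/-- `Tr R H x l y`: the states in `l` are, in this order, the states after `x` of a computation from
`x` to the halting state `y`. -/
inductive Tr (R : X → X → Prop) (H : X → Prop) : X → List X → X → Prop
  | halt (x : X) (h : H x) : Tr R H x [] x
  | step (x y : X) (l : List X) (z : X) (h : R x y) (t : Tr R H y l z) : Tr R H x (y :: l) z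

variable (R : X → X → Prop) (H : X → Prop)

/-- No computation from `x` halts. -/
def Dead (x : X) : Prop := ∀ l y, ¬ Tr R H x l y

/-- Exactly one computation from `x` halts, and it halts in `y`. -/
def Uniq (x y : X) : Prop := ∃ l, Tr R H x l y ∧ ∀ l' y', Tr R H x l' y' → l' = l ∧ y' = y

/-- From `x` one has to go to `y`. -/
def Dt (x y : X) : Prop := ¬ H x ∧ R x y ∧ ∀ z, R x z → z = y ∨ Dead R H z

variable {R H}

theorem Dead.of_succ {x : X} (h : ¬ H x) (hs : ∀ y, R x y → Dead R H y) : Dead R H x := by
  intro l y ht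
  cases ht with
  | halt _ h' => exact h h'
  | step _ z l' _ h1 h2 => exact hs _ h1 _ _ h2

theorem Dead.of_inv (I : X → Prop) (hI : ∀ x, I x → ¬ H x ∧ ∀ y, R x y → I y ∨ Dead R H y) {x : X}
    (hx : I x) : Dead R H x := by
  intro l y ht
  induction ht with
  | halt x h => exact (hI x hx).1 h
  | step x y l z h1 h2 ih =>
    rcases (hI x hx).2 y h1 with h3 | h3
    · exact ih h3
    · exact h3 _ _ h2

theorem Uniq.halt {x : X} (h : H x) (hn : ∀ y, ¬ R x y) : Uniq R H x x := by
  refine ⟨[], Tr.halt x h, ?_⟩
  intro l' y' ht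
  cases ht with
  | halt _ _ => exact ⟨rfl, rfl⟩
  | step _ z l' _ h1 _ => exact absurd h1 (hn _)

theorem Dt.uniq {x y z : X} (h : Dt R H x y) (hu : Uniq R H y z) : Uniq R H x z := by
  obtain ⟨l, h1, h2⟩ := hu
  obtain ⟨h3, h4, h5⟩ := h
  refine ⟨y :: l, Tr.step x y l z h4 h1, ?_⟩
  intro l' y' ht
  cases ht with
  | halt _ h' => exact absurd h' h3
  | step _ u l'' _ h6 h7 =>
    rcases h5 u h6 with rfl | h8
    · obtain ⟨rfl, rfl⟩ := h2 _ _ h7
      exact ⟨rfl, rfl⟩
    · exact absurd h7 (h8 _ _)

theorem uniq_of_dts {x y z : X} (h : ReflTransGen (Dt R H) x y) (hu : Uniq R H y z) :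
    Uniq R H x z := by
  induction h using ReflTransGen.head_induction_on with
  | refl => exact hu
  | head h1 _ ih => exact h1.uniq ih

/-- A transition with a single successor. -/
theorem Dt.single {x y : X} (h : ¬ H x) (hr : R x y) (hs : ∀ z, R x z → z = y) : Dt R H x y :=
  ⟨h, hr, fun z hz => Or.inl (hs z hz)⟩

end Pool.Agent.H720.UV
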