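import Mathlib

set_option autoImplicit false

/-!
Layered graphs with weights: minimal weights of paths, and weights for which the paths of minimal
weight are unique.
-/

namespace Pool.Agent.H720.UV

section defs

variable (B : ℕ) (F : ℕ → ℕ → ℕ → Bool) (w : ℕ → ℕ → ℕ)

/-- The vertices of layer `t` that can be reached from the vertex `0` of layer `0`. -/
def Rc : ℕ → ℕ → Prop
  | 0, v => v = 0
  | t + 1, v => v < B ∧ ∃ u, Rc t u ∧ F t u v = true

/-- The minimal weight of a path to the vertex `v` of layer `t`. -/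
noncomputable def dd : ℕ → ℕ → ℕ
  | 0, _ => 0
  | t + 1, v => sInf {d | ∃ u, Rc B F t u ∧ F t u v = true ∧ d = dd t u} + w (t + 1) v

/-- The minimal weight of a path to a predecessor of the vertex `v` of layer `t + 1`. -/
noncomputable def mu (t v : ℕ) : ℕ := sInf {d | ∃ u, Rc B F t u ∧ F t u v = true ∧ d = dd B F w t u}

/-- The predecessor on a path of minimal weight is unique. -/
def UQ (t v : ℕ) : Prop := ∀ u u', Rc B F t u → F t u v = true → dd B F w t u = mu B F w t v →
  Rc B F t u' → F t u' v = true → dd B F w t u' = mu B F w t v → u = u'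

/-- All paths of minimal weight are unique. -/
def Good (L : ℕ) : Prop := ∀ s < L, ∀ v < B, UQ B F w s v

end defs

variable {B : ℕ} {F : ℕ → ℕ → ℕ → Bool} {w : ℕ → ℕ → ℕ}

theorem dd_succ (t v : ℕ) : dd B F w (t + 1) v = mu B F w t v + w (t + 1) v := rfl

theorem Rc.lt (hB : 0 < B) {t v : ℕ} (h : Rc B F t v) : v < B := by
  cases t with
  | zero => have h' : v = 0 := h; omega
  | succ t => exact h.1

theorem mu_le {t u v : ℕ} (h1 : Rc B F t u) (h2 : F t u v = true) :
    mu B F w t v ≤ dd B F w t u := Nat.sInf_le ⟨u, h1, h2, rfl⟩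

theorem mu_mem {t u v : ℕ} (h1 : Rc B F t u) (h2 : F t u v = true) :
    ∃ u', Rc B F t u' ∧ F t u' v = true ∧ dd B F w t u' = mu B F w t v := by
  have : mu B F w t v ∈ {d | ∃ u, Rc B F t u ∧ F t u v = true ∧ d = dd B F w t u} :=
    Nat.sInf_mem ⟨_, u, h1, h2, rfl⟩
  obtain ⟨u', h3, h4, h5⟩ := this
  exact ⟨u', h3, h4, h5.symm⟩

theorem mu_le_of {W t : ℕ} (hd : ∀ u, dd B F w t u ≤ W) (v : ℕ) : mu B F w t v ≤ W := by
  by_cases h : ∃ u, Rc B F t u ∧ F t u v = true
  · obtain ⟨u, h1, h2⟩ := h
    exact (mu_le h1 h2).trans (hd u)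
  · have : {d | ∃ u, Rc B F t u ∧ F t u v = true ∧ d = dd B F w t u} = ∅ := by
      ext d
      simp only [Set.mem_ofPred_eq, Set.mem_empty_iff_false, iff_false]
      rintro ⟨u, h1, h2, _⟩
      exact h ⟨u, h1, h2⟩
    unfold mu
    rw [this, Nat.sInf_empty]
    exact Nat.zero_le _

theorem dd_le {W : ℕ} (hw : ∀ t v, w t v ≤ W) : ∀ t v, dd B F w t v ≤ t * W := by
  intro t
  induction t with
  | zero => intro v; exact Nat.zero_le _
  | succ t ih =>
    intro v
    rw [dd_succ, Nat.add_mul, Nat.one_mul]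
    exact Nat.add_le_add (mu_le_of ih v) (hw _ _)

theorem dd_congr {w' : ℕ → ℕ → ℕ} (s : ℕ) (h : ∀ t ≤ s, ∀ v, w t v = w' t v) :
    ∀ v, dd B F w s v = dd B F w' s v := by
  induction s with
  | zero => intro v; rfl
  | succ s ih =>
    intro v
    have ih' := ih (fun t ht => h t (by omega))
    rw [dd_succ, dd_succ, h (s + 1) le_rfl v]
    congr 1
    unfold mu
    congr 1
    ext d
    simp only [ih']

theorem mu_congr {w' : ℕ → ℕ → ℕ} (s : ℕ) (h : ∀ t ≤ s, ∀ v, w t v = w' t v) (v : ℕ) :
    mu B F w s v = mu B F w' s v := by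
  unfold mu
  congr 1
  ext d
  simp only [dd_congr s h]

/-- If the minimal weights in every layer are different then all paths of minimal weight are
unique. -/
theorem good_of_inj (hB : 0 < B) {L : ℕ} (h : ∀ s < L, ∀ u < B, ∀ u' < B, 
    Rc B F (s + 1) u → Rc B F (s + 1) u' →
    dd B F w (s + 1) u = dd B F w (s + 1) u' → u = u') : Good B F w (L + 1) := by
  intro s hs v _ u u' h1 _ h3 h4 _ h6
  cases s with
  | zero =>
    have e1 : u = 0 := h1
    have e2 : u' = 0 := h4
    rw [e1, e2]
  | succ s => exact h s (by omega) u (h1.lt hB) u' (h4.lt hB) h1 h4 (h3.trans h6.symm)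

section count

/-- The weight function given by a finite table. -/
def wof {Lm B W : ℕ} (g : Fin Lm × Fin B → Fin W) (t v : ℕ) : ℕ :=
  if h : t - 1 < Lm ∧ v < B then (g (⟨t - 1, h.1⟩, ⟨v, h.2⟩)).val else 0

theorem wof_le {Lm B W : ℕ} (g : Fin Lm × Fin B → Fin W) (t v : ℕ) : wof g t v ≤ W := by
  unfold wof
  split_ifs with h
  · exact (g _).isLt.le
  · exact Nat.zero_le _

theorem card_coll {Lm W : ℕ} (s : Fin Lm) (u u' : Fin B) (huu : u ≠ u') :
    (Finset.univ.filter (fun g : Fin Lm × Fin B → Fin W =>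
      dd B F (wof g) (s.val + 1) u = dd B F (wof g) (s.val + 1) u')).card ≤ W ^ (Lm * B - 1) := by
  classical
  have hcard : Fintype.card ({c : Fin Lm × Fin B // c ≠ (s, u)} → Fin W) = W ^ (Lm * B - 1) := by
    rw [Fintype.card_fun, Fintype.card_fin]
    congr 1
    rw [Fintype.card_subtype_compl, Fintype.card_prod, Fintype.card_fin, Fintype.card_fin,
      Fintype.card_subtype_eq]
  rw [← hcard, ← Finset.card_univ]
  refine Finset.card_le_card_of_injOn (fun g c => g c.1) (fun _ _ => Finset.mem_univ _) ?_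
  intro g hg g' hg' hgg
  simp only [Finset.coe_filter, Finset.mem_univ, true_and, Set.mem_ofPred_eq] at hg hg'
  have hag : ∀ c, c ≠ (s, u) → g c = g' c := fun c hc => congrFun hgg ⟨c, hc⟩
  have hw : ∀ t v, ¬ (t = s.val + 1 ∧ v = u.val) → 1 ≤ t → wof g t v = wof g' t v := by
    intro t v hne ht
    unfold wof
    split_ifs with h
    · rw [hag]
      intro hc
      simp only [Prod.mk.injEq, Fin.ext_iff] at hc
      exact hne ⟨by omega, hc.2⟩
    · rfl
  have hw0 : ∀ t ≤ s.val, ∀ v, wof g t v = wof g' t v ∨ t = 0 := by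
    intro t ht v
    by_cases h0 : t = 0
    · exact Or.inr h0
    · exact Or.inl (hw t v (by omega) (by omega))
  -- the values below layer `s + 1` agree
  have hdd : ∀ t ≤ s.val, ∀ v, dd B F (wof g) t v = dd B F (wof g') t v := by
    intro t
    induction t with
    | zero => intro _ v; rfl
    | succ t ih =>
      intro ht v
      have ih' := ih (by omega)
      rw [dd_succ, dd_succ, hw (t + 1) v (by omega) (by omega)]
      congr 1
      unfold mu
      congr 1
      ext d
      simp only [ih']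
  have hmu : ∀ v, mu B F (wof g) s.val v = mu B F (wof g') s.val v := by
    intro v
    unfold mu
    congr 1
    ext d
    simp only [hdd s.val le_rfl]
  rw [dd_succ, dd_succ] at hg hg'
  have h1 := hmu u
  have h2 := hmu u'
  have h3 : wof g (s.val + 1) u'.val = wof g' (s.val + 1) u'.val := by
    apply hw _ _ _ (by omega)
    rintro ⟨_, h⟩
    exact huu (Fin.ext h.symm)
  have h4 : wof g (s.val + 1) u.val = wof g' (s.val + 1) u.val := by omega
  have h5 : g (s, u) = g' (s, u) := by
    unfold wof at h4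
    have hc : s.val + 1 - 1 < Lm ∧ u.val < B := ⟨by simp, u.isLt⟩
    rw [dif_pos hc, dif_pos hc] at h4
    have e1 : (⟨s.val + 1 - 1, hc.1⟩ : Fin Lm) = s := Fin.ext (by simp)
    rw [e1] at h4
    exact Fin.ext h4
  funext c
  by_cases hc : c = (s, u)
  · rw [hc]; exact h5
  · exact hag c hc

open Classical in
/-- At least half of the weight functions are good. -/
theorem card_bad (hB : 0 < B) {Lm W : ℕ} (hL : 0 < Lm) (hW : 2 * (Lm * (B * B)) ≤ W) :
    2 * (Finset.univ.filter (fun g : Fin Lm × Fin B → Fin W =>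
      ¬ Good B F (wof g) (Lm + 1))).card ≤ Fintype.card (Fin Lm × Fin B → Fin W) := by
  have hsub : (Finset.univ.filter (fun g : Fin Lm × Fin B → Fin W =>
      ¬ Good B F (wof g) (Lm + 1))) ⊆
      (Finset.univ : Finset (Fin Lm × Fin B × Fin B)).biUnion (fun x => if x.2.1 = x.2.2 then ∅ else
        (Finset.univ.filter (fun g : Fin Lm × Fin B → Fin W =>
          dd B F (wof g) (x.1.val + 1) x.2.1 = dd B F (wof g) (x.1.val + 1) x.2.2))) := by
    intro g hg
    simp only [Finset.mem_filter, Finset.mem_univ, true_and] at hg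
    by_contra hcon
    apply hg
    apply good_of_inj hB
    intro s hs u hu u' hu' _ _ h5
    by_contra hne
    apply hcon
    simp only [Finset.mem_biUnion, Finset.mem_univ, true_and]
    refine ⟨(⟨s, hs⟩, ⟨u, hu⟩, ⟨u', hu'⟩), ?_⟩
    rw [if_neg (by simpa using hne)]
    simpa using h5
  have h1 := (Finset.card_le_card hsub).trans Finset.card_biUnion_le
  have h2 : ∀ x : Fin Lm × Fin B × Fin B, (if x.2.1 = x.2.2 then (∅ : Finset _) else
        (Finset.univ.filter (fun g : Fin Lm × Fin B → Fin W =>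
          dd B F (wof g) (x.1.val + 1) x.2.1 = dd B F (wof g) (x.1.val + 1) x.2.2))).card ≤
        W ^ (Lm * B - 1) := by
    rintro ⟨s, u, u'⟩
    by_cases h : u = u'
    · simp [h]
    · simp only [h, if_false]
      exact card_coll s u u' h
  have h3 := h1.trans (Finset.sum_le_card_nsmul _ _ _ (fun x _ => h2 x))
  rw [Finset.card_univ, Fintype.card_prod, Fintype.card_prod, Fintype.card_fin, Fintype.card_fin,
    smul_eq_mul] at h3
  rw [Fintype.card_fun, Fintype.card_prod, Fintype.card_fin, Fintype.card_fin, Fintype.card_fin]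
  have hpos : 0 < Lm * B := Nat.mul_pos hL hB
  obtain ⟨D, hD⟩ : ∃ D, Lm * B = D + 1 := ⟨Lm * B - 1, by omega⟩
  rw [hD] at h3 ⊢
  simp only [Nat.add_sub_cancel] at h3
  calc 2 * _ ≤ 2 * (Lm * (B * B) * W ^ D) := Nat.mul_le_mul_left _ h3
    _ = (2 * (Lm * (B * B))) * W ^ D := by ring
    _ ≤ W * W ^ D := Nat.mul_le_mul_right _ hW
    _ = W ^ (D + 1) := by ring

/-- Averaging: if every element of `Ω` is bad for at most half of the choices then `k` choices
suffice for a set with less than `2 ^ k` elements. -/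
theorem cover {Ω Y : Type} [Fintype Y] [Nonempty Y] (bad : Ω → Y → Prop)
    [∀ e, DecidablePred (bad e)]
    (h : ∀ e, 2 * (Finset.univ.filter (bad e)).card ≤ Fintype.card Y) (k : ℕ) :
    ∀ S : Finset Ω, S.card < 2 ^ k → ∃ f : ℕ → Y, ∀ e ∈ S, ∃ j < k, ¬ bad e (f j) := by
  classical
  induction k with
  | zero =>
    intro S hS
    have : S = ∅ := by
      rw [← Finset.card_eq_zero]; simpa using hS
    subst this
    exact ⟨fun _ => Classical.arbitrary Y, fun e he => absurd he (Finset.notMem_empty _)⟩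
  | succ k ih =>
    intro S hS
    obtain ⟨y, hy⟩ : ∃ y : Y, 2 * (S.filter (fun e => bad e y)).card ≤ S.card := by
      by_contra hcon
      push Not at hcon
      have h1 : ∑ y : Y, S.card < ∑ y : Y, 2 * (S.filter (fun e => bad e y)).card :=
        Finset.sum_lt_sum_of_nonempty Finset.univ_nonempty (fun y _ => hcon y)
      have h2 : ∑ y : Y, 2 * (S.filter (fun e => bad e y)).card =
          ∑ e ∈ S, 2 * (Finset.univ.filter (bad e)).card := by
        rw [← Finset.mul_sum, ← Finset.mul_sum]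
        congr 1
        simp only [Finset.card_filter]
        rw [Finset.sum_comm]
      have h3 : ∑ e ∈ S, 2 * (Finset.univ.filter (bad e)).card ≤ ∑ e ∈ S, Fintype.card Y :=
        Finset.sum_le_sum (fun e _ => h e)
      rw [h2] at h1
      have h4 := lt_of_lt_of_le h1 h3
      simp only [Finset.sum_const, smul_eq_mul, Finset.card_univ] at h4
      rw [Nat.mul_comm] at h4
      exact lt_irrefl _ h4
    obtain ⟨f, hf⟩ := ih (S.filter (fun e => bad e y)) (by rw [pow_succ] at hS; omega)
    refine ⟨fun j => match j with | 0 => y | j + 1 => f j, fun e he => ?_⟩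
    by_cases hb : bad e y
    · obtain ⟨j, hj, hj'⟩ := hf e (Finset.mem_filter.2 ⟨he, hb⟩)
      exact ⟨j + 1, by omega, hj'⟩
    · exact ⟨0, by omega, hb⟩

/-- For a finite family of graphs there are few weight functions, one of which is good for every
graph of the family. -/
theorem exists_weights (hB : 0 < B) {Lm W k : ℕ} (hL : 0 < Lm) (hW : 2 * (Lm * (B * B)) ≤ W)
    {Ω : Type} [Fintype Ω] (G : Ω → ℕ → ℕ → ℕ → Bool) (hk : Fintype.card Ω < 2 ^ k) :
    ∃ wt : ℕ → ℕ → ℕ → ℕ, (∀ j t v, wt j t v ≤ W) ∧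
      ∀ e, ∃ j < k, Good B (G e) (wt j) (Lm + 1) := by
  classical
  have hWpos : 0 < W := by
    have : 0 < Lm * (B * B) := Nat.mul_pos hL (Nat.mul_pos hB hB)
    omega
  have : Nonempty (Fin Lm × Fin B → Fin W) := ⟨fun _ => ⟨0, hWpos⟩⟩
  obtain ⟨f, hf⟩ := cover (Ω := Ω) (Y := Fin Lm × Fin B → Fin W)
    (fun e g => ¬ Good B (G e) (wof g) (Lm + 1)) (fun e => card_bad hB hL hW) k Finset.univ
    (by rw [Finset.card_univ]; exact hk)
  refine ⟨fun j => wof (f j), fun j t v => wof_le _ _ _, fun e => ?_⟩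
  obtain ⟨j, hj, h⟩ := hf e (Finset.mem_univ _)
  exact ⟨j, hj, not_not.1 h⟩

end count

end Pool.Agent.H720.UV
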