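import Mathlib
import Pool.Agent.H720.UV.Tr
import Pool.Agent.H720.UV.Wt

set_option autoImplicit false

/-!
An unambiguous nondeterministic procedure that decides whether some vertex of a set in the last layer
of a layered graph can be reached (inductive counting with minimal weights, after Immerman,
Szelepcsényi, Reinhardt and Allender).
-/

namespace Pool.Agent.H720.UV

open Relation

/-- The registers of the outer loops: number `j` of the weight function, layer `t`, number `c` of the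
reachable vertices of layer `t` and sum `S` of their minimal weights, the vertex `v` of the
layer `t + 1`, and the same numbers `c'`, `S'` for the vertices `< v` of the layer `t + 1`. -/
@[ext] structure Ctx where
  j : ℕ
  t : ℕ
  c : ℕ
  S : ℕ
  v : ℕ
  c' : ℕ
  S' : ℕ

/-- The registers of the inner loop: the vertex `x` of layer `t`, the number `cnt` of the vertices
found and the sum `sum` of the weights of the paths to them, the minimal weight `mn` (increased by
`1`, or `0` if there is none) of a path to a predecessor of `v`, and `du` is true if it occurs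
twice. -/
@[ext] structure Ac where
  x : ℕ
  cnt : ℕ
  sum : ℕ
  mn : ℕ
  du : Bool

/-- The states of the procedure. -/
inductive Z
  | P (k : Ctx) (a : Ac) : Z
  | G (k : Ctx) (a : Ac) (s y w : ℕ) : Z
  | E (k : Ctx) (a : Ac) (s y w y' : ℕ) : Z
  | H (b : Bool) : Z

/-- The edge whose presence is asked for in a state. -/
def Z.qry : Z → ℕ × ℕ × ℕ
  | .E _ _ s y _ y' => (s, y, y')
  | _ => (0, 0, 0)

def Ctx.bdd (K : ℕ) (k : Ctx) : Prop :=
  k.j ≤ K ∧ k.t ≤ K ∧ k.c ≤ K ∧ k.S ≤ K ∧ k.v ≤ K ∧ k.c' ≤ K ∧ k.S' ≤ K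

def Ac.bdd (K : ℕ) (a : Ac) : Prop := a.x ≤ K ∧ a.cnt ≤ K ∧ a.sum ≤ K ∧ a.mn ≤ K

/-- All registers are at most `K`. -/
def Z.bdd (K : ℕ) : Z → Prop
  | .P k a => k.bdd K ∧ a.bdd K
  | .G k a s y w => k.bdd K ∧ a.bdd K ∧ s ≤ K ∧ y ≤ K ∧ w ≤ K
  | .E k a s y w y' => k.bdd K ∧ a.bdd K ∧ s ≤ K ∧ y ≤ K ∧ w ≤ K ∧ y' ≤ K
  | .H _ => True

def upd (mn : ℕ) (du : Bool) (w : ℕ) (b : Bool) : ℕ × Bool :=
  if b = true then (if mn = 0 ∨ w + 1 < mn then (w + 1, false) else
    if w + 1 = mn then (mn, true) else (mn, du)) else (mn, du)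

def startA : Ac := ⟨0, 0, 0, 0, false⟩

def startZ (j : ℕ) : Z := .P ⟨j, 0, 1, 0, 0, 0, 0⟩ startA

/-- The end of the inner loop. -/
def fin (B L : ℕ) (wt : ℕ → ℕ → ℕ → ℕ) (k : Ctx) (a : Ac) : Z :=
  if k.t = L then .H (decide (a.mn ≠ 0))
  else if a.du = true then startZ (k.j + 1)
  else if k.v + 1 < B then
    .P ⟨k.j, k.t, k.c, k.S, k.v + 1, k.c' + (if a.mn = 0 then 0 else 1),
      k.S' + (if a.mn = 0 then 0 else (a.mn - 1) + wt k.j (k.t + 1) k.v)⟩ startA
  else .P ⟨k.j, k.t + 1, k.c' + (if a.mn = 0 then 0 else 1),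
      k.S' + (if a.mn = 0 then 0 else (a.mn - 1) + wt k.j (k.t + 1) k.v), 0, 0, 0⟩ startA

/-- The steps of the procedure; the Boolean is the answer to the query. -/
inductive Stp (B L : ℕ) (wt : ℕ → ℕ → ℕ → ℕ) : Z → Bool → Z → Prop
  | no (k : Ctx) (a : Ac) (b : Bool) (h : a.x < B) :
      Stp B L wt (.P k a) b (.P k ⟨a.x + 1, a.cnt, a.sum, a.mn, a.du⟩)
  | yes (k : Ctx) (a : Ac) (b : Bool) (h : a.x < B) : Stp B L wt (.P k a) b (.G k a 0 0 0)
  | fin (k : Ctx) (a : Ac) (b : Bool) (h : a.x = B) (h1 : a.cnt = k.c) (h2 : a.sum = k.S) :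
      Stp B L wt (.P k a) b (fin B L wt k a)
  | ext (k : Ctx) (a : Ac) (s y w y' : ℕ) (b : Bool) (h : s < k.t) (h' : y' < B) :
      Stp B L wt (.G k a s y w) b (.E k a s y w y')
  | last (k : Ctx) (a : Ac) (s y w : ℕ) (b : Bool) (h : s = k.t) (h' : y = a.x) :
      Stp B L wt (.G k a s y w) b (.E k a s y w k.v)
  | edge (k : Ctx) (a : Ac) (s y w y' : ℕ) (h : s < k.t) :
      Stp B L wt (.E k a s y w y') true (.G k a (s + 1) y' (w + wt k.j (s + 1) y'))
  | target (k : Ctx) (a : Ac) (s y w y' : ℕ) (b : Bool) (h : s = k.t) :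
      Stp B L wt (.E k a s y w y') b (.P k ⟨a.x + 1, a.cnt + 1, a.sum + w,
        (upd a.mn a.du w b).1, (upd a.mn a.du w b).2⟩)

/-- The transition relation for the graph `F`. -/
def RR (B L K : ℕ) (wt : ℕ → ℕ → ℕ → ℕ) (F : ℕ → ℕ → ℕ → Bool) (z z' : Z) : Prop :=
  Stp B L wt z (F z.qry.1 z.qry.2.1 z.qry.2.2) z' ∧ z'.bdd K

/-- The halting states. -/
def HH (z : Z) : Prop := ∃ b, z = .H b

section counts

variable (B : ℕ) (F : ℕ → ℕ → ℕ → Bool) (w : ℕ → ℕ → ℕ)

open Classical in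
noncomputable def cP (t x : ℕ) : ℕ := ((Finset.range x).filter (fun v => Rc B F t v)).card

open Classical in
noncomputable def sP (t x : ℕ) : ℕ :=
  ∑ v ∈ (Finset.range x).filter (fun v => Rc B F t v), dd B F w t v

variable {B F w}

theorem cP_zero (t : ℕ) : cP B F t 0 = 0 := by simp [cP]

theorem sP_zero (t : ℕ) : sP B F w t 0 = 0 := by simp [sP]

theorem cP_succ_pos {t x : ℕ} (h : Rc B F t x) : cP B F t (x + 1) = cP B F t x + 1 := by
  classical
  unfold cP
  rw [Finset.range_add_one, Finset.filter_insert, if_pos h, Finset.card_insert_of_notMem (by simp)]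

theorem cP_succ_neg {t x : ℕ} (h : ¬ Rc B F t x) : cP B F t (x + 1) = cP B F t x := by
  classical
  unfold cP
  rw [Finset.range_add_one, Finset.filter_insert, if_neg h]

theorem sP_succ_pos {t x : ℕ} (h : Rc B F t x) :
    sP B F w t (x + 1) = sP B F w t x + dd B F w t x := by
  classical
  unfold sP
  rw [Finset.range_add_one, Finset.filter_insert, if_pos h, Finset.sum_insert (by simp),
    Nat.add_comm]

theorem sP_succ_neg {t x : ℕ} (h : ¬ Rc B F t x) : sP B F w t (x + 1) = sP B F w t x := by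
  classical
  unfold sP
  rw [Finset.range_add_one, Finset.filter_insert, if_neg h]

theorem cP_le (t x : ℕ) : cP B F t x ≤ x := by
  classical
  unfold cP
  refine (Finset.card_filter_le _ _).trans ?_
  rw [Finset.card_range]

theorem sP_le {W : ℕ} (hw : ∀ t v, w t v ≤ W) (t x : ℕ) : sP B F w t x ≤ x * (t * W) := by
  classical
  unfold sP
  refine (Finset.sum_le_card_nsmul _ _ _ (fun v _ => dd_le hw t v)).trans ?_
  rw [smul_eq_mul]
  refine Nat.mul_le_mul_right _ ?_
  refine (Finset.card_filter_le _ _).trans ?_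
  rw [Finset.card_range]

theorem cP_layer0 (hB : 0 < B) : cP B F 0 B = 1 := by
  classical
  unfold cP
  rw [Finset.card_eq_one]
  refine ⟨0, ?_⟩
  ext v
  simp only [Finset.mem_filter, Finset.mem_range, Finset.mem_singleton]
  constructor
  · rintro ⟨_, h⟩; exact h
  · rintro rfl; exact ⟨hB, rfl⟩

theorem sP_layer0 : sP B F w 0 B = 0 := by
  classical
  unfold sP
  apply Finset.sum_eq_zero
  intro v _
  rfl

end counts

/-- `OM t x s y`: the vertex `y` of layer `s` is on a path of minimal weight to the vertex `x` of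
layer `t`. -/
inductive OM (B : ℕ) (F : ℕ → ℕ → ℕ → Bool) (w : ℕ → ℕ → ℕ) (t x : ℕ) : ℕ → ℕ → Prop
  | refl : OM B F w t x t x
  | step (s y y' : ℕ) (h : OM B F w t x (s + 1) y') (h1 : Rc B F s y) (h2 : F s y y' = true)
      (h3 : dd B F w s y = mu B F w s y') : OM B F w t x s y

section om

variable {B : ℕ} {F : ℕ → ℕ → ℕ → Bool} {w : ℕ → ℕ → ℕ} {t x : ℕ}

theorem OM.le {s y : ℕ} (h : OM B F w t x s y) : s ≤ t := by
  induction h with
  | refl => exact le_rfl
  | step s y y' _ _ _ _ ih => omega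

theorem OM.top {y : ℕ} (h : OM B F w t x t y) : y = x := by
  cases h with
  | refl => rfl
  | step _ _ y' h _ _ _ => have := h.le; omega

theorem OM.next {s y : ℕ} (h : OM B F w t x s y) (hs : s < t) :
    ∃ y', OM B F w t x (s + 1) y' ∧ F s y y' = true ∧ dd B F w s y = mu B F w s y' := by
  cases h with
  | refl => omega
  | step _ _ y' h _ h2 h3 => exact ⟨y', h, h2, h3⟩

/-- Vertices on a path have to be `< B`. -/
theorem OM.rc (hx : x < B) {s y : ℕ} (h : OM B F w t x s y) (hr : Rc B F s y) : Rc B F t x := by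
  revert hr
  induction h with
  | refl => exact id
  | step s y y' h h1 h2 h3 ih =>
    intro _
    apply ih
    refine ⟨?_, y, h1, h2⟩
    cases h with
    | refl => exact hx
    | step _ _ y'' h4 h5 _ _ =>
      exact h5.1

theorem OM.lt (hx : x < B) {s y : ℕ} (h : OM B F w t x (s + 1) y) : y < B := by
  cases h with
  | refl => exact hx
  | step _ _ y'' h4 h5 _ _ => exact h5.1

theorem OM.unique (hx : x < B) (hU : ∀ s < t, ∀ v < B, UQ B F w s v) {s y : ℕ}
    (h : OM B F w t x s y) : ∀ y', OM B F w t x s y' → y = y' := by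
  induction h with
  | refl => intro y' h'; exact h'.top.symm
  | step s y z h h1 h2 h3 ih =>
    intro y' h'
    cases h' with
    | refl => have := h.le; omega
    | step _ _ z' h4 h5 h6 h7 =>
      have := ih z' h4
      subst this
      have hs : s < t := h.le
      exact hU s hs z (h.lt hx) y y' h1 h2 h3 h5 h6 h7

theorem OM.exists (hr : Rc B F t x) : ∀ k ≤ t, ∃ y, OM B F w t x (t - k) y ∧
    Rc B F (t - k) y := by
  intro k
  induction k with
  | zero => intro _; exact ⟨x, OM.refl, hr⟩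
  | succ k ih =>
    intro hk
    obtain ⟨y, h1, h2⟩ := ih (by omega)
    have e : t - k = (t - (k + 1)) + 1 := by omega
    rw [e] at h1 h2
    obtain ⟨_, u, h3, h4⟩ := h2
    obtain ⟨u', h5, h6, h7⟩ := mu_mem (w := w) h3 h4
    exact ⟨u', OM.step _ _ _ h1 h5 h6 h7, h5⟩

theorem OM.bottom (hr : Rc B F t x) : OM B F w t x 0 0 := by
  obtain ⟨y, h1, h2⟩ := OM.exists (w := w) hr t le_rfl
  rw [Nat.sub_self] at h1 h2
  have e : y = 0 := h2
  subst e
  exact h1

end om

section dead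

variable (B : ℕ) (F : ℕ → ℕ → ℕ → Bool) (wt : ℕ → ℕ → ℕ → ℕ)

def CtxOK (k : Ctx) : Prop := k.c = cP B F k.t B ∧ k.S = sP B F (wt k.j) k.t B

def OkA (k : Ctx) (a : Ac) : Prop := a.cnt = cP B F k.t a.x ∧ a.sum = sP B F (wt k.j) k.t a.x

def BadA (k : Ctx) (a : Ac) : Prop :=
  a.cnt < cP B F k.t a.x ∨ (a.cnt = cP B F k.t a.x ∧ sP B F (wt k.j) k.t a.x < a.sum)

/-- The states from which the procedure cannot halt. -/
def Inv : Z → Prop
  | .P k a => CtxOK B F wt k ∧ a.x ≤ B ∧ BadA B F wt k a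
  | .G k a s y w => CtxOK B F wt k ∧ a.x < B ∧ s ≤ k.t ∧ Rc B F s y ∧ dd B F (wt k.j) s y ≤ w ∧
      (BadA B F wt k a ∨ (OkA B F wt k a ∧ ¬ (OM B F (wt k.j) k.t a.x s y ∧
        w = dd B F (wt k.j) s y)))
  | .E k a s y w y' => CtxOK B F wt k ∧ a.x < B ∧ s ≤ k.t ∧ Rc B F s y ∧ dd B F (wt k.j) s y ≤ w ∧
      (s < k.t → y' < B ∧ (F s y y' = true → BadA B F wt k a ∨ (OkA B F wt k a ∧
        ¬ (OM B F (wt k.j) k.t a.x (s + 1) y' ∧
          w + wt k.j (s + 1) y' = dd B F (wt k.j) (s + 1) y')))) ∧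
      (s = k.t → y = a.x ∧ (BadA B F wt k a ∨ (OkA B F wt k a ∧ w ≠ dd B F (wt k.j) s y)))
  | .H _ => False

variable {B F wt}

theorem BadA.no {k : Ctx} {a : Ac} (h : BadA B F wt k a) :
    BadA B F wt k ⟨a.x + 1, a.cnt, a.sum, a.mn, a.du⟩ := by
  unfold BadA at h ⊢
  simp only
  by_cases hr : Rc B F k.t a.x
  · rw [cP_succ_pos hr, sP_succ_pos hr]
    omega
  · rw [cP_succ_neg hr, sP_succ_neg hr]
    exact h

theorem inv_step {L K : ℕ} {z z' : Z} (h : Inv B F wt z) (hs : RR B L K wt F z z') :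
    Inv B F wt z' := by
  obtain ⟨hs, -⟩ := hs
  generalize hb : F z.qry.1 z.qry.2.1 z.qry.2.2 = b at hs
  cases hs with
  | no k a b hx =>
    obtain ⟨h1, h2, h3⟩ := h
    exact ⟨h1, hx, h3.no⟩
  | yes k a b hx =>
    obtain ⟨h1, h2, h3⟩ := h
    exact ⟨h1, hx, Nat.zero_le _, rfl, Nat.zero_le _, Or.inl h3⟩
  | fin k a b hx hc hS =>
    obtain ⟨h1, h2, h3⟩ := h
    exfalso
    unfold BadA at h3
    rw [hx, hc, hS, h1.1, h1.2] at h3
    omega
  | ext k a s y w y' b hst hy' =>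
    obtain ⟨h1, h2, h3, h4, h5, h6⟩ := h
    refine ⟨h1, h2, h3, h4, h5, fun _ => ⟨hy', fun hF => ?_⟩, fun h => by omega⟩
    rcases h6 with h6 | ⟨h6, h7⟩
    · exact Or.inl h6
    · refine Or.inr ⟨h6, ?_⟩
      rintro ⟨h8, h9⟩
      apply h7
      have h10 : mu B F (wt k.j) s y' ≤ dd B F (wt k.j) s y := mu_le h4 hF
      rw [dd_succ] at h9
      have h11 : dd B F (wt k.j) s y = mu B F (wt k.j) s y' := by omega
      exact ⟨OM.step _ _ _ h8 h4 hF h11, by omega⟩
  | last k a s y w b hst hy =>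
    obtain ⟨h1, h2, h3, h4, h5, h6⟩ := h
    refine ⟨h1, h2, h3, h4, h5, fun h => by omega, fun _ => ⟨hy, ?_⟩⟩
    rcases h6 with h6 | ⟨h6, h7⟩
    · exact Or.inl h6
    · refine Or.inr ⟨h6, fun h8 => h7 ⟨?_, h8⟩⟩
      rw [hst, hy]
      exact OM.refl
  | edge k a s y w y' hst =>
    obtain ⟨h1, h2, h3, h4, h5, h6, h7⟩ := h
    obtain ⟨h8, h9⟩ := h6 hst
    have hF : F s y y' = true := hb
    refine ⟨h1, h2, hst, ⟨h8, y, h4, hF⟩, ?_, h9 hF⟩
    rw [dd_succ]
    have := mu_le (w := wt k.j) h4 hF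
    omega
  | target k a s y w y' b hst =>
    obtain ⟨h1, h2, h3, h4, h5, h6, h7⟩ := h
    obtain ⟨h8, h9⟩ := h7 hst
    refine ⟨h1, h2, ?_⟩
    have hr : Rc B F k.t a.x := by rw [← hst, ← h8]; exact h4
    unfold BadA
    simp only
    rw [cP_succ_pos hr, sP_succ_pos hr]
    rw [hst, h8] at h5 h9
    rcases h9 with h9 | ⟨h9, h10⟩
    · unfold BadA at h9
      omega
    · unfold OkA at h9
      omega

theorem inv_dead {L K : ℕ} {z : Z} (h : Inv B F wt z) : Dead (RR B L K wt F) HH z := by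
  refine Dead.of_inv (Inv B F wt) (fun z hz => ⟨?_, fun z' hs => Or.inl (inv_step hz hs)⟩) h
  rintro ⟨b, rfl⟩
  exact hz

end dead

end Pool.Agent.H720.UV
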