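import Mathlib
import Pool.Agent.H720.UV.RA

set_option autoImplicit false

/-!
The procedure of `RA.lean` has exactly one computation that halts.
-/

namespace Pool.Agent.H720.UV

open Relation

section acc

variable (B : ℕ) (F : ℕ → ℕ → ℕ → Bool) (w : ℕ → ℕ → ℕ)

open Classical in
/-- The values of `mn` and `du` after the vertices `< x`. -/
noncomputable def accF (t v : ℕ) : ℕ → ℕ × Bool
  | 0 => (0, false)
  | x + 1 => if Rc B F t x then upd (accF t v x).1 (accF t v x).2 (dd B F w t x) (F t x v)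
    else accF t v x

variable {B F w}

theorem accF_spec (t v x : ℕ) :
    ((accF B F w t v x).1 = 0 → (accF B F w t v x).2 = false ∧
      ∀ u < x, ¬ (Rc B F t u ∧ F t u v = true)) ∧
    ((accF B F w t v x).1 ≠ 0 →
      (∃ u < x, Rc B F t u ∧ F t u v = true ∧ dd B F w t u + 1 = (accF B F w t v x).1) ∧
      (∀ u < x, Rc B F t u → F t u v = true → (accF B F w t v x).1 ≤ dd B F w t u + 1) ∧
      ((accF B F w t v x).2 = true ↔ ∃ u < x, ∃ u' < x, u ≠ u' ∧ Rc B F t u ∧ F t u v = true ∧
        dd B F w t u + 1 = (accF B F w t v x).1 ∧ Rc B F t u' ∧ F t u' v = true ∧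
        dd B F w t u' + 1 = (accF B F w t v x).1)) := by
  induction x with
  | zero =>
    refine ⟨fun _ => ⟨rfl, fun u hu => by omega⟩, fun h => absurd rfl h⟩
  | succ x ih =>
    by_cases hr : Rc B F t x ∧ F t x v = true
    · obtain ⟨h1, h2⟩ := hr
      have e : accF B F w t v (x + 1) =
          upd (accF B F w t v x).1 (accF B F w t v x).2 (dd B F w t x) true := by
        rw [accF, if_pos h1, h2]
      obtain ⟨i1, i2⟩ := ih
      generalize hA : accF B F w t v x = A at *
      obtain ⟨mn, du⟩ := A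
      simp only at i1 i2 e
      rw [e]
      unfold upd
      rw [if_pos rfl]
      by_cases hc : mn = 0 ∨ dd B F w t x + 1 < mn
      · rw [if_pos hc]
        refine ⟨fun h => by simp at h, fun _ => ⟨⟨x, by omega, h1, h2, rfl⟩, ?_, ?_⟩⟩
        · intro u hu h3 h4
          rcases Nat.lt_succ_iff_lt_or_eq.1 hu with h5 | rfl
          · by_cases hm : mn = 0
            · exact absurd ⟨h3, h4⟩ ((i1 hm).2 u h5)
            · have h6 := (i2 hm).2.1 u h5 h3 h4
              simp only
              omega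
          · exact le_rfl
        · simp only [Bool.false_eq_true, false_iff]
          rintro ⟨u, hu, u', hu', hne, h3, h4, h5, h6, h7, h8⟩
          have key : ∀ y < x + 1, Rc B F t y → F t y v = true →
              dd B F w t y + 1 = dd B F w t x + 1 → y = x := by
            intro y hy g1 g2 g3
            rcases Nat.lt_succ_iff_lt_or_eq.1 hy with h5 | h5
            · exfalso
              by_cases hm : mn = 0
              · exact (i1 hm).2 y h5 ⟨g1, g2⟩
              · have h6 := (i2 hm).2.1 y h5 g1 g2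
                omega
            · exact h5
          exact hne ((key u hu h3 h4 h5).trans (key u' hu' h6 h7 h8).symm)
      · rw [if_neg hc]
        push Not at hc
        obtain ⟨hm, hc⟩ := hc
        obtain ⟨⟨u0, g0, g1, g2, g3⟩, j2, j3⟩ := i2 hm
        by_cases hc2 : dd B F w t x + 1 = mn
        · rw [if_pos hc2]
          refine ⟨fun h => absurd h hm, fun _ => ⟨⟨x, by omega, h1, h2, hc2⟩, ?_, ?_⟩⟩
          · intro u hu h3 h4
            rcases Nat.lt_succ_iff_lt_or_eq.1 hu with h5 | rfl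
            · exact j2 u h5 h3 h4
            · simp only; omega
          · simp only [true_iff]
            exact ⟨u0, by omega, x, by omega, by omega, g1, g2, g3, h1, h2, hc2⟩
        · rw [if_neg hc2]
          refine ⟨fun h => absurd h hm, fun _ => ⟨⟨u0, by omega, g1, g2, g3⟩, ?_, ?_⟩⟩
          · intro u hu h3 h4
            rcases Nat.lt_succ_iff_lt_or_eq.1 hu with h5 | rfl
            · exact j2 u h5 h3 h4
            · simp only; omega
          · simp only
            rw [j3]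
            constructor
            · rintro ⟨u, hu, u', hu', h⟩
              exact ⟨u, by omega, u', by omega, h⟩
            · rintro ⟨u, hu, u', hu', hne, h3, h4, h5, h6, h7, h8⟩
              have key : ∀ y < x + 1, dd B F w t y + 1 = mn → y < x := by
                intro y hy g3
                rcases Nat.lt_succ_iff_lt_or_eq.1 hy with h5 | rfl
                · exact h5
                · exact absurd g3 hc2
              exact ⟨u, key u hu h5, u', key u' hu' h8, hne, h3, h4, h5, h6, h7, h8⟩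
    · have e : accF B F w t v (x + 1) = accF B F w t v x := by
        by_cases h1 : Rc B F t x
        · have h2 : F t x v = false := by
            rw [← Bool.not_eq_true]
            exact fun h => hr ⟨h1, h⟩
          rw [accF, if_pos h1, h2]
          unfold upd
          simp
        · rw [accF, if_neg h1]
      rw [e]
      obtain ⟨i1, i2⟩ := ih
      have key : ∀ y < x + 1, Rc B F t y → F t y v = true → y < x := by
        intro y hy g1 g2
        rcases Nat.lt_succ_iff_lt_or_eq.1 hy with h5 | rfl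
        · exact h5
        · exact absurd ⟨g1, g2⟩ hr
      refine ⟨fun h => ⟨(i1 h).1, fun u hu h3 => (i1 h).2 u (key u hu h3.1 h3.2) h3⟩, fun h => ?_⟩
      obtain ⟨⟨u0, g0, g1, g2, g3⟩, j2, j3⟩ := i2 h
      refine ⟨⟨u0, by omega, g1, g2, g3⟩, fun u hu h3 h4 => j2 u (key u hu h3 h4) h3 h4, ?_⟩
      rw [j3]
      constructor
      · rintro ⟨u, hu, u', hu', h⟩
        exact ⟨u, by omega, u', by omega, h⟩
      · rintro ⟨u, hu, u', hu', hne, h3, h4, h5, h6, h7, h8⟩
        exact ⟨u, key u hu h3 h4, u', key u' hu' h6 h7, hne, h3, h4, h5, h6, h7, h8⟩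

theorem accF_le {W : ℕ} (hw : ∀ t v, w t v ≤ W) (t v x : ℕ) :
    (accF B F w t v x).1 ≤ t * W + 1 := by
  by_cases h : (accF B F w t v x).1 = 0
  · omega
  · obtain ⟨⟨u, _, _, _, h3⟩, _⟩ := (accF_spec (B := B) (F := F) (w := w) t v x).2 h
    have := dd_le (B := B) (F := F) hw t u
    omega

/-- The result of the inner loop. -/
theorem accF_end (hB : 0 < B) (t v : ℕ) (hv : v < B) :
    ((accF B F w t v B).1 = 0 ↔ ¬ Rc B F (t + 1) v) ∧
    ((accF B F w t v B).1 ≠ 0 → (accF B F w t v B).1 = mu B F w t v + 1) ∧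
    ((accF B F w t v B).2 = true ↔ ¬ UQ B F w t v) := by
  obtain ⟨i1, i2⟩ := accF_spec (B := B) (F := F) (w := w) t v B
  have hmu : (accF B F w t v B).1 ≠ 0 → (accF B F w t v B).1 = mu B F w t v + 1 := by
    intro h
    obtain ⟨⟨u, h1, h2, h3, h4⟩, j2, -⟩ := i2 h
    obtain ⟨u', g1, g2, g3⟩ := mu_mem (w := w) h2 h3
    have := j2 u' (g1.lt hB) g1 g2
    have := mu_le (w := w) h2 h3
    omega
  refine ⟨?_, hmu, ?_⟩
  · constructor
    · rintro h ⟨_, u, h1, h2⟩
      exact (i1 h).2 u (h1.lt hB) ⟨h1, h2⟩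
    · intro h
      by_contra hne
      obtain ⟨⟨u, h1, h2, h3, h4⟩, -⟩ := i2 hne
      exact h ⟨hv, u, h2, h3⟩
  · by_cases h : (accF B F w t v B).1 = 0
    · rw [(i1 h).1]
      simp only [Bool.false_eq_true, false_iff, not_not]
      intro u u' h1 h2
      exact absurd ⟨h1, h2⟩ ((i1 h).2 u (h1.lt hB))
    · rw [(i2 h).2.2]
      have e := hmu h
      rw [e]
      unfold UQ
      constructor
      · rintro ⟨u, hu, u', hu', hne, h3, h4, h5, h6, h7, h8⟩ hcon
        exact hne (hcon u u' h3 h4 (by omega) h6 h7 (by omega))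
      · intro hcon
        push Not at hcon
        obtain ⟨u, u', h1, h2, h3, h4, h5, h6, h7⟩ := hcon
        exact ⟨u, h1.lt hB, u', h4.lt hB, h7, h1, h2, by omega, h4, h5, by omega⟩

end acc

section forward

variable {B L K W m : ℕ} {wt : ℕ → ℕ → ℕ → ℕ} {F : ℕ → ℕ → ℕ → Bool}

/-- The bounds for the registers. -/
structure Bd (B L K W m : ℕ) (wt : ℕ → ℕ → ℕ → ℕ) : Prop where
  hB : 0 < B
  hw : ∀ j t v, wt j t v ≤ W
  h1 : B ≤ K
  h2 : L ≤ K
  h3 : L * W + 1 ≤ K
  h4 : B * (L * W) ≤ K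
  h5 : m ≤ K

theorem Bd.dd (hd : Bd B L K W m wt) {j t v : ℕ} (ht : t ≤ L) : dd B F (wt j) t v ≤ K := by
  have h1 := dd_le (B := B) (F := F) (hd.hw j) t v
  have h2 : t * W ≤ L * W := Nat.mul_le_mul_right _ ht
  have := hd.h3
  omega

theorem Bd.cP (hd : Bd B L K W m wt) {t x : ℕ} (hx : x ≤ B) : cP B F t x ≤ K :=
  (cP_le t x).trans (hx.trans hd.h1)

theorem Bd.sP (hd : Bd B L K W m wt) {j t x : ℕ} (hx : x ≤ B) (ht : t ≤ L) :
    sP B F (wt j) t x ≤ K := by
  refine (sP_le (hd.hw j) t x).trans (le_trans ?_ hd.h4)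
  exact Nat.mul_le_mul hx (Nat.mul_le_mul_right _ ht)

theorem Bd.acc (hd : Bd B L K W m wt) {j t v x : ℕ} (ht : t ≤ L) :
    (accF B F (wt j) t v x).1 ≤ K := by
  have h1 := accF_le (B := B) (F := F) (hd.hw j) t v x
  have h2 : t * W ≤ L * W := Nat.mul_le_mul_right _ ht
  have := hd.h3
  omega

/-- The accumulator after the vertices `< x`. -/
noncomputable def aR (B : ℕ) (F : ℕ → ℕ → ℕ → Bool) (wt : ℕ → ℕ → ℕ → ℕ) (k : Ctx) (x : ℕ) : Ac :=
  ⟨x, cP B F k.t x, sP B F (wt k.j) k.t x, (accF B F (wt k.j) k.t k.v x).1,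
    (accF B F (wt k.j) k.t k.v x).2⟩

theorem aR_bdd (hd : Bd B L K W m wt) {k : Ctx} (ht : k.t ≤ L) {x : ℕ} (hx : x ≤ B) :
    (aR B F wt k x).bdd K :=
  ⟨hx.trans hd.h1, hd.cP hx, hd.sP hx ht, hd.acc ht⟩

theorem okA_aR (k : Ctx) (x : ℕ) : OkA B F wt k (aR B F wt k x) := ⟨rfl, rfl⟩

/-- Guessing the path. -/
theorem walk (hd : Bd B L K W m wt) {k : Ctx} (hk : k.bdd K) (hok : CtxOK B F wt k) (ht : k.t ≤ L)
    (hU : ∀ s < k.t, ∀ v < B, UQ B F (wt k.j) s v) {x : ℕ} (hx : x < B) :
    ∀ n ≤ k.t, ∀ y, OM B F (wt k.j) k.t x (k.t - n) y → Rc B F (k.t - n) y →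
      ReflTransGen (Dt (RR B L K wt F) HH)
        (.G k (aR B F wt k x) (k.t - n) y (dd B F (wt k.j) (k.t - n) y))
        (.E k (aR B F wt k x) k.t x (dd B F (wt k.j) k.t x) k.v) := by
  have ha : (aR B F wt k x).bdd K := aR_bdd hd ht hx.le
  have hxK : x ≤ K := hx.le.trans hd.h1
  have htK : k.t ≤ K := ht.trans hd.h2
  have hvK : k.v ≤ K := hk.2.2.2.2.1
  intro n
  induction n with
  | zero =>
    intro _ y hy _
    rw [Nat.sub_zero] at *
    have e := hy.top
    subst e
    refine ReflTransGen.single (Dt.single (by rintro ⟨b, h⟩; cases h) ⟨?_, ?_⟩ ?_)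
    · exact Stp.last _ _ _ _ _ _ rfl rfl
    · exact ⟨hk, ha, htK, hxK, hd.dd ht, hvK⟩
    · rintro z ⟨h, -⟩
      cases h with
      | ext _ _ _ _ _ _ _ h _ => omega
      | last _ _ _ _ _ _ _ _ => rfl
  | succ n ih =>
    intro hn y hy hr
    have e : k.t - n = k.t - (n + 1) + 1 := by omega
    have ih' := ih (by omega)
    rw [e] at ih'
    set s := k.t - (n + 1) with hs
    have hst : s < k.t := by omega
    have hyB : y < B := hr.lt hd.hB
    obtain ⟨y', h1, h2, h3⟩ := hy.next hst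
    have hy'B : y' < B := h1.lt hx
    have hdy : dd B F (wt k.j) s y ≤ K := hd.dd (by omega)
    have h4 := ih' y' h1 ⟨hy'B, y, hr, h2⟩
    have e2 : dd B F (wt k.j) (s + 1) y' = dd B F (wt k.j) s y + wt k.j (s + 1) y' := by
      rw [dd_succ, h3]
    rw [e2] at h4
    refine ReflTransGen.head (b := .E k (aR B F wt k x) s y (dd B F (wt k.j) s y) y') ?_
      (ReflTransGen.head ?_ h4)
    · refine ⟨(by rintro ⟨b, h⟩; cases h), ⟨Stp.ext _ _ _ _ _ _ _ hst hy'B, ?_⟩, ?_⟩
      · exact ⟨hk, ha, by omega, hyB.le.trans hd.h1, hdy, hy'B.le.trans hd.h1⟩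
      · rintro z ⟨h, -⟩
        cases h with
        | ext _ _ _ _ _ y'' _ _ h6 =>
          by_cases hyy : y'' = y'
          · left; rw [hyy]
          · right
            apply inv_dead
            refine ⟨hok, hx, hst.le, hr, le_rfl, fun _ => ⟨h6, fun h7 => Or.inr ⟨okA_aR k x, ?_⟩⟩,
              fun h => by omega⟩
            rintro ⟨h8, -⟩
            exact hyy (OM.unique hx hU h8 y' h1)
        | last _ _ _ _ _ _ h6 _ => omega
    · refine Dt.single (by rintro ⟨b, h⟩; cases h) ⟨?_, ?_⟩ ?_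
      · show Stp B L wt _ (F s y y') _
        rw [h2]
        exact Stp.edge _ _ _ _ _ _ hst
      · refine ⟨hk, ha, by omega, hy'B.le.trans hd.h1, ?_⟩
        rw [← e2]
        exact hd.dd (by omega)
      · rintro z ⟨h, -⟩
        generalize hb : F (Z.qry (.E k (aR B F wt k x) s y (dd B F (wt k.j) s y) y')).1
          (Z.qry (.E k (aR B F wt k x) s y (dd B F (wt k.j) s y) y')).2.1
          (Z.qry (.E k (aR B F wt k x) s y (dd B F (wt k.j) s y) y')).2.2 = b at h
        cases h with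
        | edge _ _ _ _ _ _ _ => rfl
        | target _ _ _ _ _ _ _ h6 => omega

/-- One round of the inner loop. -/
theorem round (hd : Bd B L K W m wt) {k : Ctx} (hk : k.bdd K) (hok : CtxOK B F wt k) (ht : k.t ≤ L)
    (hU : ∀ s < k.t, ∀ v < B, UQ B F (wt k.j) s v) {x : ℕ} (hx : x < B) :
    ReflTransGen (Dt (RR B L K wt F) HH) (.P k (aR B F wt k x)) (.P k (aR B F wt k (x + 1))) := by
  have ha : (aR B F wt k x).bdd K := aR_bdd hd ht hx.le
  have ha' : (aR B F wt k (x + 1)).bdd K := aR_bdd hd ht hx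
  by_cases hr : Rc B F k.t x
  · have h1 := walk hd hk hok ht hU hx k.t le_rfl 0 (by rw [Nat.sub_self]; exact OM.bottom hr)
      (by rw [Nat.sub_self]; rfl)
    rw [Nat.sub_self] at h1
    refine ReflTransGen.head ?_ (h1.tail ?_)
    · refine ⟨(by rintro ⟨b, h⟩; cases h), ⟨Stp.yes _ _ _ hx, ?_⟩, ?_⟩
      · exact ⟨hk, ha, Nat.zero_le _, Nat.zero_le _, Nat.zero_le _⟩
      · rintro z ⟨h, -⟩
        cases h with
        | no _ _ _ _ =>
          right
          apply inv_dead
          refine ⟨hok, hx, Or.inl ?_⟩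
          show cP B F k.t x < cP B F k.t (x + 1)
          rw [cP_succ_pos hr]
          omega
        | yes _ _ _ _ => left; rfl
        | fin _ _ _ h _ _ =>
          have h' : x = B := h
          omega
    · have e : aR B F wt k (x + 1) = ⟨(aR B F wt k x).x + 1, (aR B F wt k x).cnt + 1,
          (aR B F wt k x).sum + dd B F (wt k.j) k.t x,
          (upd (aR B F wt k x).mn (aR B F wt k x).du (dd B F (wt k.j) k.t x) (F k.t x k.v)).1,
          (upd (aR B F wt k x).mn (aR B F wt k x).du (dd B F (wt k.j) k.t x) (F k.t x k.v)).2⟩ := by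
        unfold aR
        rw [cP_succ_pos hr, sP_succ_pos hr, accF, if_pos hr]
      refine Dt.single (by rintro ⟨b, h⟩; cases h) ⟨?_, hk, ha'⟩ ?_
      · rw [e]
        exact Stp.target _ _ _ _ _ _ _ rfl
      · rintro z ⟨h, -⟩
        rw [e]
        generalize hb : F (Z.qry (.E k (aR B F wt k x) k.t x (dd B F (wt k.j) k.t x) k.v)).1
          (Z.qry (.E k (aR B F wt k x) k.t x (dd B F (wt k.j) k.t x) k.v)).2.1
          (Z.qry (.E k (aR B F wt k x) k.t x (dd B F (wt k.j) k.t x) k.v)).2.2 = b at h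
        have hb' : F k.t x k.v = b := hb
        cases h with
        | edge _ _ _ _ _ _ h => omega
        | target _ _ _ _ _ _ _ h6 => rw [← hb']
  · have e : aR B F wt k (x + 1) = ⟨(aR B F wt k x).x + 1, (aR B F wt k x).cnt,
        (aR B F wt k x).sum, (aR B F wt k x).mn, (aR B F wt k x).du⟩ := by
      unfold aR
      rw [cP_succ_neg hr, sP_succ_neg hr, accF, if_neg hr]
    refine ReflTransGen.single ⟨(by rintro ⟨b, h⟩; cases h), ⟨?_, hk, ha'⟩, ?_⟩
    · rw [e]
      exact Stp.no _ _ _ hx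
    · rintro z ⟨h, -⟩
      cases h with
      | no _ _ _ _ => left; rw [e]
      | yes _ _ _ _ =>
        right
        apply inv_dead
        refine ⟨hok, hx, Nat.zero_le _, rfl, Nat.zero_le _, Or.inr ⟨okA_aR k x, ?_⟩⟩
        rintro ⟨h8, -⟩
        exact hr (h8.rc hx rfl)
      | fin _ _ _ h _ _ =>
        have h' : x = B := h
        omega

/-- The inner loop. -/
theorem pass (hd : Bd B L K W m wt) {k : Ctx} (hk : k.bdd K) (hok : CtxOK B F wt k) (ht : k.t ≤ L)
    (hU : ∀ s < k.t, ∀ v < B, UQ B F (wt k.j) s v) (x : ℕ) (hx : x ≤ B) :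
    ReflTransGen (Dt (RR B L K wt F) HH) (.P k startA) (.P k (aR B F wt k x)) := by
  induction x with
  | zero =>
    have e : aR B F wt k 0 = startA := by
      unfold aR startA
      rw [cP_zero, sP_zero]
      rfl
    rw [e]
  | succ x ih => exact (ih (by omega)).trans (round hd hk hok ht hU hx)

theorem pass_fin (hd : Bd B L K W m wt) {k : Ctx} (hk : k.bdd K) (hok : CtxOK B F wt k)
    (ht : k.t ≤ L) (hU : ∀ s < k.t, ∀ v < B, UQ B F (wt k.j) s v)
    (hf : (fin B L wt k (aR B F wt k B)).bdd K) :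
    ReflTransGen (Dt (RR B L K wt F) HH) (.P k startA) (fin B L wt k (aR B F wt k B)) := by
  refine (pass hd hk hok ht hU B le_rfl).tail ?_
  refine Dt.single (by rintro ⟨b, h⟩; cases h) ⟨Stp.fin _ _ _ rfl hok.1.symm hok.2.symm, hf⟩ ?_
  rintro z ⟨h, -⟩
  cases h with
  | no _ _ _ h => exact absurd h (lt_irrefl _)
  | yes _ _ _ h => exact absurd h (lt_irrefl _)
  | fin _ _ _ _ _ _ => rfl

/-- The registers before the vertex `v` of layer `t + 1`. -/
noncomputable def kV (B : ℕ) (F : ℕ → ℕ → ℕ → Bool) (wt : ℕ → ℕ → ℕ → ℕ) (j t v : ℕ) : Ctx :=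
  ⟨j, t, cP B F t B, sP B F (wt j) t B, v, cP B F (t + 1) v, sP B F (wt j) (t + 1) v⟩

theorem kV_bdd (hd : Bd B L K W m wt) {j t v : ℕ} (hj : j ≤ m) (ht : t < L) (hv : v ≤ B) :
    (kV B F wt j t v).bdd K :=
  ⟨hj.trans hd.h5, ht.le.trans hd.h2, hd.cP le_rfl, hd.sP le_rfl ht.le, hv.trans hd.h1, hd.cP hv,
    hd.sP hv ht⟩

/-- The first state of layer `t`. -/
noncomputable def zT (B : ℕ) (F : ℕ → ℕ → ℕ → Bool) (wt : ℕ → ℕ → ℕ → ℕ) (j t : ℕ) : Z :=
  .P ⟨j, t, cP B F t B, sP B F (wt j) t B, 0, 0, 0⟩ startA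

theorem zT_eq (j t : ℕ) : zT B F wt j t = .P (kV B F wt j t 0) startA := by
  unfold zT kV
  rw [cP_zero, sP_zero]

theorem startA_bdd : startA.bdd K :=
  ⟨Nat.zero_le _, Nat.zero_le _, Nat.zero_le _, Nat.zero_le _⟩

theorem startZ_eq (hB : 0 < B) (j : ℕ) : startZ j = zT B F wt j 0 := by
  unfold startZ zT
  rw [cP_layer0 hB, sP_layer0]

theorem one_v (hd : Bd B L K W m wt) {j t v : ℕ} (hj : j + 1 ≤ m) (ht : t < L) (hv : v < B)
    (hU : ∀ s < t, ∀ v < B, UQ B F (wt j) s v) :
    (UQ B F (wt j) t v ∧ ReflTransGen (Dt (RR B L K wt F) HH) (.P (kV B F wt j t v) startA)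
      (if v + 1 < B then .P (kV B F wt j t (v + 1)) startA else zT B F wt j (t + 1))) ∨
    (¬ UQ B F (wt j) t v ∧ ReflTransGen (Dt (RR B L K wt F) HH) (.P (kV B F wt j t v) startA)
      (startZ (j + 1))) := by
  have hok : CtxOK B F wt (kV B F wt j t v) := ⟨rfl, rfl⟩
  have hk : (kV B F wt j t v).bdd K := kV_bdd hd (by omega) ht hv.le
  have hp := pass_fin (L := L) hd hk hok ht.le hU
  obtain ⟨a1, a2, a3⟩ := accF_end (B := B) (F := F) (w := wt j) hd.hB t v hv
  have e1 : (aR B F wt (kV B F wt j t v) B).mn = (accF B F (wt j) t v B).1 := rfl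
  have e2 : (aR B F wt (kV B F wt j t v) B).du = (accF B F (wt j) t v B).2 := rfl
  by_cases hq : UQ B F (wt j) t v
  · left
    refine ⟨hq, ?_⟩
    have hdu : ¬ ((accF B F (wt j) t v B).2 = true) := fun h => (a3.1 h) hq
    have e3 : fin B L wt (kV B F wt j t v) (aR B F wt (kV B F wt j t v) B) =
        (if v + 1 < B then .P (kV B F wt j t (v + 1)) startA else zT B F wt j (t + 1)) := by
      unfold fin
      rw [if_neg (show ¬ (kV B F wt j t v).t = L from ht.ne), e1, e2, if_neg hdu]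
      have hc : (kV B F wt j t v).c' + (if (accF B F (wt j) t v B).1 = 0 then 0 else 1) =
          cP B F (t + 1) (v + 1) := by
        show cP B F (t + 1) v + _ = _
        by_cases h0 : (accF B F (wt j) t v B).1 = 0
        · rw [if_pos h0, cP_succ_neg (a1.1 h0)]
          rfl
        · rw [if_neg h0, cP_succ_pos (not_not.1 (fun h => h0 (a1.2 h)))]
      have hS : (kV B F wt j t v).S' + (if (accF B F (wt j) t v B).1 = 0 then 0 else
          ((accF B F (wt j) t v B).1 - 1) + wt (kV B F wt j t v).j ((kV B F wt j t v).t + 1)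
            (kV B F wt j t v).v) = sP B F (wt j) (t + 1) (v + 1) := by
        show sP B F (wt j) (t + 1) v + (if (accF B F (wt j) t v B).1 = 0 then 0 else
          ((accF B F (wt j) t v B).1 - 1) + wt j (t + 1) v) = _
        by_cases h0 : (accF B F (wt j) t v B).1 = 0
        · rw [if_pos h0, sP_succ_neg (a1.1 h0)]
          rfl
        · rw [if_neg h0, sP_succ_pos (not_not.1 (fun h => h0 (a1.2 h))), dd_succ, a2 h0]
          rfl
      rw [hc, hS]
      by_cases hv1 : v + 1 < B
      · rw [if_pos hv1, if_pos (show (kV B F wt j t v).v + 1 < B from hv1)]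
        rfl
      · rw [if_neg hv1, if_neg (show ¬ (kV B F wt j t v).v + 1 < B from hv1)]
        have : v + 1 = B := by omega
        unfold zT
        rw [this]
        rfl
    rw [e3] at hp
    apply hp
    by_cases hv1 : v + 1 < B
    · rw [if_pos hv1]
      exact ⟨kV_bdd hd (by omega) ht hv1.le, startA_bdd⟩
    · rw [if_neg hv1]
      refine ⟨⟨?_, ?_, hd.cP le_rfl, hd.sP le_rfl ht, Nat.zero_le _, Nat.zero_le _,
        Nat.zero_le _⟩, startA_bdd⟩
      · have := hd.h5
        simp only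
        omega
      · have := hd.h2
        simp only
        omega
  · right
    refine ⟨hq, ?_⟩
    have e3 : fin B L wt (kV B F wt j t v) (aR B F wt (kV B F wt j t v) B) = startZ (j + 1) := by
      unfold fin
      rw [if_neg (show ¬ (kV B F wt j t v).t = L from ht.ne), e2, if_pos (a3.2 hq)]
      rfl
    rw [e3] at hp
    apply hp
    have h1 := hd.h5
    have h2 := hd.h1
    have h3 := hd.hB
    refine ⟨⟨?_, ?_, ?_, ?_, ?_, ?_, ?_⟩, startA_bdd⟩ <;> simp only <;> omega

/-- One layer. -/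
theorem row (hd : Bd B L K W m wt) {j t : ℕ} (hj : j + 1 ≤ m) (ht : t < L)
    (hU : ∀ s < t, ∀ v < B, UQ B F (wt j) s v) (v : ℕ) (hv : v < B) :
    ((∀ v' ≤ v, UQ B F (wt j) t v') ∧ ReflTransGen (Dt (RR B L K wt F) HH) (zT B F wt j t)
      (if v + 1 < B then .P (kV B F wt j t (v + 1)) startA else zT B F wt j (t + 1))) ∨
    (¬ Good B F (wt j) L ∧ ReflTransGen (Dt (RR B L K wt F) HH) (zT B F wt j t)
      (startZ (j + 1))) := by
  induction v with
  | zero =>
    rw [zT_eq (F := F) j t]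
    rcases one_v (F := F) hd hj ht hv hU with ⟨h1, h2⟩ | ⟨h1, h2⟩
    · left
      refine ⟨fun v' hv' => ?_, h2⟩
      have : v' = 0 := by omega
      rw [this]; exact h1
    · right
      exact ⟨fun h => h1 (h t ht 0 hv), h2⟩
  | succ v ih =>
    rcases ih (by omega) with ⟨h1, h2⟩ | h
    · rw [if_pos hv] at h2
      rcases one_v (F := F) hd hj ht hv hU with ⟨h3, h4⟩ | ⟨h3, h4⟩
      · left
        refine ⟨fun v' hv' => ?_, h2.trans h4⟩
        rcases Nat.lt_succ_iff_lt_or_eq.1 (Nat.lt_succ_of_le hv') with h5 | h5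
        · exact h1 v' (by omega)
        · rw [h5]; exact h3
      · right
        exact ⟨fun h => h3 (h t ht _ hv), h2.trans h4⟩
    · right; exact h

/-- All layers. -/
theorem rows (hd : Bd B L K W m wt) {j : ℕ} (hj : j + 1 ≤ m) (t : ℕ) (ht : t ≤ L) :
    ((∀ s < t, ∀ v < B, UQ B F (wt j) s v) ∧
      ReflTransGen (Dt (RR B L K wt F) HH) (startZ j) (zT B F wt j t)) ∨
    (¬ Good B F (wt j) L ∧ ReflTransGen (Dt (RR B L K wt F) HH) (startZ j) (startZ (j + 1))) := by
  induction t with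
  | zero =>
    left
    refine ⟨fun s hs => by omega, ?_⟩
    rw [startZ_eq (F := F) (wt := wt) hd.hB]
  | succ t ih =>
    rcases ih (by omega) with ⟨h1, h2⟩ | h
    · have hB := hd.hB
      rcases row (F := F) hd hj ht h1 (B - 1) (by omega) with ⟨h3, h4⟩ | ⟨h3, h4⟩
      · left
        rw [if_neg (by omega)] at h4
        refine ⟨fun s hs v hv => ?_, h2.trans h4⟩
        rcases Nat.lt_succ_iff_lt_or_eq.1 hs with h5 | rfl
        · exact h1 s h5 v hv
        · exact h3 v (by omega)
      · right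
        exact ⟨h3, h2.trans h4⟩
    · right; exact h

/-- The last layer. -/
theorem last_pass (hd : Bd B L K W m wt) {j : ℕ} (hj : j ≤ m)
    (hU : ∀ s < L, ∀ v < B, UQ B F (wt j) s v) :
    ∃ b : Bool, (b = true ↔ ∃ u, Rc B F L u ∧ F L u 0 = true) ∧
      ReflTransGen (Dt (RR B L K wt F) HH) (zT B F wt j L) (.H b) := by
  set k : Ctx := ⟨j, L, cP B F L B, sP B F (wt j) L B, 0, 0, 0⟩ with hkdef
  have hk : k.bdd K :=
    ⟨hj.trans hd.h5, hd.h2, hd.cP le_rfl, hd.sP le_rfl le_rfl, Nat.zero_le _, Nat.zero_le _,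
      Nat.zero_le _⟩
  have e : fin B L wt k (aR B F wt k B) = .H (decide ((aR B F wt k B).mn ≠ 0)) := by
    unfold fin
    rw [if_pos rfl]
  have hp := pass_fin (L := L) (F := F) hd hk ⟨rfl, rfl⟩ le_rfl hU (by rw [e]; exact trivial)
  rw [e] at hp
  refine ⟨_, ?_, hp⟩
  have e1 : (aR B F wt k B).mn = (accF B F (wt j) L 0 B).1 := rfl
  rw [decide_eq_true_iff, e1]
  obtain ⟨a1, -, -⟩ := accF_end (B := B) (F := F) (w := wt j) hd.hB L 0 hd.hB
  rw [Ne, a1, not_not]
  constructor
  · rintro ⟨_, u, h1, h2⟩; exact ⟨u, h1, h2⟩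
  · rintro ⟨u, h1, h2⟩; exact ⟨hd.hB, u, h1, h2⟩

/-- The procedure: from the start, the transitions that do not lead to dead ends lead to the right
answer. -/
theorem proc_correct (hd : Bd B L K W m wt) (hg : ∃ j < m, Good B F (wt j) L) :
    ∃ b : Bool, (b = true ↔ ∃ u, Rc B F L u ∧ F L u 0 = true) ∧
      ReflTransGen (Dt (RR B L K wt F) HH) (startZ 0) (.H b) := by
  obtain ⟨js, hjs, hgood⟩ := hg
  have key : ∀ n ≤ js, ∃ b : Bool, (b = true ↔ ∃ u, Rc B F L u ∧ F L u 0 = true) ∧
      ReflTransGen (Dt (RR B L K wt F) HH) (startZ (js - n)) (.H b) := by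
    intro n
    induction n with
    | zero =>
      intro _
      rw [Nat.sub_zero]
      rcases rows (F := F) hd (show js + 1 ≤ m by omega) L le_rfl with ⟨h1, h2⟩ | ⟨h1, _⟩
      · obtain ⟨b, h3, h4⟩ := last_pass (F := F) hd (by omega) h1
        exact ⟨b, h3, h2.trans h4⟩
      · exact absurd hgood h1
    | succ n ih =>
      intro hn
      rcases rows (F := F) hd (show js - (n + 1) + 1 ≤ m by omega) L le_rfl with ⟨h1, h2⟩ | ⟨_, h2⟩
      · obtain ⟨b, h3, h4⟩ := last_pass (F := F) hd (by omega) h1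
        exact ⟨b, h3, h2.trans h4⟩
      · obtain ⟨b, h3, h4⟩ := ih (by omega)
        have e : js - (n + 1) + 1 = js - n := by omega
        rw [e] at h2
        exact ⟨b, h3, h2.trans h4⟩
  have := key js le_rfl
  rw [Nat.sub_self] at this
  exact this

end forward

end Pool.Agent.H720.UV
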