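import Mathlib
import Pool.Agent.H720.UV.RA2
import Pool.Graph.R_seed8.H630R2.LA.Machine

set_option autoImplicit false

/-!
The unambiguous self-verifying 1-limited automaton.  It annotates the visited cells: the cell with
the index `k` in its block gets the bit which says whether the state `k` of the simulated automaton
can be reached at the beginning of the block.
-/

namespace Pool.Agent.H720.UV

open Relation Pool.Agent.H630R2.LA

/-- The task of an excursion: compute the bit of the cell with index `k`, or decide acceptance at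
the end of the input (`fst`: in the first block). -/
inductive Par (B : ℕ) : Type
  | bit (k : Fin B) : Par B
  | fin (fst : Bool) (k : Fin B) : Par B

variable {B : ℕ}

/-- The number of letters that are read. -/
def Par.T : Par B → ℕ
  | .bit _ => B
  | .fin f k => if f = true then k.val else B + k.val

/-- The distance from the beginning of the window to the next cell. -/
def Par.Fr : Par B → ℕ
  | .bit k => B + k.val + 1
  | .fin f k => (if f = true then k.val else B + k.val) + 1

def Par.fs : Par B → Bool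
  | .bit _ => false
  | .fin f _ => f

/-- Which states are looked for. -/
def Par.goal (facc : ℕ → Bool) : Par B → ℕ → Bool
  | .bit k, u => decide (u = k.val)
  | .fin _ _, u => facc u

/-- The cell (relative to the window) in which a query is answered. -/
def Par.adr (p : Par B) (q : ℕ × ℕ × ℕ) : ℕ :=
  if q.1 = 0 then (if p.fs = true then 1 else if q.2.2 < B then 1 + q.2.2 else 1)
  else if q.1 ≤ p.T then q.1 else 1

/-- The transition relation read from a visited cell. -/
def lrl {A : Type} (rel : A → ℕ → ℕ → Bool) (σ : Sym (WS A)) (u v : ℕ) : Bool := match σ with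
  | .sym (.mark a _) => rel a u v
  | _ => false

/-- The answer to a query. -/
def Par.ans {A : Type} (rel : A → ℕ → ℕ → Bool) (p0 : ℕ) (facc : ℕ → Bool) (p : Par B)
    (q : ℕ × ℕ × ℕ) (σ : Sym (WS A)) : Bool :=
  if q.1 = 0 then decide (q.2.1 = 0) &&
    (if p.fs = true then decide (q.2.2 = p0) else (decide (q.2.2 < B) && bitS σ))
  else if q.1 ≤ p.T then lrl rel σ q.2.1 q.2.2 else p.goal facc q.2.1

/-- The bounded states of the procedure. -/
def ZB (K : ℕ) : Type := {z : Z // z.bdd K}

/-- The states of the machine. -/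
inductive QS (B K : ℕ) : Type
  | en (f : Bool) (k : Fin B) (b : Bool) : QS B K
  | ex (p : Par B) (z : ZB K) (r : Fin (2 * B + 1)) : QS B K
  | vd (b : Bool) : QS B K
  | ac (b : Bool) : QS B K

/-- What is written in a visited cell. -/
def wr {A : Type} : Sym (WS A) → WS A
  | .sym x => x
  | _ => .dum

theorem rewrite_wr {A : Type} (σ : Sym (WS A)) : σ.rewrite (wr σ) = σ := by
  cases σ <;> rfl

theorem startZ_bdd {K : ℕ} (hK : 1 ≤ K) : (startZ 0).bdd K :=
  ⟨⟨Nat.zero_le _, Nat.zero_le _, hK, Nat.zero_le _, Nat.zero_le _, Nat.zero_le _, Nat.zero_le _⟩,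
    startA_bdd⟩

/-- The index of the next cell. -/
def nxk (k : Fin B) : Fin B := if h : k.val + 1 < B then ⟨k.val + 1, h⟩ else ⟨0, by have := k.isLt; omega⟩

/-- The transitions of the machine. -/
inductive Dl {A : Type} (B K : ℕ) (hK : 1 ≤ K) (rel : A → ℕ → ℕ → Bool) (p0 : ℕ) (facc : ℕ → Bool)
    (wt : ℕ → ℕ → ℕ → ℕ) : QS B K → Sym (WS A) → QS B K → WS A → Bool → Prop
  | raw1 (k : Fin B) (b : Bool) (a : A) (h : k.val + 1 < B) :
      Dl B K hK rel p0 facc wt (.en true k b) (.sym (.raw a))
        (.en true ⟨k.val + 1, h⟩ (decide (k.val + 1 = p0))) (.mark a b) true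
  | raw2 (f : Bool) (k : Fin B) (b : Bool) (a : A) (h : ¬ (f = true ∧ k.val + 1 < B)) :
      Dl B K hK rel p0 facc wt (.en f k b) (.sym (.raw a))
        (.ex (.bit (nxk k)) ⟨startZ 0, startZ_bdd hK⟩ ⟨B + (nxk k).val - 1, by
          have := (nxk k).isLt; omega⟩) (.mark a b) false
  | rm0 (k : Fin B) (b : Bool) (h : k.val = 0) :
      Dl B K hK rel p0 facc wt (.en true k b) .rm (.ac (facc p0)) .dum true
  | rm1 (f : Bool) (k : Fin B) (b : Bool) (h : ¬ (f = true ∧ k.val = 0)) :
      Dl B K hK rel p0 facc wt (.en f k b) .rm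
        (.ex (.fin f k) ⟨startZ 0, startZ_bdd hK⟩ ⟨(Par.fin f k).T, by
          have := k.isLt
          unfold Par.T
          simp only
          split_ifs <;> omega⟩) .dum false
  | right (p : Par B) (z : ZB K) (r r' : Fin (2 * B + 1)) (σ : Sym (WS A)) (h : ¬ HH z.1)
      (h1 : r.val < p.adr z.1.qry) (h2 : r.val + 1 < p.Fr) (h3 : r'.val = r.val + 1) :
      Dl B K hK rel p0 facc wt (.ex p z r) σ (.ex p z r') (wr σ) true
  | left (p : Par B) (z : ZB K) (r r' : Fin (2 * B + 1)) (σ : Sym (WS A)) (h : ¬ HH z.1)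
      (h1 : p.adr z.1.qry < r.val) (h3 : r'.val + 1 = r.val) :
      Dl B K hK rel p0 facc wt (.ex p z r) σ (.ex p z r') (wr σ) false
  | read (p : Par B) (z z' : ZB K) (r r' : Fin (2 * B + 1)) (σ : Sym (WS A)) (h : ¬ HH z.1)
      (h1 : r.val = p.adr z.1.qry) (h3 : r'.val + 1 = r.val)
      (h4 : Stp B (p.T + 1) wt z.1 (p.ans rel p0 facc z.1.qry σ) z'.1) :
      Dl B K hK rel p0 facc wt (.ex p z r) σ (.ex p z' r') (wr σ) false
  | ret1 (p : Par B) (z : ZB K) (r r' : Fin (2 * B + 1)) (σ : Sym (WS A)) (h : HH z.1)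
      (h1 : r.val + 1 < p.Fr) (h3 : r'.val = r.val + 1) :
      Dl B K hK rel p0 facc wt (.ex p z r) σ (.ex p z r') (wr σ) true
  | ret2 (k : Fin B) (z : ZB K) (r : Fin (2 * B + 1)) (σ : Sym (WS A)) (b : Bool) (h : z.1 = .H b)
      (h1 : r.val + 1 = (Par.bit k).Fr) :
      Dl B K hK rel p0 facc wt (.ex (.bit k) z r) σ (.en false k b) (wr σ) true
  | ret3 (f : Bool) (k : Fin B) (z : ZB K) (r : Fin (2 * B + 1)) (σ : Sym (WS A)) (b : Bool)
      (h : z.1 = .H b) (h1 : r.val + 1 = (Par.fin f k).Fr) :
      Dl B K hK rel p0 facc wt (.ex (.fin f k) z r) σ (.vd b) (wr σ) true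
  | vd (b : Bool) : Dl B K hK rel p0 facc wt (.vd b) .rm (.ac b) .dum true

theorem Par.T_lt (p : Par B) : p.T < 2 * B + 1 := by
  cases p with
  | bit k => simp only [Par.T]; omega
  | fin f k => have := k.isLt; simp only [Par.T]; split_ifs <;> omega

theorem Par.Fr_le (p : Par B) : p.Fr ≤ 2 * B := by
  cases p with
  | bit k => have := k.isLt; simp only [Par.Fr]; omega
  | fin f k => have := k.isLt; simp only [Par.Fr]; split_ifs <;> omega

theorem Par.T_lt_Fr (p : Par B) : p.T < p.Fr := by
  cases p with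
  | bit k => simp only [Par.T, Par.Fr]; omega
  | fin f k => simp only [Par.T, Par.Fr]; omega

theorem Par.adr_pos (p : Par B) (q : ℕ × ℕ × ℕ) : 1 ≤ p.adr q := by
  unfold Par.adr
  split_ifs <;> omega

theorem Par.adr_lt (p : Par B) (hp : 2 ≤ p.Fr) (q : ℕ × ℕ × ℕ) : p.adr q < p.Fr := by
  unfold Par.adr
  have := p.T_lt_Fr
  split_ifs with h1 h2 h3 h4
  · omega
  · cases p with
    | bit k => simp only [Par.Fr]; omega
    | fin f k => simp only [Par.Fr, Par.fs] at *; rw [if_neg h2]; omega
  · omega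
  · omega
  · omega

end Pool.Agent.H720.UV
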