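import Mathlib
import Pool.Agent.H720.UV.Mach

set_option autoImplicit false

/-!
The number of the states.
-/

namespace Pool.Agent.H720.UV

open Relation Pool.Agent.H630R2.LA

/-- The registers of a state. -/
def Z.code : Z → Fin 4 × Bool × (Fin 15 → ℕ)
  | .P k a => (0, a.du, ![k.j, k.t, k.c, k.S, k.v, k.c', k.S', a.x, a.cnt, a.sum, a.mn, 0, 0, 0, 0])
  | .G k a s y w =>
    (1, a.du, ![k.j, k.t, k.c, k.S, k.v, k.c', k.S', a.x, a.cnt, a.sum, a.mn, s, y, w, 0])
  | .E k a s y w y' =>
    (2, a.du, ![k.j, k.t, k.c, k.S, k.v, k.c', k.S', a.x, a.cnt, a.sum, a.mn, s, y, w, y'])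
  | .H b => (3, b, fun _ => 0)

theorem code_inj : Function.Injective Z.code := by
  intro z z' h
  cases z with
  | P k a =>
    cases z' with
    | P k' a' =>
      simp only [Z.code, Prod.mk.injEq, true_and] at h
      obtain ⟨h1, h2⟩ := h
      have g := fun i => congrFun h2 i
      have g0 := g 0
      have g1 := g 1
      have g2 := g 2
      have g3 := g 3
      have g4 := g 4
      have g5 := g 5
      have g6 := g 6
      have g7 := g 7
      have g8 := g 8
      have g9 := g 9
      have g10 := g 10
      have e1 : k = k' := Ctx.ext g0 g1 g2 g3 g4 g5 g6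
      have e2 : a = a' := Ac.ext g7 g8 g9 g10 h1
      rw [e1, e2]
    | G _ _ _ _ _ => exact absurd (congrArg Prod.fst h) (by simp [Z.code])
    | E _ _ _ _ _ _ => exact absurd (congrArg Prod.fst h) (by simp [Z.code])
    | H _ => exact absurd (congrArg Prod.fst h) (by simp [Z.code])
  | G k a s y w =>
    cases z' with
    | G k' a' s' y' w' =>
      simp only [Z.code, Prod.mk.injEq, true_and] at h
      obtain ⟨h1, h2⟩ := h
      have g := fun i => congrFun h2 i
      have g0 := g 0
      have g1 := g 1
      have g2 := g 2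
      have g3 := g 3
      have g4 := g 4
      have g5 := g 5
      have g6 := g 6
      have g7 := g 7
      have g8 := g 8
      have g9 := g 9
      have g10 := g 10
      have g11 : s = s' := g 11
      have g12 : y = y' := g 12
      have g13 : w = w' := g 13
      have e1 : k = k' := Ctx.ext g0 g1 g2 g3 g4 g5 g6
      have e2 : a = a' := Ac.ext g7 g8 g9 g10 h1
      rw [e1, e2, g11, g12, g13]
    | P _ _ => exact absurd (congrArg Prod.fst h) (by simp [Z.code])
    | E _ _ _ _ _ _ => exact absurd (congrArg Prod.fst h) (by simp [Z.code])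
    | H _ => exact absurd (congrArg Prod.fst h) (by simp [Z.code])
  | E k a s y w u =>
    cases z' with
    | E k' a' s' y' w' u' =>
      simp only [Z.code, Prod.mk.injEq, true_and] at h
      obtain ⟨h1, h2⟩ := h
      have g := fun i => congrFun h2 i
      have g0 := g 0
      have g1 := g 1
      have g2 := g 2
      have g3 := g 3
      have g4 := g 4
      have g5 := g 5
      have g6 := g 6
      have g7 := g 7
      have g8 := g 8
      have g9 := g 9
      have g10 := g 10
      have g11 : s = s' := g 11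
      have g12 : y = y' := g 12
      have g13 : w = w' := g 13
      have g14 : u = u' := g 14
      have e1 : k = k' := Ctx.ext g0 g1 g2 g3 g4 g5 g6
      have e2 : a = a' := Ac.ext g7 g8 g9 g10 h1
      rw [e1, e2, g11, g12, g13, g14]
    | P _ _ => exact absurd (congrArg Prod.fst h) (by simp [Z.code])
    | G _ _ _ _ _ => exact absurd (congrArg Prod.fst h) (by simp [Z.code])
    | H _ => exact absurd (congrArg Prod.fst h) (by simp [Z.code])
  | H b =>
    cases z' with
    | H b' =>
      have : b = b' := congrArg (fun x => x.2.1) h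
      rw [this]
    | P _ _ => exact absurd (congrArg Prod.fst h) (by simp [Z.code])
    | G _ _ _ _ _ => exact absurd (congrArg Prod.fst h) (by simp [Z.code])
    | E _ _ _ _ _ _ => exact absurd (congrArg Prod.fst h) (by simp [Z.code])

theorem code_le {K : ℕ} {z : Z} (h : z.bdd K) (i : Fin 15) : z.code.2.2 i ≤ K := by
  cases z with
  | P k a =>
    obtain ⟨⟨h0, h1, h2, h3, h4, h5, h6⟩, h7, h8, h9, h10⟩ := h
    fin_cases i <;> first | assumption | exact Nat.zero_le _
  | G k a s y w =>
    obtain ⟨⟨h0, h1, h2, h3, h4, h5, h6⟩, ⟨h7, h8, h9, h10⟩, h11, h12, h13⟩ := h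
    fin_cases i <;> first | assumption | exact Nat.zero_le _
  | E k a s y w u =>
    obtain ⟨⟨h0, h1, h2, h3, h4, h5, h6⟩, ⟨h7, h8, h9, h10⟩, h11, h12, h13, h14⟩ := h
    fin_cases i <;> assumption
  | H b => exact Nat.zero_le _

/-- The registers of a bounded state. -/
def zcode (K : ℕ) (z : ZB K) : Fin 4 × Bool × (Fin 15 → Fin (K + 1)) :=
  (z.1.code.1, z.1.code.2.1, fun i => ⟨z.1.code.2.2 i, Nat.lt_succ_of_le (code_le z.2 i)⟩)

theorem zcode_inj (K : ℕ) : Function.Injective (zcode K) := by
  intro z z' h
  simp only [zcode, Prod.mk.injEq] at h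
  obtain ⟨h1, h2, h3⟩ := h
  apply Subtype.ext
  apply code_inj
  refine Prod.ext h1 (Prod.ext h2 ?_)
  funext i
  exact congrArg Fin.val (congrFun h3 i)

instance (K : ℕ) : Finite (ZB K) := Finite.of_injective _ (zcode_inj K)

theorem card_ZB (K : ℕ) : Nat.card (ZB K) ≤ 8 * (K + 1) ^ 15 := by
  have h := Nat.card_le_card_of_injective _ (zcode_inj K)
  refine h.trans (le_of_eq ?_)
  rw [Nat.card_prod, Nat.card_prod]
  simp only [Nat.card_eq_fintype_card, Fintype.card_fin, Fintype.card_bool, Fintype.card_fun]
  ring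

def pcode {B : ℕ} : Par B → Option Bool × Fin B
  | .bit k => (none, k)
  | .fin f k => (some f, k)

theorem pcode_inj {B : ℕ} : Function.Injective (pcode (B := B)) := by
  intro p p' h
  cases p <;> cases p' <;> simp_all [pcode]

instance (B : ℕ) : Finite (Par B) := Finite.of_injective _ pcode_inj

theorem card_Par (B : ℕ) : Nat.card (Par B) ≤ 3 * B := by
  have h := Nat.card_le_card_of_injective _ (pcode_inj (B := B))
  refine h.trans (le_of_eq ?_)
  rw [Nat.card_prod, Finite.card_option]
  simp

def qcode {B K : ℕ} : QS B K → (Bool × Fin B × Bool) ⊕ (Par B × ZB K × Fin (2 * B + 1)) ⊕ Bool ⊕ Bool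
  | .en f k b => .inl (f, k, b)
  | .ex p z r => .inr (.inl (p, z, r))
  | .vd b => .inr (.inr (.inl b))
  | .ac b => .inr (.inr (.inr b))

theorem qcode_inj {B K : ℕ} : Function.Injective (qcode (B := B) (K := K)) := by
  intro p p' h
  cases p <;> cases p' <;> simp_all [qcode]

instance (B K : ℕ) : Finite (QS B K) := Finite.of_injective _ qcode_inj

theorem card_QS (B K : ℕ) :
    Nat.card (QS B K) ≤ 4 * B + 4 + 3 * B * (8 * (K + 1) ^ 15) * (2 * B + 1) := by
  have h := Nat.card_le_card_of_injective _ (qcode_inj (B := B) (K := K))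
  refine h.trans ?_
  rw [Nat.card_sum, Nat.card_sum, Nat.card_sum, Nat.card_prod, Nat.card_prod, Nat.card_prod,
    Nat.card_prod]
  have h1 := card_Par B
  have h2 := card_ZB K
  simp only [Nat.card_eq_fintype_card, Fintype.card_fin, Fintype.card_bool] at *
  have h3 : Nat.card (Par B) * (Nat.card (ZB K) * (2 * B + 1)) ≤
      3 * B * (8 * (K + 1) ^ 15) * (2 * B + 1) := by
    rw [← Nat.mul_assoc]
    exact Nat.mul_le_mul_right _ (Nat.mul_le_mul h1 h2)
  omega

end Pool.Agent.H720.UV
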