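import Mathlib
import Pool.Agent.H720.UV.Card
import Pool.Graph.R_seed8.H630R2.LA.Det

set_option autoImplicit false

/-!
Excursions of the machine into the visited part of the tape.
-/

namespace Pool.Agent.H720.UV

open Relation Pool.Agent.H630R2.LA

section nx

variable {A : Type} {M : LimAut A} {strict : Prop}

open Classical in
/-- The configuration after a move. -/
noncomputable def nx (c : Cfg M) (q : M.Q) (b : M.W) (d : Bool) : Cfg M :=
  ⟨q, if d = true then c.pos + 1 else c.pos - 1,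
    if c.pos ∈ c.seen then c.tape else Function.update c.tape c.pos ((c.tape c.pos).rewrite b),
    insert c.pos c.seen⟩

theorem step_iff {n : ℕ} {c c' : Cfg M} : Step strict n c c' ↔ c.pos ≤ n + 1 ∧
    ∃ q b d, (q, b, d) ∈ M.δ c.state (c.tape c.pos) ∧
      (strict → c.pos ∈ c.seen → (c.tape c.pos).rewrite b = c.tape c.pos) ∧
      (d = false → 1 ≤ c.pos) ∧ c' = nx c q b d := by
  classical
  constructor
  · rintro ⟨h0, q, b, d, h1, h2, h3, h4, h5, h6, h7, h8⟩
    refine ⟨h0, q, b, d, h1, h2, fun hd => ?_, ?_⟩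
    · have := h8 hd; omega
    · obtain ⟨st, pos, tape, seen⟩ := c'
      unfold nx
      simp only at h3 h4 h5 h6 h7 h8
      subst h3 h6
      congr 1
      · cases d
        · have := h8 rfl
          simp only [Bool.false_eq_true, if_false]
          omega
        · have := h7 rfl
          simp only [if_true]
          exact this
      · by_cases hs : c.pos ∈ c.seen
        · rw [if_pos hs]; exact h4 hs
        · rw [if_neg hs]; exact h5 hs
  · rintro ⟨h0, q, b, d, h1, h2, h3, rfl⟩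
    refine ⟨h0, q, b, d, h1, h2, rfl, ?_, ?_, rfl, ?_, ?_⟩
    · intro hs
      show (if c.pos ∈ c.seen then _ else _) = _
      rw [if_pos hs]
    · intro hs
      show (if c.pos ∈ c.seen then _ else _) = _
      rw [if_neg hs]
    · rintro rfl; rfl
    · rintro rfl
      show (c.pos - 1) + 1 = c.pos
      have := h3 rfl
      omega

/-- The tape is `τ` and the cells `1..g` have been visited. -/
structure Zone (τ : ℕ → Sym M.W) (g : ℕ) (c : Cfg M) : Prop where
  tape : c.tape = τ
  lm : τ 0 = .lm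
  seen : ∀ i, 1 ≤ i → (i ∈ c.seen ↔ i ≤ g)

theorem Zone.nx {τ : ℕ → Sym M.W} {g : ℕ} {c : Cfg M} (h : Zone τ g c) (hp : c.pos ≤ g) (q : M.Q)
    (b : M.W) (d : Bool) : Zone τ g (nx c q b d) := by
  classical
  refine ⟨?_, h.lm, ?_⟩
  · show (if c.pos ∈ c.seen then c.tape else _) = τ
    by_cases hs : c.pos ∈ c.seen
    · rw [if_pos hs]; exact h.tape
    · rw [if_neg hs]
      have h0 : c.pos = 0 := by
        by_contra hne
        exact hs ((h.seen c.pos (by omega)).2 hp)
      rw [h.tape, h0, h.lm]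
      funext i
      by_cases hi : i = 0
      · subst hi
        rw [Function.update_self, h.lm]
        rfl
      · rw [Function.update_of_ne hi]
  · intro i hi
    show i ∈ insert c.pos c.seen ↔ _
    rw [Set.mem_insert_iff, h.seen i hi]
    constructor
    · rintro (rfl | h')
      · exact hp
      · exact h'
    · exact fun h' => Or.inr h'

end nx

/-- The parameters of the machine. -/
structure Prm (A : Type) where
  B : ℕ
  K : ℕ
  hB : 0 < B
  hK : 1 ≤ K
  rel : A → ℕ → ℕ → Bool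
  p0 : ℕ
  facc : ℕ → Bool
  wt : ℕ → ℕ → ℕ → ℕ

/-- The machine. -/
def Prm.M {A : Type} [Finite A] (P : Prm A) : LimAut A where
  Q := QS P.B P.K
  W := WS A
  finQ := inferInstance
  finW := finite_WS A
  inp := .raw
  inp_inj := by intro a b h; injection h
  δ := fun q σ => {x | Dl P.B P.K P.hK P.rel P.p0 P.facc P.wt q σ x.1 x.2.1 x.2.2}
  q0 := .en true ⟨0, P.hB⟩ (decide (0 = P.p0))
  F := {.ac true}

section exc

variable {A : Type} [Finite A] {P : Prm A} {strict : Prop} {n : ℕ}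

/-- Configurations behind the right end-marker with an answer. -/
def HF (P : Prm A) (n : ℕ) (c : Cfg P.M) : Prop := c.pos = n + 2 ∧ ∃ b, c.state = QS.ac b

/-- The steps of the procedure on bounded states. -/
def RS (P : Prm A) (p : Par P.B) (F : ℕ → ℕ → ℕ → Bool) (z z' : ZB P.K) : Prop :=
  Stp P.B (p.T + 1) P.wt z.1 (F z.1.qry.1 z.1.qry.2.1 z.1.qry.2.2) z'.1

def HS (P : Prm A) (z : ZB P.K) : Prop := HH z.1

/-- The graph given by the tape. -/
def env (P : Prm A) (p : Par P.B) (base : ℕ) (τ : ℕ → Sym (WS A)) (t u v : ℕ) : Bool :=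
  p.ans P.rel P.p0 P.facc (t, u, v) (τ (base + p.adr (t, u, v)))

/-- The configuration of an excursion. -/
structure At (P : Prm A) (τ : ℕ → Sym (WS A)) (g base : ℕ) (p : Par P.B) (z : ZB P.K) (r : ℕ)
    (c : Cfg P.M) : Prop where
  zone : Zone (M := P.M) τ g c
  hr : r < p.Fr
  st : ∃ h : r < 2 * P.B + 1, c.state = QS.ex p z ⟨r, h⟩
  pos : c.pos = base + r

theorem ex_tr {τ : ℕ → Sym (WS A)} {g base : ℕ} {p : Par P.B} (hg : base + p.Fr ≤ g + 1)
    {c y : Cfg P.M} {l : List (Cfg P.M)} (ht : Tr (Step strict n) (HF P n) c l y) :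
    ∀ (z : ZB P.K) (r : ℕ), At P τ g base p z r c →
      ∃ l' y', Tr (RS P p (env P p base τ)) (HS P) z l' y' := by
  induction ht with
  | halt c h =>
    intro z r hA
    obtain ⟨_, b, hb⟩ := h
    obtain ⟨_, hst⟩ := hA.st
    rw [hst] at hb
    cases hb
  | step c c' l y h t ih =>
    intro z r hA
    by_cases hz : HH z.1
    · exact ⟨[], z, Tr.halt z hz⟩
    obtain ⟨hr2, hst⟩ := hA.st
    have hr := hA.hr
    have hpos := hA.pos
    obtain ⟨h0, q, b, d, h1, h2, h3, rfl⟩ := step_iff.1 h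
    have hz' : Zone (M := P.M) τ g (nx c q b d) := hA.zone.nx (by omega) q b d
    have h4 : Dl P.B P.K P.hK P.rel P.p0 P.facc P.wt c.state (c.tape c.pos) q b d := h1
    rw [hst] at h4
    generalize hσ : c.tape c.pos = σ at h4
    cases h4 with
    | right _ _ _ r' _ g1 g2 g3 g4 =>
      simp only at g4
      refine ih z (r + 1) ⟨hz', g3, ⟨by omega, ?_⟩, ?_⟩
      · show QS.ex p z r' = _
        congr 1
        exact Fin.ext g4
      · show c.pos + 1 = _
        omega
    | left _ _ _ r' _ g1 g2 g4 =>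
      simp only at g4
      refine ih z (r - 1) ⟨hz', by omega, ⟨by omega, ?_⟩, ?_⟩
      · show QS.ex p z r' = _
        congr 1
        apply Fin.ext
        simp only
        omega
      · show c.pos - 1 = _
        omega
    | read _ _ z' _ r' _ g1 g2 g4 g5 =>
      simp only at g4 g2
      obtain ⟨l', y', h5⟩ := ih z' (r - 1) ⟨hz', by omega, ⟨by omega, by
        show QS.ex p z' r' = _
        congr 1
        apply Fin.ext
        simp only
        omega⟩, by
        show c.pos - 1 = _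
        omega⟩
      refine ⟨_, _, Tr.step z z' l' y' ?_ h5⟩
      unfold RS env
      have e : c.tape c.pos = τ (base + p.adr z.1.qry) := by
        rw [hA.zone.tape, hpos, g2]
      rw [e] at hσ
      rw [← hσ] at g5
      exact g5
    | ret1 _ _ _ _ _ g1 _ _ => exact absurd g1 hz
    | ret2 _ _ _ _ b g1 _ => exact absurd ⟨b, g1⟩ hz
    | ret3 _ _ _ _ _ b g1 _ => exact absurd ⟨b, g1⟩ hz

theorem ex_dead {τ : ℕ → Sym (WS A)} {g base : ℕ} {p : Par P.B} (hg : base + p.Fr ≤ g + 1)
    {c : Cfg P.M} {z : ZB P.K} {r : ℕ} (hA : At P τ g base p z r c)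
    (hd : Dead (RS P p (env P p base τ)) (HS P) z) : Dead (Step strict n) (HF P n) c := by
  intro l y ht
  obtain ⟨l', y', h⟩ := ex_tr hg ht z r hA
  exact hd _ _ h

theorem At.not_HF {τ : ℕ → Sym (WS A)} {g base : ℕ} {p : Par P.B} {c : Cfg P.M} {z : ZB P.K}
    {r : ℕ} (hA : At P τ g base p z r c) : ¬ HF P n c := by
  rintro ⟨_, b, hb⟩
  obtain ⟨_, hst⟩ := hA.st
  rw [hst] at hb
  cases hb

/-- Moving to the cell that is read. -/
theorem ex_move {τ : ℕ → Sym (WS A)} {g base : ℕ} {p : Par P.B} (hg : base + p.Fr ≤ g + 1)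
    (hgn : g ≤ n + 1) (hp : 2 ≤ p.Fr) {z : ZB P.K} (hz : ¬ HH z.1) (N : ℕ) :
    ∀ (r : ℕ) (c : Cfg P.M), At P τ g base p z r c →
      (p.adr z.1.qry - r) + (r - p.adr z.1.qry) ≤ N →
      ∃ c', At P τ g base p z (p.adr z.1.qry) c' ∧
        ReflTransGen (Dt (Step strict n) (HF P n)) c c' := by
  induction N with
  | zero =>
    intro r c hA hN
    have : r = p.adr z.1.qry := by omega
    exact ⟨c, this ▸ hA, ReflTransGen.refl⟩
  | succ N ih =>
    intro r c hA hN
    have hadr := p.adr_lt hp z.1.qry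
    obtain ⟨hr2, hst⟩ := hA.st
    have hr := hA.hr
    have hpos := hA.pos
    have hFr := p.Fr_le
    rcases lt_trichotomy r (p.adr z.1.qry) with h1 | h1 | h1
    · -- move right
      have hr3 : r + 1 < 2 * P.B + 1 := by omega
      have hA' : At P τ g base p z (r + 1) (nx c (QS.ex p z ⟨r + 1, hr3⟩ : P.M.Q)
          (wr (c.tape c.pos)) true) :=
        ⟨hA.zone.nx (by omega) _ _ _, by omega, ⟨hr3, rfl⟩, by
          show c.pos + 1 = _
          omega⟩
      obtain ⟨c', h2, h3⟩ := ih (r + 1) _ hA' (by omega)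
      refine ⟨c', h2, ReflTransGen.head ?_ h3⟩
      refine Dt.single hA.not_HF (step_iff.2 ⟨by omega, _, _, _, ?_, fun _ _ => rewrite_wr _, 
        by simp, rfl⟩) ?_
      · show Dl P.B P.K P.hK P.rel P.p0 P.facc P.wt c.state (c.tape c.pos) _ _ _
        rw [hst]
        exact Dl.right _ _ _ _ _ hz h1 (by simp only; omega) rfl
      · intro c'' hc''
        obtain ⟨_, q, b, d, h4, _, _, rfl⟩ := step_iff.1 hc''
        have h5 : Dl P.B P.K P.hK P.rel P.p0 P.facc P.wt c.state (c.tape c.pos) q b d := h4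
        rw [hst] at h5
        generalize hσ : c.tape c.pos = σ at h5
        cases h5 with
        | right _ _ _ r' _ g1 g2 g3 g4 =>
          have : r' = ⟨r + 1, hr3⟩ := Fin.ext g4
          rw [this]
        | left _ _ _ r' _ g1 g2 g4 => simp only at g2; omega
        | read _ _ z' _ r' _ g1 g2 g4 g5 => simp only at g2; omega
        | ret1 _ _ _ _ _ g1 _ _ => exact absurd g1 hz
        | ret2 _ _ _ _ b g1 _ => exact absurd ⟨b, g1⟩ hz
        | ret3 _ _ _ _ _ b g1 _ => exact absurd ⟨b, g1⟩ hz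
    · exact ⟨c, h1 ▸ hA, ReflTransGen.refl⟩
    · -- move left
      have hr3 : r - 1 < 2 * P.B + 1 := by omega
      have hA' : At P τ g base p z (r - 1) (nx c (QS.ex p z ⟨r - 1, hr3⟩ : P.M.Q)
          (wr (c.tape c.pos)) false) :=
        ⟨hA.zone.nx (by omega) _ _ _, by omega, ⟨hr3, rfl⟩, by
          show c.pos - 1 = _
          omega⟩
      obtain ⟨c', h2, h3⟩ := ih (r - 1) _ hA' (by omega)
      refine ⟨c', h2, ReflTransGen.head ?_ h3⟩
      refine Dt.single hA.not_HF (step_iff.2 ⟨by omega, _, _, _, ?_, fun _ _ => rewrite_wr _, 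
        fun _ => by omega, rfl⟩) ?_
      · show Dl P.B P.K P.hK P.rel P.p0 P.facc P.wt c.state (c.tape c.pos) _ _ _
        rw [hst]
        exact Dl.left _ _ _ _ _ hz h1 (by simp only; omega)
      · intro c'' hc''
        obtain ⟨_, q, b, d, h4, _, _, rfl⟩ := step_iff.1 hc''
        have h5 : Dl P.B P.K P.hK P.rel P.p0 P.facc P.wt c.state (c.tape c.pos) q b d := h4
        rw [hst] at h5
        generalize hσ : c.tape c.pos = σ at h5
        cases h5 with
        | right _ _ _ r' _ g1 g2 g3 g4 => simp only at g2; omega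
        | left _ _ _ r' _ g1 g2 g4 =>
          have : r' = ⟨r - 1, hr3⟩ := Fin.ext (by simp only at g4 ⊢; omega)
          rw [this]
        | read _ _ z' _ r' _ g1 g2 g4 g5 => simp only at g2; omega
        | ret1 _ _ _ _ _ g1 _ _ => exact absurd g1 hz
        | ret2 _ _ _ _ b g1 _ => exact absurd ⟨b, g1⟩ hz
        | ret3 _ _ _ _ _ b g1 _ => exact absurd ⟨b, g1⟩ hz

/-- One step of the procedure. -/
theorem ex_dt {τ : ℕ → Sym (WS A)} {g base : ℕ} {p : Par P.B} (hg : base + p.Fr ≤ g + 1)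
    (hgn : g ≤ n + 1) (hp : 2 ≤ p.Fr) {z z' : ZB P.K} {r : ℕ} {c : Cfg P.M}
    (hA : At P τ g base p z r c) (hd : Dt (RS P p (env P p base τ)) (HS P) z z') :
    ∃ r' c', At P τ g base p z' r' c' ∧ ReflTransGen (Dt (Step strict n) (HF P n)) c c' := by
  obtain ⟨hz, hs, hu⟩ := hd
  obtain ⟨c1, hA1, h1⟩ := ex_move (strict := strict) hg hgn hp hz _ r c hA le_rfl
  obtain ⟨hr2, hst⟩ := hA1.st
  have hr := hA1.hr
  have hpos := hA1.pos
  have hFr := p.Fr_le
  have hadr := p.adr_pos z.1.qry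
  set r := p.adr z.1.qry with hrdef
  have hr3 : r - 1 < 2 * P.B + 1 := by omega
  have hσ : c1.tape c1.pos = τ (base + r) := by rw [hA1.zone.tape, hpos]
  have hA' : ∀ z'' : ZB P.K, At P τ g base p z'' (r - 1) (nx c1 (QS.ex p z'' ⟨r - 1, hr3⟩ : P.M.Q)
      (wr (c1.tape c1.pos)) false) := fun z'' =>
    ⟨hA1.zone.nx (by omega) _ _ _, by omega, ⟨hr3, rfl⟩, by
      show c1.pos - 1 = _
      omega⟩
  refine ⟨r - 1, _, hA' z', h1.tail ⟨hA1.not_HF, step_iff.2 ⟨by omega, _, _, _, ?_,
    fun _ _ => rewrite_wr _, fun _ => by omega, rfl⟩, ?_⟩⟩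
  · show Dl P.B P.K P.hK P.rel P.p0 P.facc P.wt c1.state (c1.tape c1.pos) _ _ _
    rw [hst, hσ]
    exact Dl.read _ _ _ _ _ _ hz rfl (by simp only; omega) hs
  · intro c'' hc''
    obtain ⟨_, q, b, d, h4, _, _, rfl⟩ := step_iff.1 hc''
    have h5 : Dl P.B P.K P.hK P.rel P.p0 P.facc P.wt c1.state (c1.tape c1.pos) q b d := h4
    rw [hst] at h5
    generalize hσ' : c1.tape c1.pos = σ at h5
    cases h5 with
    | right _ _ _ r' _ g1 g2 g3 g4 => simp only at g2; omega
    | left _ _ _ r' _ g1 g2 g4 => simp only at g2; omega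
    | read _ _ z'' _ r' _ g1 g2 g4 g5 =>
      have e1 : r' = ⟨r - 1, hr3⟩ := Fin.ext (by simp only at g4 ⊢; omega)
      rw [e1, ← hσ']
      have h6 : RS P p (env P p base τ) z z'' := by
        unfold RS env
        rw [← hσ', hσ] at g5
        exact g5
      rcases hu z'' h6 with h7 | h7
      · left; rw [h7]
      · right; exact ex_dead hg (hA' z'') h7
    | ret1 _ _ _ _ _ g1 _ _ => exact absurd g1 hz
    | ret2 _ _ _ _ b g1 _ => exact absurd ⟨b, g1⟩ hz
    | ret3 _ _ _ _ _ b g1 _ => exact absurd ⟨b, g1⟩ hz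

theorem ex_dts {τ : ℕ → Sym (WS A)} {g base : ℕ} {p : Par P.B} (hg : base + p.Fr ≤ g + 1)
    (hgn : g ≤ n + 1) (hp : 2 ≤ p.Fr) {z z' : ZB P.K} {r : ℕ} {c : Cfg P.M}
    (hA : At P τ g base p z r c)
    (hd : ReflTransGen (Dt (RS P p (env P p base τ)) (HS P)) z z') :
    ∃ r' c', At P τ g base p z' r' c' ∧ ReflTransGen (Dt (Step strict n) (HF P n)) c c' := by
  induction hd with
  | refl => exact ⟨r, c, hA, ReflTransGen.refl⟩
  | tail _ h ih =>
    obtain ⟨r1, c1, hA1, h1⟩ := ih
    obtain ⟨r2, c2, hA2, h2⟩ := ex_dt (strict := strict) hg hgn hp hA1 h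
    exact ⟨r2, c2, hA2, h1.trans h2⟩

/-- The state after an excursion. -/
def Par.exit {K : ℕ} {B : ℕ} : Par B → Bool → QS B K
  | .bit k, b => .en false k b
  | .fin _ _, b => .vd b

/-- The way back. -/
theorem ex_ret {τ : ℕ → Sym (WS A)} {g base : ℕ} {p : Par P.B} (hg : base + p.Fr ≤ g + 1)
    (hgn : g ≤ n + 1) {z : ZB P.K} {b : Bool} (hz : z.1 = .H b) (N : ℕ) :
    ∀ (r : ℕ) (c : Cfg P.M), At P τ g base p z r c → p.Fr - r ≤ N →
      ∃ c' : Cfg P.M, Zone (M := P.M) τ g c' ∧ c'.pos = base + p.Fr ∧ c'.state = p.exit b ∧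
        ReflTransGen (Dt (Step strict n) (HF P n)) c c' := by
  induction N with
  | zero =>
    intro r c hA hN
    have := hA.hr
    omega
  | succ N ih =>
    intro r c hA hN
    obtain ⟨hr2, hst⟩ := hA.st
    have hr := hA.hr
    have hpos := hA.pos
    have hFr := p.Fr_le
    have hzh : HH z.1 := ⟨b, hz⟩
    by_cases h1 : r + 1 < p.Fr
    · have hr3 : r + 1 < 2 * P.B + 1 := by omega
      have hA' : At P τ g base p z (r + 1) (nx c (QS.ex p z ⟨r + 1, hr3⟩ : P.M.Q)
          (wr (c.tape c.pos)) true) :=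
        ⟨hA.zone.nx (by omega) _ _ _, by omega, ⟨hr3, rfl⟩, by
          show c.pos + 1 = _
          omega⟩
      obtain ⟨c', h2, h3, h4, h5⟩ := ih (r + 1) _ hA' (by omega)
      refine ⟨c', h2, h3, h4, ReflTransGen.head ?_ h5⟩
      refine Dt.single hA.not_HF (step_iff.2 ⟨by omega, _, _, _, ?_, fun _ _ => rewrite_wr _, 
        by simp, rfl⟩) ?_
      · show Dl P.B P.K P.hK P.rel P.p0 P.facc P.wt c.state (c.tape c.pos) _ _ _
        rw [hst]
        exact Dl.ret1 _ _ _ _ _ hzh h1 rfl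
      · intro c'' hc''
        obtain ⟨_, q, b', d, h4, _, _, rfl⟩ := step_iff.1 hc''
        have h5 : Dl P.B P.K P.hK P.rel P.p0 P.facc P.wt c.state (c.tape c.pos) q b' d := h4
        rw [hst] at h5
        generalize hσ : c.tape c.pos = σ at h5
        cases h5 with
        | right _ _ _ r' _ g1 g2 g3 g4 => exact absurd hzh g1
        | left _ _ _ r' _ g1 g2 g4 => exact absurd hzh g1
        | read _ _ z' _ r' _ g1 g2 g4 g5 => exact absurd hzh g1
        | ret1 _ _ _ r' _ g1 g2 g3 =>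
          have : r' = ⟨r + 1, hr3⟩ := Fin.ext g3
          rw [this]
        | ret2 _ _ _ _ b g1 g2 => simp only at g2; omega
        | ret3 _ _ _ _ _ b g1 g2 => simp only at g2; omega
    · have h2 : r + 1 = p.Fr := by omega
      refine ⟨nx c (p.exit b : QS P.B P.K) (wr (c.tape c.pos)) true, hA.zone.nx (by omega) _ _ _, ?_, rfl,
        ReflTransGen.single (Dt.single hA.not_HF (step_iff.2 ⟨by omega, _, _, _, ?_,
          fun _ _ => rewrite_wr _, by simp, rfl⟩) ?_)⟩
      · show c.pos + 1 = _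
        omega
      · show Dl P.B P.K P.hK P.rel P.p0 P.facc P.wt c.state (c.tape c.pos) _ _ _
        rw [hst]
        cases p with
        | bit k => exact Dl.ret2 _ _ _ _ _ hz h2
        | fin f k => exact Dl.ret3 _ _ _ _ _ _ hz h2
      · intro c'' hc''
        obtain ⟨_, q, b', d, h4, _, _, rfl⟩ := step_iff.1 hc''
        have h5 : Dl P.B P.K P.hK P.rel P.p0 P.facc P.wt c.state (c.tape c.pos) q b' d := h4
        rw [hst] at h5
        generalize hσ : c.tape c.pos = σ at h5
        cases h5 with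
        | right _ _ _ r' _ g1 g2 g3 g4 => exact absurd hzh g1
        | left _ _ _ r' _ g1 g2 g4 => exact absurd hzh g1
        | read _ _ z' _ r' _ g1 g2 g4 g5 => exact absurd hzh g1
        | ret1 _ _ _ r' _ g1 g2 g3 => simp only at g2; omega
        | ret2 _ _ _ _ b2 g1 g2 =>
          rw [hz] at g1
          cases g1
          rfl
        | ret3 _ _ _ _ _ b2 g1 g2 =>
          rw [hz] at g1
          cases g1
          rfl

/-- A whole excursion. -/
theorem excursion {τ : ℕ → Sym (WS A)} {g base : ℕ} {p : Par P.B} (hg : base + p.Fr ≤ g + 1)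
    (hgn : g ≤ n + 1) (hp : 2 ≤ p.Fr) {z z' : ZB P.K} {r : ℕ} {c : Cfg P.M} {b : Bool}
    (hA : At P τ g base p z r c)
    (hd : ReflTransGen (Dt (RS P p (env P p base τ)) (HS P)) z z') (hz : z'.1 = .H b) :
    ∃ c' : Cfg P.M, Zone (M := P.M) τ g c' ∧ c'.pos = base + p.Fr ∧ c'.state = p.exit b ∧
      ReflTransGen (Dt (Step strict n) (HF P n)) c c' := by
  obtain ⟨r', c1, h1, h2⟩ := ex_dts (strict := strict) hg hgn hp hA hd
  obtain ⟨c2, h3, h4, h5, h6⟩ := ex_ret (strict := strict) hg hgn hz _ r' c1 h1 le_rfl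
  exact ⟨c2, h3, h4, h5, h2.trans h6⟩

end exc

/-- From the procedure to bounded states. -/
theorem to_RS {A : Type} [Finite A] {P : Prm A} {p : Par P.B} {F : ℕ → ℕ → ℕ → Bool} {z z' : Z}
    (h : ReflTransGen (Dt (RR P.B (p.T + 1) P.K P.wt F) HH) z z') (hz : z.bdd P.K) :
    ∃ hz' : z'.bdd P.K, ReflTransGen (Dt (RS P p F) (HS P)) ⟨z, hz⟩ ⟨z', hz'⟩ := by
  have htr : ∀ (x : ZB P.K) (l : List (ZB P.K)) (y : ZB P.K), Tr (RS P p F) (HS P) x l y →
      Tr (RR P.B (p.T + 1) P.K P.wt F) HH x.1 (l.map Subtype.val) y.1 := by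
    intro x l y h
    induction h with
    | halt x h => exact Tr.halt _ h
    | step x y l z h1 _ ih => exact Tr.step _ _ _ _ ⟨h1, y.2⟩ ih
  induction h with
  | refl => exact ⟨hz, ReflTransGen.refl⟩
  | tail _ h ih =>
    obtain ⟨h1, h2⟩ := ih
    obtain ⟨g1, ⟨g2, g3⟩, g4⟩ := h
    refine ⟨g3, h2.tail ⟨g1, g2, ?_⟩⟩
    intro x hx
    rcases g4 x.1 ⟨hx, x.2⟩ with h5 | h5
    · left; exact Subtype.ext h5
    · right
      intro l y ht
      exact h5 _ _ (htr _ _ _ ht)

end Pool.Agent.H720.UV
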