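import Mathlib
import Pool.Agent.H720.UV.Exc

set_option autoImplicit false

/-!
The computation of the machine on a word.
-/

namespace Pool.Agent.H720.UV

open Relation Pool.Agent.H630R2.LA

/-- The states of the simulated automaton reached after `t` letters. -/
def nr {A : Type} (B : ℕ) (rel : A → ℕ → ℕ → Bool) (p0 : ℕ) (w : List A) : ℕ → ℕ → Prop
  | 0, v => v = p0
  | t + 1, v => v < B ∧ ∃ u, nr B rel p0 w t u ∧ ∃ a, w[t]? = some a ∧ rel a u v = true

theorem nr_lt {A : Type} {B : ℕ} {rel : A → ℕ → ℕ → Bool} {p0 : ℕ} {w : List A} (h0 : p0 < B)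
    {t v : ℕ} (h : nr B rel p0 w t v) : v < B := by
  cases t with
  | zero => have h' : v = p0 := h; omega
  | succ t => exact h.1

/-- The graph given by a set of states and a sequence of letters. -/
def Gr {A : Type} (B : ℕ) (rel : A → ℕ → ℕ → Bool) (S0 : ℕ → Bool) (ls : ℕ → Option A)
    (t u v : ℕ) : Bool :=
  if t = 0 then decide (u = 0) && (decide (v < B) && S0 v)
  else if t ≤ 2 * B then (match ls (t - 1) with
    | some a => rel a u v
    | none => false)
  else false

theorem good_congr {B L L' : ℕ} (hB : 0 < B) {F G : ℕ → ℕ → ℕ → Bool} {w : ℕ → ℕ → ℕ}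
    (h : ∀ s < L, ∀ u < B, ∀ v < B, F s u v = G s u v) (hL : L ≤ L') (hg : Good B G w L') :
    Good B F w L := by
  have key : ∀ s ≤ L, (∀ v, Rc B F s v ↔ Rc B G s v) ∧
      (∀ v < B, dd B F w s v = dd B G w s v) := by
    intro s
    induction s with
    | zero => intro _; exact ⟨fun v => Iff.rfl, fun v _ => rfl⟩
    | succ s ih =>
      intro hs
      obtain ⟨h1, h2⟩ := ih (by omega)
      have h3 : ∀ v, Rc B F (s + 1) v ↔ Rc B G (s + 1) v := by
        intro v
        constructor
        · rintro ⟨hv, u, hu, hF⟩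
          exact ⟨hv, u, (h1 u).1 hu, by rw [← h s (by omega) u (hu.lt hB) v hv]; exact hF⟩
        · rintro ⟨hv, u, hu, hF⟩
          exact ⟨hv, u, (h1 u).2 hu, by rw [h s (by omega) u (hu.lt hB) v hv]; exact hF⟩
      refine ⟨h3, fun v hv => ?_⟩
      rw [dd_succ, dd_succ]
      congr 1
      unfold mu
      congr 1
      ext d
      constructor
      · rintro ⟨u, hu, hF, hd⟩
        exact ⟨u, (h1 u).1 hu, by rw [← h s (by omega) u (hu.lt hB) v hv]; exact hF,
          by rw [← h2 u (hu.lt hB)]; exact hd⟩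
      · rintro ⟨u, hu, hF, hd⟩
        exact ⟨u, (h1 u).2 hu, by rw [h s (by omega) u (hu.lt hB) v hv]; exact hF,
          by rw [h2 u (hu.lt hB)]; exact hd⟩
  intro s hs v hv u u' g1 g2 g3 g4 g5 g6
  obtain ⟨k1, k2⟩ := key s hs.le
  have hmu : mu B F w s v = mu B G w s v := by
    have k3 := (key (s + 1) hs).2 v hv
    rw [dd_succ, dd_succ] at k3
    omega
  rw [hmu, k2 _ (g1.lt hB)] at g3
  rw [hmu, k2 _ (g4.lt hB)] at g6
  rw [h s hs u (g1.lt hB) v hv] at g2
  rw [h s hs u' (g4.lt hB) v hv] at g5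
  exact hg s (by omega) v hv u u' ((k1 u).1 g1) g2 g3 ((k1 u').1 g4) g5 g6

/-- The requirements for the parameters. -/
structure Prm.OK {A : Type} (P : Prm A) (m W : ℕ) : Prop where
  p0 : P.p0 < P.B
  bd : ∀ p : Par P.B, Bd P.B (p.T + 1) P.K W m P.wt
  wt : ∀ (S0 : ℕ → Bool) (ls : ℕ → Option A),
    ∃ j < m, Good P.B (Gr P.B P.rel S0 ls) (P.wt j) (2 * P.B + 1)

section top

variable {A : Type} [Finite A] {P : Prm A} {strict : Prop}

/-- The cells `1..f` are annotated, the others are unvisited. -/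
structure Ann (P : Prm A) (w : List A) (τ : ℕ → Sym (WS A)) (f : ℕ) : Prop where
  lm : τ 0 = .lm
  mark : ∀ i < f, ∃ a b, w[i]? = some a ∧ τ (i + 1) = .sym (.mark a b) ∧
    (b = true ↔ nr P.B P.rel P.p0 w (i / P.B * P.B) (i % P.B))
  rest : ∀ i, f ≤ i → τ (i + 1) = initTape P.M w (i + 1)

/-- The window is in the annotated part of the tape. -/
structure Win (P : Prm A) (p : Par P.B) (base f : ℕ) : Prop where
  fr : base + p.Fr = f + 1
  fs : p.fs = true → base = 0
  nfs : p.fs = false → ∃ i, base = i * P.B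

theorem env_zero {m W : ℕ} (hP : P.OK m W) {w : List A} {τ : ℕ → Sym (WS A)} {f : ℕ}
    (hA : Ann P w τ f) {p : Par P.B} {base : ℕ} (hw : Win P p base f) (u v : ℕ) :
    env P p base τ 0 u v = true ↔ u = 0 ∧ v < P.B ∧ nr P.B P.rel P.p0 w base v := by
  unfold env Par.ans Par.adr
  simp only [if_true]
  by_cases hfs : p.fs = true
  · simp only [hfs, if_true, Bool.and_eq_true, decide_eq_true_iff]
    rw [hw.fs hfs]
    constructor
    · rintro ⟨h1, h2⟩
      exact ⟨h1, by rw [h2]; exact hP.p0, h2⟩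
    · rintro ⟨h1, _, h2⟩
      exact ⟨h1, h2⟩
  · obtain ⟨i, hi⟩ := hw.nfs (by simpa using hfs)
    simp only [hfs]
    by_cases hv : v < P.B
    · have hF : P.B + 1 ≤ p.Fr := by
        cases p with
        | bit k => simp only [Par.Fr]; omega
        | fin f k =>
          simp only [Par.Fr, Par.fs] at *
          rw [if_neg hfs]
          omega
      have h1 := hw.fr
      obtain ⟨a, b, ha, hτ, hb⟩ := hA.mark (base + v) (by omega)
      have e : base + (1 + v) = base + v + 1 := by omega
      rw [hi] at hb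
      have e1 : (i * P.B + v) / P.B = i := by
        rw [Nat.mul_comm, Nat.mul_add_div P.hB, Nat.div_eq_of_lt hv, Nat.add_zero]
      have e2 : (i * P.B + v) % P.B = v := by
        rw [Nat.mul_comm, Nat.mul_add_mod, Nat.mod_eq_of_lt hv]
      rw [e1, e2, ← hi] at hb
      simp only [hv, if_true, decide_true, Bool.true_and, Bool.and_eq_true, decide_eq_true_iff,
        true_and, e, hτ, bitS, hb, Bool.false_eq_true, if_false]
    · simp [hv]

theorem env_pos {w : List A} {τ : ℕ → Sym (WS A)} {f : ℕ}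
    (hA : Ann P w τ f) {p : Par P.B} {base : ℕ} (hw : Win P p base f) {t : ℕ} (ht : t < p.T)
    (u v : ℕ) :
    env P p base τ (t + 1) u v = (match w[base + t]? with
      | some a => P.rel a u v
      | none => false) := by
  unfold env Par.ans Par.adr
  have h1 := p.T_lt_Fr
  have h2 := hw.fr
  obtain ⟨a, b, ha, hτ, hb⟩ := hA.mark (base + t) (by omega)
  simp only [Nat.add_eq_zero_iff, one_ne_zero, and_false, if_false]
  rw [if_pos (by omega), if_pos (by omega)]
  have e : base + (t + 1) = base + t + 1 := by omega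
  rw [e, hτ, ha]
  rfl

theorem env_goal {τ : ℕ → Sym (WS A)} {p : Par P.B} {base : ℕ} (u v : ℕ) :
    env P p base τ (p.T + 1) u v = p.goal P.facc u := by
  unfold env Par.ans Par.adr
  simp only [Nat.add_eq_zero_iff, one_ne_zero, and_false, if_false]
  rw [if_neg (by omega)]

theorem rc_env {m W : ℕ} (hP : P.OK m W) {w : List A} {τ : ℕ → Sym (WS A)} {f : ℕ}
    (hA : Ann P w τ f) {p : Par P.B} {base : ℕ} (hw : Win P p base f) (t : ℕ) (ht : t ≤ p.T) :
    ∀ v, Rc P.B (env P p base τ) (t + 1) v ↔ nr P.B P.rel P.p0 w (base + t) v := by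
  induction t with
  | zero =>
    intro v
    show (v < P.B ∧ ∃ u, u = 0 ∧ env P p base τ 0 u v = true) ↔ _
    constructor
    · rintro ⟨_, u, _, h⟩
      exact ((env_zero hP hA hw u v).1 h).2.2
    · intro h
      exact ⟨nr_lt hP.p0 h, 0, rfl, (env_zero hP hA hw 0 v).2 ⟨rfl, nr_lt hP.p0 h, h⟩⟩
  | succ t ih =>
    intro v
    have ih' := ih (by omega)
    show (v < P.B ∧ ∃ u, Rc P.B (env P p base τ) (t + 1) u ∧ env P p base τ (t + 1) u v = true) ↔
      (v < P.B ∧ ∃ u, nr P.B P.rel P.p0 w (base + t) u ∧ ∃ a, w[base + t]? = some a ∧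
        P.rel a u v = true)
    simp only [ih', env_pos hA hw (show t < p.T by omega)]
    have h1 := p.T_lt_Fr
    have h2 := hw.fr
    obtain ⟨a, b, ha, hτ, hb⟩ := hA.mark (base + t) (by omega)
    rw [ha]
    simp

/-- The excursion procedure gives the right answer. -/
theorem compute {m W : ℕ} (hP : P.OK m W) {w : List A} {τ : ℕ → Sym (WS A)} {f : ℕ}
    (hA : Ann P w τ f) {p : Par P.B} {base : ℕ} (hw : Win P p base f) :
    ∃ b : Bool, (b = true ↔ ∃ u, nr P.B P.rel P.p0 w (base + p.T) u ∧ p.goal P.facc u = true) ∧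
      ∃ z' : ZB P.K, z'.1 = .H b ∧
        ReflTransGen (Dt (RS P p (env P p base τ)) (HS P)) ⟨startZ 0, startZ_bdd P.hK⟩ z' := by
  classical
  obtain ⟨j, hj, hgood⟩ := hP.wt (fun v => decide (nr P.B P.rel P.p0 w base v))
    (fun i => w[base + i]?)
  have hT : p.T ≤ 2 * P.B := by have := p.T_lt; omega
  have hg : Good P.B (env P p base τ) (P.wt j) (p.T + 1) := by
    refine good_congr P.hB ?_ (by omega) hgood
    intro s hs u _ v _
    cases s with
    | zero =>
      rw [Bool.eq_iff_iff, env_zero hP hA hw]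
      unfold Gr
      simp only [if_true, Bool.and_eq_true, decide_eq_true_iff]
    | succ s =>
      rw [env_pos hA hw (by omega)]
      unfold Gr
      simp only [Nat.add_eq_zero_iff, one_ne_zero, and_false, if_false, Nat.add_sub_cancel]
      rw [if_pos (by omega)]
  obtain ⟨b, h1, h2⟩ := proc_correct (F := env P p base τ) (hP.bd p) ⟨j, hj, hg⟩
  obtain ⟨h3, h4⟩ := to_RS h2 (startZ_bdd P.hK)
  refine ⟨b, ?_, _, rfl, h4⟩
  rw [h1]
  simp only [rc_env hP hA hw p.T le_rfl, env_goal]

/-- The configurations in which the next cell is visited for the first time. -/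
structure Fro (P : Prm A) (w : List A) (f : ℕ) (c : Cfg P.M) : Prop where
  ex : ∃ (τ : ℕ → Sym (WS A)) (b : Bool) (h : f % P.B < P.B), Ann P w τ f ∧
    Zone (M := P.M) τ f c ∧ c.pos = f + 1 ∧
    c.state = QS.en (decide (f < P.B)) ⟨f % P.B, h⟩ b ∧
    (b = true ↔ nr P.B P.rel P.p0 w (f / P.B * P.B) (f % P.B))

theorem fro_init (w : List A) : Fro P w 0 (init P.M w) := by
  refine ⟨initTape P.M w, decide (0 = P.p0), Nat.mod_lt _ P.hB, ⟨rfl, fun i hi => by omega,
    fun i _ => rfl⟩, ⟨rfl, rfl, ?_⟩, rfl, ?_, ?_⟩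
  · intro i hi
    show i ∈ (∅ : Set ℕ) ↔ _
    simp only [Set.mem_empty_iff_false, false_iff]
    omega
  · show QS.en true ⟨0, P.hB⟩ (decide (0 = P.p0)) = _
    congr 1
    simp [P.hB]
  · simp only [decide_eq_true_iff, Nat.zero_mod, Nat.zero_div, Nat.zero_mul, nr]

theorem dl_en_rm {f : Bool} {k : Fin P.B} {b : Bool} {q : QS P.B P.K} {b' : WS A} {d : Bool}
    (h : Dl P.B P.K P.hK P.rel P.p0 P.facc P.wt (.en f k b) .rm q b' d)
    (hn : ¬ (f = true ∧ k.val = 0)) :
    q = .ex (.fin f k) ⟨startZ 0, startZ_bdd P.hK⟩ ⟨(Par.fin f k).T, (Par.fin f k).T_lt⟩ ∧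
      b' = .dum ∧ d = false := by
  cases h with
  | rm0 _ _ h6 => exact absurd ⟨rfl, h6⟩ hn
  | rm1 _ _ _ h6 => exact ⟨rfl, rfl, rfl⟩

/-- The zone after the first visit of a cell. -/
theorem zone_new {w : List A} {τ : ℕ → Sym (WS A)} {f : ℕ} {c : Cfg P.M}
    (hz : Zone (M := P.M) τ f c) (hp : c.pos = f + 1) (q : P.M.Q) (b : WS A) (d : Bool) :
    Zone (M := P.M) (Function.update τ (f + 1) ((τ (f + 1)).rewrite b)) (f + 1)
      (nx c q b d) := by
  classical
  have hns : c.pos ∉ c.seen := by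
    intro h
    have := (hz.seen c.pos (by omega)).1 h
    omega
  refine ⟨?_, ?_, ?_⟩
  · show (if c.pos ∈ c.seen then c.tape else _) = _
    rw [if_neg hns, hz.tape, hp]
    rfl
  · rw [Function.update_of_ne (by omega)]
    exact hz.lm
  · intro i hi
    show i ∈ insert c.pos c.seen ↔ _
    rw [Set.mem_insert_iff, hz.seen i hi, hp]
    omega

theorem nxk_val {B : ℕ} (hB : 0 < B) (f : ℕ) (h : f % B < B) :
    (nxk (⟨f % B, h⟩ : Fin B)).val = (f + 1) % B := by
  unfold nxk
  simp only
  split_ifs with h1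
  · rw [Nat.add_mod, Nat.mod_eq_of_lt (show 1 < B by omega), Nat.mod_eq_of_lt h1]
  · have : f % B + 1 = B := by omega
    simp only
    rw [Nat.add_mod]
    by_cases h2 : B = 1
    · subst h2; simp [Nat.mod_one]
    · rw [Nat.mod_eq_of_lt (show 1 < B by omega), this, Nat.mod_self]

theorem fro_step {m W : ℕ} (hP : P.OK m W) {w : List A} {f : ℕ} {c : Cfg P.M}
    (hc : Fro P w f c) (hf : f < w.length) :
    ∃ c', Fro P w (f + 1) c' ∧ ReflTransGen (Dt (Step strict w.length) (HF P w.length)) c c' := by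
  obtain ⟨τ, b, hk, hA, hZ, hpos, hst, hb⟩ := hc.ex
  have hB := P.hB
  have hcell : τ (f + 1) = .sym (.raw w[f]) := by
    rw [hA.rest f le_rfl]
    show (match w[f]? with
      | some a => Sym.sym (P.M.inp a)
      | none => .rm) = _
    rw [List.getElem?_eq_getElem hf]
    rfl
  have hnH : ¬ HF P w.length c := by
    rintro ⟨_, b', hb'⟩
    rw [hst] at hb'
    cases hb'
  have hnew : (τ (f + 1)).rewrite (.mark w[f] b) = .sym (.mark w[f] b) := by rw [hcell]; rfl
  set τ' : ℕ → Sym (WS A) := Function.update τ (f + 1) (.sym (.mark w[f] b)) with hτ'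
  have hA' : Ann P w τ' (f + 1) := by
    refine ⟨?_, ?_, ?_⟩
    · rw [hτ', Function.update_of_ne (by omega)]; exact hA.lm
    · intro i hi
      by_cases h1 : i = f
      · subst h1
        refine ⟨w[i], b, List.getElem?_eq_getElem hf, ?_, hb⟩
        rw [hτ', Function.update_self]
      · obtain ⟨a, b', h2, h3, h4⟩ := hA.mark i (by omega)
        refine ⟨a, b', h2, ?_, h4⟩
        rw [hτ', Function.update_of_ne (by omega)]
        exact h3
    · intro i hi
      rw [hτ', Function.update_of_ne (by omega)]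
      exact hA.rest i (by omega)
  have hns : c.pos ∉ c.seen := by
    intro h
    have := (hZ.seen c.pos (by omega)).1 h
    omega
  by_cases h1 : f + 1 < P.B
  · -- inside the first block
    have hmod : f % P.B = f := Nat.mod_eq_of_lt (by omega)
    have hdec : decide (f < P.B) = true := decide_eq_true (by omega)
    have hk1 : f % P.B + 1 < P.B := by omega
    refine ⟨nx c (QS.en true ⟨f % P.B + 1, hk1⟩ (decide (f % P.B + 1 = P.p0)) : P.M.Q)
      (.mark w[f] b) true, ?_, ReflTransGen.single (Dt.single hnH (step_iff.2 ⟨by omega, _, _, _,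
        ?_, fun _ h => absurd h hns, by simp, rfl⟩) ?_)⟩
    · refine ⟨τ', decide (f % P.B + 1 = P.p0), Nat.mod_lt _ hB, hA', ?_, ?_, ?_, ?_⟩
      · have := zone_new (w := w) hZ hpos (QS.en true ⟨f % P.B + 1, hk1⟩
          (decide (f % P.B + 1 = P.p0)) : P.M.Q) (.mark w[f] b) true
        rw [hnew] at this
        exact this
      · show c.pos + 1 = _
        omega
      · show QS.en true ⟨f % P.B + 1, hk1⟩ (decide (f % P.B + 1 = P.p0)) = _
        congr 1
        · rw [decide_eq_true h1]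
        · apply Fin.ext
          show f % P.B + 1 = (f + 1) % P.B
          rw [hmod, Nat.mod_eq_of_lt h1]
      · rw [decide_eq_true_iff, Nat.div_eq_of_lt h1, Nat.zero_mul, hmod, Nat.mod_eq_of_lt h1]
        exact Iff.rfl
    · show Dl P.B P.K P.hK P.rel P.p0 P.facc P.wt c.state (c.tape c.pos) _ _ _
      rw [hst, hZ.tape, hpos, hcell, hdec]
      exact Dl.raw1 _ _ _ _
    · intro c'' hc''
      obtain ⟨_, q, b', d, h4, _, _, rfl⟩ := step_iff.1 hc''
      have h5 : Dl P.B P.K P.hK P.rel P.p0 P.facc P.wt c.state (c.tape c.pos) q b' d := h4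
      rw [hst, hZ.tape, hpos, hcell, hdec] at h5
      cases h5 with
      | raw1 _ _ _ _ => rfl
      | raw2 _ _ _ _ h6 => exact absurd ⟨rfl, hk1⟩ h6
  · -- an excursion
    have hnot : ¬ (decide (f < P.B) = true ∧ (⟨f % P.B, hk⟩ : Fin P.B).val + 1 < P.B) := by
      rintro ⟨g1, g2⟩
      have g3 := of_decide_eq_true g1
      simp only at g2
      rw [Nat.mod_eq_of_lt g3] at g2
      exact h1 g2
    set k' := nxk (⟨f % P.B, hk⟩ : Fin P.B) with hk'
    have hk'v : k'.val = (f + 1) % P.B := nxk_val hB f hk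
    obtain ⟨i, hi⟩ : ∃ i, f + 1 = (i + 1) * P.B + k'.val := by
      have h2 := Nat.div_add_mod (f + 1) P.B
      have h3 : 1 ≤ (f + 1) / P.B := (Nat.one_le_div_iff hB).2 (by omega)
      refine ⟨(f + 1) / P.B - 1, ?_⟩
      rw [hk'v, Nat.sub_add_cancel h3, Nat.mul_comm]
      exact h2.symm
    have hi' : f + 1 = i * P.B + P.B + k'.val := by rw [hi]; ring
    have hr3 : P.B + k'.val - 1 < 2 * P.B + 1 := by have := k'.isLt; omega
    set q1 : P.M.Q := (QS.ex (.bit k') ⟨startZ 0, startZ_bdd P.hK⟩ ⟨P.B + k'.val - 1, hr3⟩ :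
      QS P.B P.K) with hq1
    have hzone : Zone (M := P.M) τ' (f + 1) (nx c q1 (.mark w[f] b) false) := by
      have := zone_new (w := w) hZ hpos q1 (.mark w[f] b) false
      rw [hnew] at this
      exact this
    have hAt : At P τ' (f + 1) (i * P.B) (.bit k') ⟨startZ 0, startZ_bdd P.hK⟩ (P.B + k'.val - 1)
        (nx c q1 (.mark w[f] b) false) := by
      refine ⟨hzone, ?_, ⟨hr3, rfl⟩, ?_⟩
      · simp only [Par.Fr]; omega
      · show c.pos - 1 = _
        omega
    have hwin : Win P (.bit k') (i * P.B) (f + 1) :=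
      ⟨by simp only [Par.Fr]; omega, (fun h => by cases h), fun _ => ⟨i, rfl⟩⟩
    obtain ⟨b', g1, z', g2, g3⟩ := compute hP hA' hwin
    obtain ⟨c2, g4, g5, g6, g7⟩ := excursion (strict := strict) (n := w.length) (by
      have := hwin.fr; omega) (by omega) (by simp only [Par.Fr]; omega) hAt g3 g2
    refine ⟨c2, ⟨τ', b', Nat.mod_lt _ hB, hA', g4, ?_, ?_, ?_⟩, ReflTransGen.head ?_ g7⟩
    · rw [g5, hwin.fr]
    · rw [g6]
      show QS.en false k' b' = _
      congr 1
      · simp only [h1, decide_false]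
      · exact Fin.ext hk'v
    · rw [g1]
      have e1 : (f + 1) / P.B * P.B = i * P.B + P.B := by
        rw [hi, Nat.mul_comm (i + 1), Nat.mul_add_div hB, Nat.div_eq_of_lt k'.isLt]
        ring
      rw [e1, ← hk'v]
      show (∃ u, nr P.B P.rel P.p0 w (i * P.B + P.B) u ∧ decide (u = k'.val) = true) ↔ _
      simp only [decide_eq_true_iff, exists_eq_right]
    · refine Dt.single hnH (step_iff.2 ⟨by omega, _, _, _,
        ?_, fun _ h => absurd h hns, fun _ => by omega, rfl⟩) ?_
      · show Dl P.B P.K P.hK P.rel P.p0 P.facc P.wt c.state (c.tape c.pos) _ _ _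
        rw [hst, hZ.tape, hpos, hcell]
        exact Dl.raw2 _ _ _ _ hnot
      · intro c'' hc''
        obtain ⟨_, q, b'', d, h4, _, _, rfl⟩ := step_iff.1 hc''
        have h5 : Dl P.B P.K P.hK P.rel P.p0 P.facc P.wt c.state (c.tape c.pos) q b'' d := h4
        rw [hst, hZ.tape, hpos, hcell] at h5
        generalize hfd : decide (f < P.B) = fd at h5 hnot
        cases h5 with
        | raw1 _ _ _ h6 => exact absurd ⟨rfl, h6⟩ hnot
        | raw2 _ _ _ _ h6 => rfl

theorem fro_all {m W : ℕ} (hP : P.OK m W) (w : List A) (f : ℕ) (hf : f ≤ w.length) :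
    ∃ c', Fro P w f c' ∧
      ReflTransGen (Dt (Step strict w.length) (HF P w.length)) (init P.M w) c' := by
  induction f with
  | zero => exact ⟨_, fro_init w, ReflTransGen.refl⟩
  | succ f ih =>
    obtain ⟨c1, h1, h2⟩ := ih (by omega)
    obtain ⟨c2, h3, h4⟩ := fro_step (strict := strict) hP h1 hf
    exact ⟨c2, h3, h2.trans h4⟩

theorem fro_end {m W : ℕ} (hP : P.OK m W) {w : List A} {c : Cfg P.M} (hc : Fro P w w.length c) :
    ∃ (b : Bool) (c' : Cfg P.M), (b = true ↔ ∃ u, nr P.B P.rel P.p0 w w.length u ∧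
      P.facc u = true) ∧ c'.pos = w.length + 2 ∧ c'.state = QS.ac b ∧
      ReflTransGen (Dt (Step strict w.length) (HF P w.length)) c c' := by
  obtain ⟨τ, b, hk, hA, hZ, hpos, hst, hb⟩ := hc.ex
  have hB := P.hB
  set f := w.length with hf
  have hcell : τ (f + 1) = .rm := by
    rw [hA.rest f le_rfl]
    show (match w[f]? with
      | some a => Sym.sym (P.M.inp a)
      | none => .rm) = _
    rw [List.getElem?_eq_none (by omega)]
    rfl
  have hnH : ¬ HF P f c := by
    rintro ⟨_, b', hb'⟩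
    rw [hst] at hb'
    cases hb'
  have hns : c.pos ∉ c.seen := by
    intro h
    have := (hZ.seen c.pos (by omega)).1 h
    omega
  have hupd : Function.update τ (f + 1) ((τ (f + 1)).rewrite WS.dum) = τ := by
    rw [hcell]
    funext i
    by_cases hi : i = f + 1
    · subst hi
      rw [Function.update_self, hcell]
      rfl
    · rw [Function.update_of_ne hi]
  by_cases h0 : f = 0
  · have hdec : decide (f < P.B) = true := decide_eq_true (by omega)
    have hk0 : (⟨f % P.B, hk⟩ : Fin P.B).val = 0 := by simp [h0]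
    refine ⟨P.facc P.p0, nx c (QS.ac (P.facc P.p0) : P.M.Q) WS.dum true, ?_, ?_, rfl,
      ReflTransGen.single (Dt.single hnH (step_iff.2 ⟨by omega, _, _, _,
        ?_, fun _ h => absurd h hns, by simp, rfl⟩) ?_)⟩
    · rw [h0]
      show _ ↔ ∃ u, u = P.p0 ∧ P.facc u = true
      simp
    · show c.pos + 1 = _
      omega
    · show Dl P.B P.K P.hK P.rel P.p0 P.facc P.wt c.state (c.tape c.pos) _ _ _
      rw [hst, hZ.tape, hpos, hcell, hdec]
      exact Dl.rm0 _ _ hk0
    · intro c'' hc''
      obtain ⟨_, q, b'', d, h4, _, _, rfl⟩ := step_iff.1 hc''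
      have h5 : Dl P.B P.K P.hK P.rel P.p0 P.facc P.wt c.state (c.tape c.pos) q b'' d := h4
      rw [hst, hZ.tape, hpos, hcell, hdec] at h5
      cases h5 with
      | rm0 _ _ _ => rfl
      | rm1 _ _ _ h6 => exact absurd ⟨rfl, hk0⟩ h6
  · have hnot : ¬ (decide (f < P.B) = true ∧ (⟨f % P.B, hk⟩ : Fin P.B).val = 0) := by
      rintro ⟨g1, g2⟩
      have g3 := of_decide_eq_true g1
      simp only at g2
      rw [Nat.mod_eq_of_lt g3] at g2
      exact h0 g2
    set p : Par P.B := .fin (decide (f < P.B)) ⟨f % P.B, hk⟩ with hp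
    -- the window
    obtain ⟨base, hbase, hwin⟩ : ∃ base, base + p.T = f ∧ Win P p base f := by
      by_cases hlt : f < P.B
      · refine ⟨0, ?_, ?_, fun _ => rfl, fun h => ?_⟩
        · rw [hp]
          simp only [Par.T, hlt, decide_true, if_true]
          rw [Nat.mod_eq_of_lt hlt, Nat.zero_add]
        · rw [hp]
          simp only [Par.Fr, hlt, decide_true, if_true]
          rw [Nat.mod_eq_of_lt hlt, Nat.zero_add]
        · rw [hp] at h
          simp [Par.fs, hlt] at h
      · have h2 := Nat.div_add_mod f P.B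
        have h3 : 1 ≤ f / P.B := (Nat.one_le_div_iff hB).2 (by omega)
        obtain ⟨i, hi⟩ : ∃ i, f / P.B = i + 1 := ⟨f / P.B - 1, by omega⟩
        rw [hi] at h2
        have h4 : P.B * (i + 1) = i * P.B + P.B := by ring
        refine ⟨i * P.B, ?_, ?_, fun h => ?_, fun _ => ⟨i, rfl⟩⟩
        · rw [hp]
          simp only [Par.T, hlt, decide_false, Bool.false_eq_true, if_false]
          omega
        · rw [hp]
          simp only [Par.Fr, hlt, decide_false, Bool.false_eq_true, if_false]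
          omega
        · rw [hp] at h
          simp [Par.fs, hlt] at h
    have hFT : p.Fr = p.T + 1 := by rw [hp]; rfl
    have hT3 : p.T < 2 * P.B + 1 := p.T_lt
    have hT1 : 1 ≤ p.T := by
      rw [hp]
      simp only [Par.T]
      by_cases hlt : f < P.B
      · simp only [hlt, decide_true, if_true]
        rw [Nat.mod_eq_of_lt hlt]
        omega
      · simp only [hlt, decide_false, Bool.false_eq_true, if_false]
        omega
    set q1 : P.M.Q := (QS.ex p ⟨startZ 0, startZ_bdd P.hK⟩ ⟨p.T, hT3⟩ : QS P.B P.K) with hq1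
    have hzone : Zone (M := P.M) τ (f + 1) (nx c q1 WS.dum false) := by
      have h9 := zone_new (w := w) hZ hpos q1 WS.dum false
      exact Eq.mp (congrArg (fun x => Zone (M := P.M) x (f + 1) (nx c q1 WS.dum false)) hupd) h9
    have hAt : At P τ (f + 1) base p ⟨startZ 0, startZ_bdd P.hK⟩ p.T (nx c q1 WS.dum false) := by
      refine ⟨hzone, by omega, ⟨hT3, rfl⟩, ?_⟩
      show c.pos - 1 = _
      omega
    obtain ⟨b', g1, z', g2, g3⟩ := compute hP hA hwin
    obtain ⟨c2, g4, g5, g6, g7⟩ := excursion (strict := strict) (n := f) (g := f + 1) (by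
      have := hwin.fr; omega) (by omega) (by omega) hAt g3 g2
    have g8 : c2.pos = f + 1 := by rw [g5, hwin.fr]
    have g9 : c2.state = QS.vd b' := g6
    have hnH2 : ¬ HF P f c2 := by
      rintro ⟨_, b', hb'⟩
      rw [g9] at hb'
      cases hb'
    refine ⟨b', nx c2 (QS.ac b' : P.M.Q) WS.dum true, ?_, ?_, rfl,
      ReflTransGen.head ?_ (g7.tail ?_)⟩
    · rw [g1, hbase]
      rfl
    · show c2.pos + 1 = _
      omega
    · refine Dt.single hnH (step_iff.2 ⟨by omega, _, _, _,
        ?_, fun _ h => absurd h hns, fun _ => by omega, rfl⟩) ?_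
      · show Dl P.B P.K P.hK P.rel P.p0 P.facc P.wt c.state (c.tape c.pos) _ _ _
        rw [hst, hZ.tape, hpos, hcell]
        exact Dl.rm1 _ _ _ hnot
      · intro c'' hc''
        obtain ⟨_, q, b'', d, h4, _, _, rfl⟩ := step_iff.1 hc''
        have h5 : Dl P.B P.K P.hK P.rel P.p0 P.facc P.wt c.state (c.tape c.pos) q b'' d := h4
        rw [hst, hZ.tape, hpos, hcell] at h5
        obtain ⟨rfl, rfl, rfl⟩ := dl_en_rm h5 hnot
        rfl
    · refine Dt.single hnH2 (step_iff.2 ⟨by omega, _, _, _,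
        ?_, fun _ _ => ?_, by simp, rfl⟩) ?_
      · show Dl P.B P.K P.hK P.rel P.p0 P.facc P.wt c2.state (c2.tape c2.pos) _ _ _
        rw [g9, g4.tape, g8, hcell]
        exact Dl.vd _
      · rw [g4.tape, g8]
        show (τ (f + 1)).rewrite _ = τ (f + 1)
        rw [hcell]
        rfl
      · intro c'' hc''
        obtain ⟨_, q, b'', d, h4, _, _, rfl⟩ := step_iff.1 hc''
        have h5 : Dl P.B P.K P.hK P.rel P.p0 P.facc P.wt c2.state (c2.tape c2.pos) q b'' d := h4
        rw [g9, g4.tape, g8, hcell] at h5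
        cases h5 with
        | vd _ => rfl

/-- The machine has exactly one computation with an answer on every word, and the answer is
right. -/
theorem machine_uniq {m W : ℕ} (hP : P.OK m W) (w : List A) :
    ∃ (b : Bool) (c' : Cfg P.M), (b = true ↔ ∃ u, nr P.B P.rel P.p0 w w.length u ∧
      P.facc u = true) ∧ c'.state = QS.ac b ∧
      Uniq (Step strict w.length) (HF P w.length) (init P.M w) c' := by
  obtain ⟨c1, h1, h2⟩ := fro_all (strict := strict) hP w w.length le_rfl
  obtain ⟨b, c', h3, h4, h5, h6⟩ := fro_end (strict := strict) hP h1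
  refine ⟨b, c', h3, h5, uniq_of_dts (h2.trans h6) (Uniq.halt ⟨h4, b, h5⟩ ?_)⟩
  rintro y ⟨h7, _⟩
  omega

end top

end Pool.Agent.H720.UV
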