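import Mathlib
import Pool.Agent.H720.UV.Top
import Pool.Graph.R_seed8.R620.KV.Trips
import Pool.Graph.R_pool_sql_team_seeded_3dad9d7b.NH19.LA.Unamb

set_option autoImplicit false

/-!
Self-verifying and unambiguous 1-limited automata.
-/

namespace Pool.Agent.H720.UV

open Relation Pool.Agent.H630R2.LA Pool.Agent.R620.KV

section defs

variable {A : Type}

/-- A computation with an answer: it ends by moving past the right end-marker in a final state or in
a state of `R` (the rejecting states). -/
structure IsAns (strict : Prop) (M : LimAut A) (R : Set M.Q) (w : List A) (T : ℕ)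
    (f : ℕ → Cfg M) : Prop extends IsComp strict M w T f where
  last : (f T).pos = w.length + 2
  final : (f T).state ∈ M.F ∪ R

/-- `M` is self-verifying: for some set `R` of rejecting states every word has a computation that
ends beyond the right end-marker in a final or in a rejecting state, but no word has computations of
both kinds. -/
def SelfVer (strict : Prop) (M : LimAut A) : Prop :=
  ∃ R : Set M.Q, ∀ w : List A, (∃ T f, IsAns strict M R w T f) ∧
    ∀ (T T' : ℕ) (f f' : ℕ → Cfg M), IsAns strict M R w T f → IsAns strict M R w T' f' →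
      ¬ ((f T).state ∈ M.F ∧ (f' T').state ∈ R)

/-- `M` is unambiguous and self-verifying: for some set `R` of rejecting states, disjoint from the
set of the final states, every word has exactly one computation that ends beyond the right end-marker
in a final or in a rejecting state. -/
def UnambSelfVer (strict : Prop) (M : LimAut A) : Prop :=
  ∃ R : Set M.Q, Disjoint M.F R ∧ ∀ w : List A, (∃ T f, IsAns strict M R w T f) ∧
    ∀ (T T' : ℕ) (f f' : ℕ → Cfg M), IsAns strict M R w T f → IsAns strict M R w T' f' →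
      T = T' ∧ ∀ t, t ≤ T → f t = f' t

/-- The machine with other final states. -/
def withF (M : LimAut A) (R : Set M.Q) : LimAut A where
  Q := M.Q
  W := M.W
  finQ := M.finQ
  finW := M.finW
  inp := M.inp
  inp_inj := M.inp_inj
  δ := M.δ
  q0 := M.q0
  F := R

end defs

section lists

variable {X : Type} {R : X → X → Prop} {H : X → Prop}

/-- The list `f 1, ..., f T`. -/
def lst (f : ℕ → X) (T : ℕ) : List X := (List.range T).map (fun t => f (t + 1))

theorem lst_length (f : ℕ → X) (T : ℕ) : (lst f T).length = T := by simp [lst]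

theorem lst_succ (f : ℕ → X) (T : ℕ) : lst f (T + 1) = f 1 :: lst (fun t => f (t + 1)) T := by
  unfold lst
  rw [List.range_succ_eq_map, List.map_cons, List.map_map]
  rfl

theorem tr_of_fun (T : ℕ) : ∀ f : ℕ → X, (∀ t < T, R (f t) (f (t + 1))) → H (f T) →
    Tr R H (f 0) (lst f T) (f T) := by
  induction T with
  | zero => intro f _ h; exact Tr.halt _ h
  | succ T ih =>
    intro f h1 h2
    rw [lst_succ]
    exact Tr.step _ _ _ _ (h1 0 (by omega)) (ih (fun t => f (t + 1)) (fun t ht => h1 (t + 1)
      (by omega)) h2)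

theorem fun_of_tr {x y : X} {l : List X} (h : Tr R H x l y) :
    ∃ f : ℕ → X, f 0 = x ∧ (∀ t < l.length, R (f t) (f (t + 1))) ∧ f l.length = y ∧ H y := by
  induction h with
  | halt x h => exact ⟨fun _ => x, rfl, fun t ht => by simp at ht, rfl, h⟩
  | step x y l z h1 _ ih =>
    obtain ⟨f, g1, g2, g3, g4⟩ := ih
    refine ⟨fun t => match t with | 0 => x | t + 1 => f t, rfl, ?_, ?_, g4⟩
    · intro t ht
      cases t with
      | zero =>
        show R x (f 0)
        rw [g1]; exact h1
      | succ t =>
        show R (f t) (f (t + 1))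
        exact g2 t (by simpa using ht)
    · show f l.length = z
      exact g3

theorem eq_of_uniq {x y : X} (hu : Uniq R H x y) {T T' : ℕ} {f f' : ℕ → X} (h0 : f 0 = x)
    (h0' : f' 0 = x) (h1 : ∀ t < T, R (f t) (f (t + 1))) (h1' : ∀ t < T', R (f' t) (f' (t + 1)))
    (h2 : H (f T)) (h2' : H (f' T')) : T = T' ∧ ∀ t ≤ T, f t = f' t := by
  obtain ⟨l, _, g2⟩ := hu
  have k := tr_of_fun (R := R) (H := H) T f h1 h2
  have k' := tr_of_fun (R := R) (H := H) T' f' h1' h2'
  rw [h0] at k
  rw [h0'] at k'
  have e1 := (g2 _ _ k).1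
  have e2 := (g2 _ _ k').1
  have hT : T = T' := by
    have := congrArg List.length (e1.trans e2.symm)
    rwa [lst_length, lst_length] at this
  subst hT
  refine ⟨rfl, fun t ht => ?_⟩
  cases t with
  | zero => rw [h0, h0']
  | succ t =>
    have e3 := e1.trans e2.symm
    have e4 : (lst f T)[t]? = (lst f' T)[t]? := by rw [e3]
    unfold lst at e4
    rw [List.getElem?_map, List.getElem?_map, List.getElem?_range (by omega)] at e4
    simpa using e4

end lists

section machine

variable {A : Type} [Finite A] {P : Prm A} {strict : Prop}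

theorem HF_iff {n : ℕ} (c : Cfg P.M) : HF P n c ↔ c.pos = n + 2 ∧
    c.state ∈ P.M.F ∪ ({QS.ac false} : Set (QS P.B P.K)) := by
  have hF : P.M.F = ({QS.ac true} : Set (QS P.B P.K)) := rfl
  rw [hF]
  unfold HF
  constructor
  · rintro ⟨h, b, hb⟩
    refine ⟨h, ?_⟩
    rw [hb]
    cases b
    · right; rfl
    · left; rfl
  · rintro ⟨h, hb | hb⟩
    · exact ⟨h, true, hb⟩
    · exact ⟨h, false, hb⟩

theorem machine_usv {m W : ℕ} (hP : P.OK m W) : UnambSelfVer strict P.M := by
  refine ⟨({QS.ac false} : Set (QS P.B P.K)), ?_, fun w => ?_⟩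
  · rw [Set.disjoint_left]
    intro x hx hx'
    have h1 : x = QS.ac true := hx
    have h2 : x = QS.ac false := hx'
    rw [h1] at h2
    cases h2
  · obtain ⟨b, c', h1, h2, h3⟩ := machine_uniq (strict := strict) hP w
    constructor
    · obtain ⟨l, h4, _⟩ := h3
      obtain ⟨f, g1, g2, g3, g4⟩ := fun_of_tr h4
      rw [← g3, HF_iff] at g4
      exact ⟨l.length, f, ⟨g1, g2⟩, g4.1, g4.2⟩
    · intro T T' f f' h h'
      exact eq_of_uniq h3 h.start h'.start h.step h'.step ((HF_iff _).2 ⟨h.last, h.final⟩)
        ((HF_iff _).2 ⟨h'.last, h'.final⟩)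

theorem machine_language {m W : ℕ} (hP : P.OK m W) (w : List A) : w ∈ P.M.language strict ↔
    ∃ u, nr P.B P.rel P.p0 w w.length u ∧ P.facc u = true := by
  obtain ⟨b, c', h1, h2, l, h3, h4⟩ := machine_uniq (strict := strict) hP w
  rw [← h1]
  constructor
  · rintro ⟨c, hc, hp, hF⟩
    have hF' : c.state = QS.ac true := hF
    have key : ∀ x, ReflTransGen (Step strict w.length) x c →
        ∃ l', Tr (Step strict w.length) (HF P w.length) x l' c := by
      intro x hx
      induction hx using ReflTransGen.head_induction_on with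
      | refl => exact ⟨[], Tr.halt _ ⟨hp, true, hF'⟩⟩
      | head g _ ih =>
        obtain ⟨l', hl'⟩ := ih
        exact ⟨_, Tr.step _ _ _ _ g hl'⟩
    obtain ⟨l', hl'⟩ := key _ hc
    have e := (h4 _ _ hl').2
    rw [e, h2] at hF'
    injection hF'
  · intro hb
    have key : ∀ x l y, Tr (Step strict w.length) (HF P w.length) x l y →
        ReflTransGen (Step strict w.length) x y ∧ HF P w.length y := by
      intro x l y h
      induction h with
      | halt x h => exact ⟨ReflTransGen.refl, h⟩
      | step x y l z g _ ih => exact ⟨ReflTransGen.head g ih.1, ih.2⟩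
    obtain ⟨g1, g2, _⟩ := key _ _ _ h3
    refine ⟨c', g1, g2, ?_⟩
    rw [h2, hb]
    rfl

end machine

section general

variable {A : Type} {strict : Prop} {M : LimAut A}

theorem UnambSelfVer.selfVer (h : UnambSelfVer strict M) : SelfVer strict M := by
  obtain ⟨R, h1, h2⟩ := h
  refine ⟨R, fun w => ⟨(h2 w).1, fun T T' f f' h3 h4 => ?_⟩⟩
  rintro ⟨h5, h6⟩
  obtain ⟨rfl, h7⟩ := (h2 w).2 T T' f f' h3 h4
  rw [← h7 T le_rfl] at h6
  exact Set.disjoint_left.1 h1 h5 h6

theorem UnambSelfVer.unambiguous (h : UnambSelfVer strict M) :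
    Pool.Agent.NH19.LA.Unambiguous strict M := by
  obtain ⟨R, h1, h2⟩ := h
  intro w T T' f f' h3 h4
  exact (h2 w).2 T T' f f' ⟨h3.toIsComp, h3.last, Or.inl h3.final⟩
    ⟨h4.toIsComp, h4.last, Or.inl h4.final⟩

theorem comp_of_star {n : ℕ} {x y : Cfg M} (h : ReflTransGen (Step strict n) x y) :
    ∃ (T : ℕ) (f : ℕ → Cfg M), f 0 = x ∧ (∀ t < T, Step strict n (f t) (f (t + 1))) ∧ f T = y := by
  induction h using ReflTransGen.head_induction_on with
  | refl => exact ⟨0, fun _ => y, rfl, fun t ht => by omega, rfl⟩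
  | head g _ ih =>
    rename_i a b _
    obtain ⟨T, f, g1, g2, g3⟩ := ih
    refine ⟨T + 1, fun t => match t with | 0 => a | t + 1 => f t, rfl, ?_, g3⟩
    intro t ht
    cases t with
    | zero =>
      show Step strict n a (f 0)
      rw [g1]; exact g
    | succ t =>
      show Step strict n (f t) (f (t + 1))
      exact g2 t (by omega)

theorem star_of_comp {n T : ℕ} {f : ℕ → Cfg M} (h : ∀ t < T, Step strict n (f t) (f (t + 1))) :
    ReflTransGen (Step strict n) (f 0) (f T) := by
  induction T with
  | zero => exact ReflTransGen.refl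
  | succ T ih => exact (ih (fun t ht => h t (by omega))).tail (h T (by omega))

/-- The language in terms of computations. -/
theorem mem_language_comp (w : List A) : w ∈ M.language strict ↔ ∃ T f, IsAcc strict M w T f := by
  constructor
  · rintro ⟨c, h1, h2, h3⟩
    obtain ⟨T, f, g1, g2, g3⟩ := comp_of_star h1
    exact ⟨T, f, ⟨g1, g2⟩, by rw [g3]; exact h2, by rw [g3]; exact h3⟩
  · rintro ⟨T, f, h⟩
    refine ⟨f T, ?_, h.last, h.final⟩
    rw [← h.start]
    exact star_of_comp h.step

/-- Transport of configurations. -/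
def toW (R : Set M.Q) (c : Cfg M) : Cfg (withF M R) := ⟨c.state, c.pos, c.tape, c.seen⟩

def ofW (R : Set M.Q) (c : Cfg (withF M R)) : Cfg M := ⟨c.state, c.pos, c.tape, c.seen⟩

theorem isAcc_withF {R : Set M.Q} {w : List A} {T : ℕ} {f : ℕ → Cfg M}
    (h : IsComp strict M w T f) (h1 : (f T).pos = w.length + 2) (h2 : (f T).state ∈ R) :
    IsAcc strict (withF M R) w T (fun t => toW R (f t)) := by
  refine ⟨⟨?_, ?_⟩, h1, h2⟩
  · show toW R (f 0) = _
    rw [h.start]
    unfold toW init
    congr 1
  · intro t ht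
    exact h.step t ht

theorem of_isAcc_withF {R : Set M.Q} {w : List A} {T : ℕ} {f : ℕ → Cfg (withF M R)}
    (h : IsAcc strict (withF M R) w T f) :
    IsComp strict M w T (fun t => ofW R (f t)) ∧ (f T).pos = w.length + 2 ∧
      (ofW R (f T)).state ∈ R := by
  refine ⟨⟨?_, ?_⟩, h.last, h.final⟩
  · show ofW R (f 0) = _
    rw [h.start]
    unfold ofW init
    congr 1
  · intro t ht
    exact h.step t ht

/-- A self-verifying machine gives a machine of the same kind for the complement. -/
theorem SelfVer.compl (h : SelfVer strict M) :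
    ∃ R : Set M.Q, (withF M R).language strict = (M.language strict)ᶜ := by
  obtain ⟨R, h⟩ := h
  refine ⟨R, ?_⟩
  ext w
  rw [Set.mem_compl_iff, mem_language_comp, mem_language_comp]
  constructor
  · rintro ⟨T, f, h1⟩ ⟨T', f', h2⟩
    obtain ⟨h3, h4, h5⟩ := of_isAcc_withF h1
    exact (h w).2 T' T f' _ ⟨h2.toIsComp, h2.last, Or.inl h2.final⟩ ⟨h3, h4, Or.inr h5⟩
      ⟨h2.final, h5⟩
  · intro hn
    obtain ⟨⟨T, f, h1⟩, _⟩ := h w
    rcases h1.final with h2 | h2
    · exact absurd ⟨T, f, h1.toIsComp, h1.last, h2⟩ hn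
    · exact ⟨T, _, isAcc_withF h1.toIsComp h1.last h2⟩

theorem card_withF (R : Set M.Q) : Nat.card (withF M R).Q = Nat.card M.Q := rfl

end general

end Pool.Agent.H720.UV
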