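import Mathlib
import Pool.Agent.H720.UV.Ans
import Pool.Graph.R_seed8.H630R2.LA.Upper
import Pool.Graph.R_pool_sql_team_seeded_3dad9d7b.NH88.FZ.Cost3

set_option autoImplicit false
set_option exponentiation.threshold 100000000

/-!
Simulation by unambiguous self-verifying 1-limited automata.
-/

namespace Pool.Agent.H720.UV

open Relation Pool.Agent.H630R2.LA Pool.Agent.R620.KV

section weights

variable {A : Type} [Finite A]

theorem exists_wt {A : Type} {B : ℕ} (hB : 0 < B) (rel : A → ℕ → ℕ → Bool) :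
    ∃ wt : ℕ → ℕ → ℕ → ℕ, (∀ j t v, wt j t v ≤ 4 * B ^ 3) ∧
      ∀ (S0 : ℕ → Bool) (ls : ℕ → Option A), ∃ j < 2 * B ^ 3 + 3 * B + 1,
        Good B (Gr B rel S0 ls) (wt j) (2 * B + 1) := by
  classical
  have hcard : Fintype.card ((Fin B → Bool) × (Fin (2 * B) → Option (Fin B → Fin B → Bool))) <
      2 ^ (2 * B ^ 3 + 3 * B + 1) := by
    rw [Fintype.card_prod, Fintype.card_fun, Fintype.card_fun, Fintype.card_option,
      Fintype.card_fun, Fintype.card_fun, Fintype.card_fin, Fintype.card_fin, Fintype.card_bool,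
      ← pow_mul]
    have h1 : 2 ^ (B * B) + 1 ≤ 2 ^ (B * B + 1) := by
      have : 1 ≤ 2 ^ (B * B) := Nat.one_le_two_pow
      rw [pow_succ]
      omega
    calc 2 ^ B * (2 ^ (B * B) + 1) ^ (2 * B) ≤ 2 ^ B * (2 ^ (B * B + 1)) ^ (2 * B) :=
          Nat.mul_le_mul_left _ (Nat.pow_le_pow_left h1 _)
      _ = 2 ^ (2 * B ^ 3 + 3 * B) := by
          rw [← pow_mul, ← pow_add]
          congr 1
          ring
      _ < 2 ^ (2 * B ^ 3 + 3 * B + 1) := Nat.pow_lt_pow_right (by omega) (by omega)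
  obtain ⟨wt, h1, h2⟩ := exists_weights (B := B) (Lm := 2 * B) (W := 4 * B ^ 3) hB (by omega)
    (le_of_eq (by ring)) (Ω := (Fin B → Bool) × (Fin (2 * B) → Option (Fin B → Fin B → Bool)))
    (fun e => Gr B (fun (r : Fin B → Fin B → Bool) u v =>
        if h : u < B ∧ v < B then r ⟨u, h.1⟩ ⟨v, h.2⟩ else false)
      (fun v => if h : v < B then e.1 ⟨v, h⟩ else false)
      (fun i => if h : i < 2 * B then e.2 ⟨i, h⟩ else none)) hcard
  refine ⟨wt, h1, fun S0 ls => ?_⟩
  obtain ⟨j, hj, h3⟩ := h2 (fun v => S0 v.val,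
    fun i => (ls i.val).map (fun a (u v : Fin B) => rel a u.val v.val))
  refine ⟨j, hj, good_congr hB ?_ le_rfl h3⟩
  intro t _ u hu v hv
  unfold Gr
  by_cases ht : t = 0
  · simp [ht, hv]
  · rw [if_neg ht, if_neg ht]
    by_cases ht2 : t ≤ 2 * B
    · rw [if_pos ht2, if_pos ht2]
      have ht3 : t - 1 < 2 * B := by omega
      simp only [ht3, dif_pos]
      cases ls (t - 1) with
      | none => rfl
      | some a => simp [hu, hv]
    · rw [if_neg ht2, if_neg ht2]

/-- The bound for the registers. -/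
def KK (B : ℕ) : ℕ := B * ((2 * B + 1) * (4 * B ^ 3)) + 1

theorem pow_chain {B : ℕ} (hB : 0 < B) : B ≤ B ^ 3 ∧ B ^ 3 ≤ B ^ 4 ∧ B ^ 4 ≤ B ^ 5 := by
  refine ⟨?_, ?_, ?_⟩
  · calc B = B ^ 1 := (pow_one B).symm
      _ ≤ B ^ 3 := Nat.pow_le_pow_right hB (by omega)
  · exact Nat.pow_le_pow_right hB (by omega)
  · exact Nat.pow_le_pow_right hB (by omega)

theorem KK_le {B : ℕ} (hB : 0 < B) : KK B + 1 ≤ 2 ^ 4 * B ^ 5 := by
  obtain ⟨h1, h2, h3⟩ := pow_chain hB
  have h7 : KK B + 1 = 8 * B ^ 5 + 4 * B ^ 4 + 2 := by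
    unfold KK
    ring
  rw [h7]
  omega

/-- The parameters. -/
theorem exists_prm {B : ℕ} (hB : 0 < B) (rel : A → ℕ → ℕ → Bool) {p0 : ℕ} (hp0 : p0 < B)
    (facc : ℕ → Bool) : ∃ P : Prm A, P.B = B ∧ P.rel = rel ∧ P.p0 = p0 ∧ P.facc = facc ∧
      P.K = KK B ∧ ∃ m W, P.OK m W := by
  obtain ⟨wt, h1, h2⟩ := exists_wt hB rel
  have hK : 1 ≤ KK B := by unfold KK; omega
  refine ⟨⟨B, KK B, hB, hK, rel, p0, facc, wt⟩, rfl, rfl, rfl, rfl, rfl,
    2 * B ^ 3 + 3 * B + 1, 4 * B ^ 3, hp0, ?_, h2⟩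
  intro p
  have hT := p.T_lt
  simp only at hT
  have h3 : (p.T + 1) * (4 * B ^ 3) ≤ (2 * B + 1) * (4 * B ^ 3) := Nat.mul_le_mul_right _ hT
  have h4 : B * ((p.T + 1) * (4 * B ^ 3)) ≤ B * ((2 * B + 1) * (4 * B ^ 3)) :=
    Nat.mul_le_mul_left _ h3
  have h5 : (2 * B + 1) * (4 * B ^ 3) ≤ B * ((2 * B + 1) * (4 * B ^ 3)) :=
    Nat.le_mul_of_pos_left _ hB
  obtain ⟨g1, g2, g3⟩ := pow_chain hB
  have h6 : B * ((2 * B + 1) * (4 * B ^ 3)) = 8 * B ^ 5 + 4 * B ^ 4 := by ring
  refine ⟨hB, h1, ?_, ?_, ?_, ?_, ?_⟩ <;> simp only [KK] <;> omega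

end weights

section size

variable {A : Type} [Finite A]

theorem numTrans_le' (M : LimAut A) : M.numTrans ≤
    Nat.card M.Q * (Nat.card M.W + 2) * (Nat.card M.Q * Nat.card M.W * 2) := by
  have := M.finQ
  have := M.finW
  have := finite_Sym M.W
  have h : Nat.card (M.Q × Sym M.W × M.Q × M.W × Bool) =
      Nat.card M.Q * (Nat.card M.W + 2) * (Nat.card M.Q * Nat.card M.W * 2) := by
    rw [Nat.card_prod, Nat.card_prod, Nat.card_prod, Nat.card_prod, card_Sym]
    simp only [Nat.card_eq_fintype_card (α := Bool), Fintype.card_bool]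
    ring
  rw [← h, ← Set.ncard_univ]
  exact Set.ncard_le_ncard (Set.subset_univ _) (Set.toFinite _)

theorem size_M {P : Prm A} (hK : P.K = KK P.B) :
    Nat.card P.M.Q ≤ 2 ^ 67 * P.B ^ 77 ∧
    P.M.size ≤ 2 ^ 141 * P.B ^ 154 * (Nat.card A + 1) ^ 2 := by
  have hB := P.hB
  have hW : Nat.card P.M.W = 3 * Nat.card A + 1 := card_WS A
  have hQ : Nat.card P.M.Q ≤ 4 * P.B + 4 + 3 * P.B * (8 * (P.K + 1) ^ 15) * (2 * P.B + 1) :=
    card_QS P.B P.K
  have hK2 : P.K + 1 ≤ 2 ^ 4 * P.B ^ 5 := by rw [hK]; exact KK_le hB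
  have hK3 : (P.K + 1) ^ 15 ≤ 2 ^ 60 * P.B ^ 75 := by
    refine (Nat.pow_le_pow_left hK2 15).trans (le_of_eq ?_)
    rw [mul_pow, ← pow_mul, ← pow_mul]
  have hF : P.M.F.ncard = 1 := Set.ncard_singleton _
  have hN := numTrans_le' P.M
  have hpos : 1 ≤ Nat.card P.M.Q := by
    have := P.M.finQ
    have : Nonempty P.M.Q := ⟨P.M.q0⟩
    exact Nat.card_pos
  have hsize : P.M.size = Nat.card P.M.Q + Nat.card A + (Nat.card P.M.W + 2) +
      5 * P.M.numTrans + 1 + P.M.F.ncard := rfl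
  rw [hF, hW] at hsize
  rw [hW] at hN
  generalize Nat.card P.M.Q = s at *
  generalize P.M.numTrans = T at *
  generalize Nat.card A = a at *
  generalize hKK : (P.K + 1) ^ 15 = X at *
  generalize P.B = B at *
  have hX : 1 ≤ X := by rw [← hKK]; exact Nat.one_le_pow _ _ (by omega)
  have hs : s ≤ 80 * B ^ 2 * X := by
    refine hQ.trans ?_
    have h1 : 1 ≤ B ^ 2 * X := Nat.mul_pos (Nat.pow_pos hB) hX
    have h2 : B ≤ B ^ 2 * X := by
      calc B = B * 1 := (Nat.mul_one B).symm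
        _ ≤ B * (B * X) := Nat.mul_le_mul_left _ (Nat.mul_pos hB hX)
        _ = B ^ 2 * X := by ring
    have h3 : B * X ≤ B ^ 2 * X := by
      calc B * X = B * X * 1 := (Nat.mul_one _).symm
        _ ≤ B * X * B := Nat.mul_le_mul_left _ hB
        _ = B ^ 2 * X := by ring
    have h4 : 3 * B * (8 * X) * (2 * B + 1) = 48 * (B ^ 2 * X) + 24 * (B * X) := by ring
    have h5 : 80 * B ^ 2 * X = 80 * (B ^ 2 * X) := by ring
    rw [h4, h5]
    omega
  have hs2 : s ≤ 2 ^ 67 * B ^ 77 := by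
    calc s ≤ 80 * B ^ 2 * X := hs
      _ ≤ 2 ^ 7 * B ^ 2 * (2 ^ 60 * B ^ 75) :=
          Nat.mul_le_mul (Nat.mul_le_mul_right _ (by norm_num)) hK3
      _ = 2 ^ 67 * B ^ 77 := by ring
  refine ⟨hs2, ?_⟩
  have h6 : 1 ≤ s ^ 2 * (a + 1) ^ 2 := Nat.mul_pos (Nat.pow_pos hpos) (Nat.pow_pos (by omega))
  have h7 : s ≤ s ^ 2 * (a + 1) ^ 2 := by
    calc s = s * 1 := (Nat.mul_one s).symm
      _ ≤ s * (s * (a + 1) ^ 2) := Nat.mul_le_mul_left _ (Nat.mul_pos hpos (Nat.pow_pos (by omega)))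
      _ = s ^ 2 * (a + 1) ^ 2 := by ring
  have h8 : a + 1 ≤ s ^ 2 * (a + 1) ^ 2 := by
    calc a + 1 = 1 * (a + 1) := (Nat.one_mul _).symm
      _ ≤ (s ^ 2 * (a + 1)) * (a + 1) :=
          Nat.mul_le_mul_right _ (Nat.mul_pos (Nat.pow_pos hpos) (by omega))
      _ = s ^ 2 * (a + 1) ^ 2 := by ring
  have h9 : s * (3 * a + 1 + 2) * (s * (3 * a + 1) * 2) ≤ 18 * (s ^ 2 * (a + 1) ^ 2) := by
    calc s * (3 * a + 1 + 2) * (s * (3 * a + 1) * 2) ≤
          s * (3 * a + 1 + 2) * (s * (3 * a + 3) * 2) := by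
            apply Nat.mul_le_mul_left
            apply Nat.mul_le_mul_right
            apply Nat.mul_le_mul_left
            omega
      _ = 18 * (s ^ 2 * (a + 1) ^ 2) := by ring
  have h10 : P.M.size ≤ 2 ^ 7 * (s ^ 2 * (a + 1) ^ 2) := by
    rw [hsize]
    norm_num
    omega
  calc P.M.size ≤ 2 ^ 7 * (s ^ 2 * (a + 1) ^ 2) := h10
    _ ≤ 2 ^ 7 * ((2 ^ 67 * B ^ 77) ^ 2 * (a + 1) ^ 2) :=
        Nat.mul_le_mul_left _ (Nat.mul_le_mul_right _ (Nat.pow_le_pow_left hs2 2))
    _ = 2 ^ 141 * B ^ 154 * (a + 1) ^ 2 := by ring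

end size

section systems

variable {A T : Type}

/-- The states of a transition system reached after `t` letters. -/
def rT (init : T) (step : A → T → T → Prop) (w : List A) : ℕ → T → Prop
  | 0, x => x = init
  | t + 1, y => ∃ x, rT init step w t x ∧ ∃ a, w[t]? = some a ∧ step a x y

open Classical in
/-- One-way nondeterministic automata are simulated by unambiguous self-verifying 1-limited
automata of polynomial size. -/
theorem sys_usv [Finite A] [Finite T] (init : T) (step : A → T → T → Prop) (acc : T → Prop) :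
    ∃ M' : LimAut A, (∀ strict, UnambSelfVer strict M') ∧
      (∀ strict w, w ∈ M'.language strict ↔ ∃ x, rT init step w w.length x ∧ acc x) ∧
      Nat.card M'.Q ≤ 2 ^ 67 * Nat.card T ^ 77 ∧
      M'.size ≤ 2 ^ 141 * Nat.card T ^ 154 * (Nat.card A + 1) ^ 2 := by
  have hB : 0 < Nat.card T := by
    have : Nonempty T := ⟨init⟩
    exact Nat.card_pos
  let e : T ≃ Fin (Nat.card T) := Finite.equivFin T
  let rel : A → ℕ → ℕ → Bool := fun a u v =>
    decide (∃ x y, (e x).val = u ∧ (e y).val = v ∧ step a x y)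
  let facc : ℕ → Bool := fun u => decide (∃ x, (e x).val = u ∧ acc x)
  obtain ⟨P, h1, h2, h3, h4, h5, m, W, hP⟩ := exists_prm hB rel (e init).isLt facc
  have hinj : ∀ x y, (e x).val = (e y).val → x = y := fun x y h => e.injective (Fin.ext h)
  have key : ∀ w : List A, ∀ t v, nr P.B P.rel P.p0 w t v ↔
      ∃ x, (e x).val = v ∧ rT init step w t x := by
    intro w t
    rw [h1, h2, h3]
    induction t with
    | zero =>
      intro v
      constructor
      · intro h
        exact ⟨init, h.symm, rfl⟩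
      · rintro ⟨x, h, h'⟩
        have h'' : x = init := h'
        rw [h''] at h
        exact h.symm
    | succ t ih =>
      intro v
      constructor
      · rintro ⟨_, u, hu, a, ha, hr⟩
        obtain ⟨x, hx, hx'⟩ := (ih u).1 hu
        obtain ⟨x', y, g1, g2, g3⟩ := of_decide_eq_true hr
        have : x' = x := hinj _ _ (by rw [g1, hx])
        subst this
        exact ⟨y, g2, x', hx', a, ha, g3⟩
      · rintro ⟨y, hy, x, hx, a, ha, hs⟩
        exact ⟨by rw [← hy]; exact (e y).isLt, (e x).val, (ih _).2 ⟨x, rfl, hx⟩, a, ha,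
          decide_eq_true ⟨x, y, rfl, hy, hs⟩⟩
  have hs := size_M (P := P) (by rw [h5, h1])
  rw [h1] at hs
  refine ⟨P.M, fun strict => machine_usv hP, fun strict w => ?_, hs.1, hs.2⟩
  rw [machine_language hP]
  constructor
  · rintro ⟨u, g1, g2⟩
    obtain ⟨x, g3, g4⟩ := (key w _ u).1 g1
    rw [h4] at g2
    obtain ⟨x', g5, g6⟩ := of_decide_eq_true g2
    have : x' = x := hinj _ _ (by rw [g5, g3])
    subst this
    exact ⟨x', g4, g6⟩
  · rintro ⟨x, g1, g2⟩
    refine ⟨(e x).val, (key w _ _).2 ⟨x, rfl, g1⟩, ?_⟩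
    rw [h4]
    exact decide_eq_true ⟨x, rfl, g2⟩

end systems

section nfa

variable {A S : Type}

theorem mem_evalFrom (N : NFA A S) (w : List A) (t : ℕ) (ht : t ≤ w.length) (y : S) :
    y ∈ N.evalFrom N.start (w.take t) ↔
      (t = 0 ∧ y ∈ N.start) ∨ (∃ t', t = t' + 1 ∧ ∃ a, w[t']? = some a ∧
        ∃ x, x ∈ N.evalFrom N.start (w.take t') ∧ y ∈ N.step x a) := by
  cases t with
  | zero => simp
  | succ t =>
    have hwt : w[t]? = some w[t] := List.getElem?_eq_getElem (by omega)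
    have e : w.take (t + 1) = w.take t ++ [w[t]] := by
      rw [List.take_add_one, hwt]
      rfl
    rw [e, NFA.evalFrom_append, NFA.evalFrom_singleton]
    simp only [Nat.add_eq_zero_iff, one_ne_zero, and_false, false_and, false_or, Nat.add_right_cancel_iff]
    constructor
    · intro h
      rw [NFA.mem_stepSet] at h
      obtain ⟨x, hx, hy⟩ := h
      exact ⟨t, rfl, _, hwt, x, hx, hy⟩
    · rintro ⟨t', rfl, a, ha, x, hx, hy⟩
      rw [hwt] at ha
      cases ha
      rw [NFA.mem_stepSet]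
      exact ⟨x, hx, hy⟩

/-- The step relation with a new initial state. -/
def nstepN (N : NFA A S) (a : A) : Option S → Option S → Prop
  | none, some y => ∃ x ∈ N.start, y ∈ N.step x a
  | some x, some y => y ∈ N.step x a
  | _, none => False

def naccN (N : NFA A S) : Option S → Prop
  | none => ∃ x ∈ N.start, x ∈ N.accept
  | some x => x ∈ N.accept

theorem rT_nfa (N : NFA A S) (w : List A) (t : ℕ) (ht : t ≤ w.length) :
    (∀ y, rT none (nstepN N) w t (some y) ↔ 0 < t ∧ y ∈ N.evalFrom N.start (w.take t)) ∧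
    (rT none (nstepN N) w t none ↔ t = 0) := by
  induction t with
  | zero =>
    refine ⟨fun y => ?_, ?_⟩
    · show some y = none ↔ _
      simp
    · show (none : Option S) = none ↔ _
      simp
  | succ t ih =>
    obtain ⟨ih1, ih2⟩ := ih (by omega)
    constructor
    · intro y
      rw [mem_evalFrom N w (t + 1) ht]
      simp only [Nat.add_eq_zero_iff, one_ne_zero, and_false, false_and, false_or,
        Nat.succ_pos', true_and, Nat.add_right_cancel_iff]
      constructor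
      · rintro ⟨x, hx, a, ha, hs⟩
        refine ⟨t, rfl, a, ha, ?_⟩
        cases x with
        | none =>
          have h0 := ih2.1 hx
          subst h0
          obtain ⟨x, h1, h2⟩ := hs
          exact ⟨x, by simpa using h1, h2⟩
        | some x => exact ⟨x, ((ih1 x).1 hx).2, hs⟩
      · rintro ⟨t', rfl, a, ha, x, hx, hy⟩
        rcases Nat.eq_zero_or_pos t with h0 | h0
        · subst h0
          exact ⟨none, ih2.2 rfl, a, ha, x, by simpa using hx, hy⟩
        · exact ⟨some x, (ih1 x).2 ⟨h0, hx⟩, a, ha, hy⟩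
    · constructor
      · rintro ⟨x, _, a, _, hs⟩
        cases x <;> exact hs.elim
      · intro h
        omega

theorem nfa_usv [Finite A] [Finite S] (N : NFA A S) :
    ∃ M' : LimAut A, (∀ strict, UnambSelfVer strict M') ∧
      (∀ strict w, w ∈ M'.language strict ↔ w ∈ N.accepts) ∧
      Nat.card M'.Q ≤ 2 ^ 67 * (Nat.card S + 1) ^ 77 ∧
      M'.size ≤ 2 ^ 141 * (Nat.card S + 1) ^ 154 * (Nat.card A + 1) ^ 2 := by
  obtain ⟨M', h1, h2, h3, h4⟩ := sys_usv (none : Option S) (nstepN N) (naccN N)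
  rw [Finite.card_option] at h3 h4
  refine ⟨M', h1, fun strict w => ?_, h3, h4⟩
  rw [h2]
  obtain ⟨g1, g2⟩ := rT_nfa N w w.length le_rfl
  have hacc : w ∈ N.accepts ↔ ∃ S ∈ N.accept, S ∈ N.evalFrom N.start w := Iff.rfl
  rw [hacc]
  rw [List.take_length] at g1
  constructor
  · rintro ⟨x, h5, h6⟩
    cases x with
    | none =>
      have h0 := g2.1 h5
      have : w = [] := List.length_eq_zero_iff.1 h0
      subst this
      obtain ⟨x, h7, h8⟩ := h6
      exact ⟨x, h8, h7⟩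
    | some x => exact ⟨x, h6, ((g1 x).1 h5).2⟩
  · rintro ⟨x, h5, h6⟩
    rcases Nat.eq_zero_or_pos w.length with h0 | h0
    · have : w = [] := List.length_eq_zero_iff.1 h0
      subst this
      exact ⟨none, g2.2 rfl, x, h6, h5⟩
    · exact ⟨some x, (g1 x).2 ⟨h0, h6⟩, h5⟩

end nfa



end Pool.Agent.H720.UV
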