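import Mathlib
import Pool.Agent.H720.UV.Main

set_option autoImplicit false
set_option exponentiation.threshold 100000000

/-!
Complements, the lower bound for self-verifying 1-limited automata, and the cost functions.
-/

namespace Pool.Agent.H720.UV

open Relation Filter Asymptotics Pool.Agent.H630R2.LA Pool.Agent.R620.KV Pool.Agent.NH88.FX
open Pool.Agent.NH88.FY (minSize cost)
open Pool.Agent.NH88.FA (AccLE Subexp Lft EE res runs_res cod cod_cons cod_append)

section compl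

variable {A : Type} {strict : Prop} {M : LimAut A}

theorem isAns_withF {R : Set M.Q} {w : List A} {T : ℕ} {f : ℕ → Cfg M}
    (h : IsAns strict M R w T f) :
    IsAns strict (withF M R) (M.F : Set M.Q) w T (fun t => toW R (f t)) := by
  refine ⟨⟨?_, ?_⟩, h.last, Or.symm h.final⟩
  · show toW R (f 0) = _
    rw [h.start]
    unfold toW init
    congr 1
  · intro t ht
    exact h.step t ht

theorem of_isAns_withF {R : Set M.Q} {w : List A} {T : ℕ} {f : ℕ → Cfg (withF M R)}
    (h : IsAns strict (withF M R) (M.F : Set M.Q) w T f) :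
    IsAns strict M R w T (fun t => ofW R (f t)) := by
  refine ⟨⟨?_, ?_⟩, h.last, Or.symm h.final⟩
  · show ofW R (f 0) = _
    rw [h.start]
    unfold ofW init
    congr 1
  · intro t ht
    exact h.step t ht

theorem ofW_inj {R : Set M.Q} {c c' : Cfg (withF M R)} (h : ofW R c = ofW R c') : c = c' := by
  obtain ⟨a, b, c, d⟩ := c
  obtain ⟨a', b', c', d'⟩ := c'
  unfold ofW at h
  simp only [Cfg.mk.injEq] at h
  obtain ⟨rfl, rfl, rfl, rfl⟩ := h
  rfl

theorem usv_withF {R : Set M.Q} (hd : Disjoint M.F R)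
    (h : ∀ w : List A, (∃ T f, IsAns strict M R w T f) ∧
      ∀ (T T' : ℕ) (f f' : ℕ → Cfg M), IsAns strict M R w T f → IsAns strict M R w T' f' →
        T = T' ∧ ∀ t, t ≤ T → f t = f' t) :
    UnambSelfVer strict (withF M R) := by
  refine ⟨M.F, hd.symm, fun w => ⟨?_, ?_⟩⟩
  · obtain ⟨T, f, h1⟩ := (h w).1
    exact ⟨T, _, isAns_withF h1⟩
  · intro T T' f f' h1 h2
    obtain ⟨h3, h4⟩ := (h w).2 T T' _ _ (of_isAns_withF h1) (of_isAns_withF h2)
    exact ⟨h3, fun t ht => ofW_inj (h4 t ht)⟩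

end compl

section machine

variable {A : Type} [Finite A] {P : Prm A} {strict : Prop}

/-- The machine for the complement. -/
def Prm.Mc (P : Prm A) : LimAut A := withF P.M ({QS.ac false} : Set (QS P.B P.K))

theorem machine_usv' {m W : ℕ} (hP : P.OK m W) (w : List A) :
    (∃ T f, IsAns strict P.M ({QS.ac false} : Set (QS P.B P.K)) w T f) ∧
    ∀ (T T' : ℕ) (f f' : ℕ → Cfg P.M), IsAns strict P.M ({QS.ac false} : Set (QS P.B P.K)) w T f →
      IsAns strict P.M ({QS.ac false} : Set (QS P.B P.K)) w T' f' →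
        T = T' ∧ ∀ t, t ≤ T → f t = f' t := by
  obtain ⟨b, c', h1, h2, h3⟩ := machine_uniq (strict := strict) hP w
  constructor
  · obtain ⟨l, h4, _⟩ := h3
    obtain ⟨f, g1, g2, g3, g4⟩ := fun_of_tr h4
    rw [← g3, HF_iff] at g4
    exact ⟨l.length, f, ⟨g1, g2⟩, g4.1, g4.2⟩
  · intro T T' f f' h h'
    exact eq_of_uniq h3 h.start h'.start h.step h'.step ((HF_iff _).2 ⟨h.last, h.final⟩)
      ((HF_iff _).2 ⟨h'.last, h'.final⟩)

theorem machine_disj : Disjoint P.M.F ({QS.ac false} : Set (QS P.B P.K)) := by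
  rw [Set.disjoint_left]
  intro x hx hx'
  have h1 : x = QS.ac true := hx
  have h2 : x = QS.ac false := hx'
  rw [h1] at h2
  cases h2

theorem Mc_usv {m W : ℕ} (hP : P.OK m W) : UnambSelfVer strict P.Mc :=
  usv_withF machine_disj (machine_usv' hP)

theorem Mc_language {m W : ℕ} (hP : P.OK m W) :
    P.Mc.language strict = (P.M.language strict)ᶜ := by
  ext w
  rw [Set.mem_compl_iff, mem_language_comp, mem_language_comp]
  obtain ⟨⟨T0, f0, h0⟩, hu⟩ := machine_usv' (strict := strict) hP w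
  constructor
  · rintro ⟨T, f, h1⟩ ⟨T', f', h2⟩
    obtain ⟨h3, h4, h5⟩ := of_isAcc_withF h1
    obtain ⟨rfl, h6⟩ := hu T' T f' _ ⟨h2.toIsComp, h2.last, Or.inl h2.final⟩ ⟨h3, h4, Or.inr h5⟩
    have h7 := h6 T' le_rfl
    have h8 := h2.final
    rw [h7] at h8
    exact Set.disjoint_left.1 machine_disj h8 h5
  · intro hn
    rcases h0.final with h2 | h2
    · exact absurd ⟨T0, f0, h0.toIsComp, h0.last, h2⟩ hn
    · exact ⟨T0, _, isAcc_withF h0.toIsComp h0.last h2⟩

theorem Mc_size : P.Mc.size = P.M.size := by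
  show Nat.card P.M.Q + Nat.card A + (Nat.card P.M.W + 2) + 5 * P.M.numTrans + 1 +
    ({QS.ac false} : Set (QS P.B P.K)).ncard = Nat.card P.M.Q + Nat.card A +
      (Nat.card P.M.W + 2) + 5 * P.M.numTrans + 1 + ({QS.ac true} : Set (QS P.B P.K)).ncard
  rw [Set.ncard_singleton, Set.ncard_singleton]

end machine

section lower

variable {m : ℕ} {strict : Prop}

/-- Fooling sets: lower bound for the complement of the witness. -/
theorem compl_lower {M : LimAut Ltr} (hm : 1 ≤ m)
    (hL : M.language strict = ((witM m).language strict)ᶜ) :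
    2 ^ (2 ^ (m ^ 2)) ≤ Nat.card M.Q * 2 ^ ((Lft M).ncard * Nat.card M.Q) := by
  classical
  have hfin := M.finQ
  let i0 : Fin m := ⟨0, hm⟩
  have hlang : ∀ x, cod (κ i0) x ∈ M.language strict ↔ ¬ Good' x := by
    intro x
    rw [hL, Set.mem_compl_iff, cod_eq, mem_good]
  have hS : ∀ S : Finset (Mt m), ∃ y, runs strict M (cod (κ i0) [.inl S]) (x0 strict M) y ∧
      ∃ z, runs strict M (cod (κ i0) [.inr Sᶜ]) y z ∧ finX strict M z := by
    intro S
    have h1 : cod (κ i0) ([.inl S] ++ [.inr Sᶜ]) ∈ M.language strict := by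
      rw [hlang, good_two]
      simp
    rw [mem_language_runs, cod_append] at h1
    obtain ⟨z, h2, h3⟩ := h1
    rw [runs_append] at h2
    obtain ⟨y, h4, h5⟩ := h2
    exact ⟨y, h4, z, h5, h3⟩
  choose y h1 z h2 h3 using hS
  have hone : ∀ S S' : Finset (Mt m), res (y S) = res (y S') → S ⊆ S' := by
    intro S S' h
    have hne : cod (κ i0) [.inr S'ᶜ] ≠ [] := by
      rw [cod_cons]
      intro h
      exact κ_ne i0 _ (List.append_eq_nil_iff.1 h).1
    have h4 : cod (κ i0) ([.inl S] ++ [.inr S'ᶜ]) ∈ M.language strict := by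
      rw [mem_language_runs, cod_append]
      exact ⟨z S', (runs_append _ _ _ _).2 ⟨y S, h1 S, runs_res hne h.symm (h2 S')⟩, h3 S'⟩
    rw [hlang, good_two, Finset.not_nonempty_iff_eq_empty, ← Finset.disjoint_iff_inter_eq_empty,
      disjoint_compl_right_iff] at h4
    exact h4
  have hinj : Function.Injective (fun S => res (y S)) := fun S S' h =>
    Finset.Subset.antisymm (hone S S' h) (hone S' S h.symm)
  have h4 := Nat.card_le_card_of_injective _ hinj
  have h5 : Nat.card (EE M) = Nat.card M.Q * 2 ^ ((Lft M).ncard * Nat.card M.Q) := by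
    rw [Nat.card_prod, Nat.mul_comm]
    congr 1
    have h4 : Nat.card (Set (Lft M × M.Q)) = Nat.card ((Lft M × M.Q) → Prop) := rfl
    rw [h4, Nat.card_fun, Nat.card_prod, Nat.card_coe_set_eq]
    simp
  rw [h5, Nat.card_eq_fintype_card (α := Finset (Mt m)), Fintype.card_finset, card_Mt] at h4
  exact h4

theorem compl_size {M : LimAut Ltr} (hm : 1 ≤ m)
    (hL : M.language strict = ((witM m).language strict)ᶜ) : 2 ^ (m ^ 2) ≤ M.size ^ 2 :=
  size_lower' ((compl_lower hm hL).trans (Nat.le_succ _))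

theorem sv_lower {M : LimAut Ltr} (hm : 1 ≤ m) (hs : SelfVer strict M)
    (hL : M.language strict = (witM m).language strict) :
    2 ^ (2 ^ (m ^ 2)) ≤ Nat.card M.Q * 2 ^ ((Lft M).ncard * Nat.card M.Q) := by
  obtain ⟨R, hR⟩ := hs.compl
  rw [hL] at hR
  exact compl_lower (M := withF M R) hm hR

end lower

section upper

variable {A T : Type}

open Classical in
theorem sys_usv_compl [Finite A] [Finite T] (init : T) (step : A → T → T → Prop) (acc : T → Prop) :
    ∃ M' : LimAut A, (∀ strict, UnambSelfVer strict M') ∧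
      (∀ strict w, w ∈ M'.language strict ↔ ¬ ∃ x, rT init step w w.length x ∧ acc x) ∧
      Nat.card M'.Q ≤ 2 ^ 67 * Nat.card T ^ 77 ∧
      M'.size ≤ 2 ^ 141 * Nat.card T ^ 154 * (Nat.card A + 1) ^ 2 := by
  have hB : 0 < Nat.card T := by
    have : Nonempty T := ⟨init⟩
    exact Nat.card_pos
  let e : T ≃ Fin (Nat.card T) := Finite.equivFin T
  let rel : A → ℕ → ℕ → Bool := fun a u v =>
    decide (∃ x y, (e x).val = u ∧ (e y).val = v ∧ step a x y)
  let facc : ℕ → Bool := fun u => decide (∃ x, (e x).val = u ∧ acc x)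
  obtain ⟨P, h1, h2, h3, h4, h5, m, W, hP⟩ := exists_prm hB rel (e init).isLt facc
  have hinj : ∀ x y, (e x).val = (e y).val → x = y := fun x y h => e.injective (Fin.ext h)
  have key : ∀ w : List A, ∀ t v, nr P.B P.rel P.p0 w t v ↔
      ∃ x, (e x).val = v ∧ rT init step w t x := by
    intro w t
    rw [h1, h2, h3]
    induction t with
    | zero =>
      intro v
      constructor
      · intro h
        exact ⟨init, h.symm, rfl⟩
      · rintro ⟨x, h, h'⟩
        have h'' : x = init := h'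
        rw [h''] at h
        exact h.symm
    | succ t ih =>
      intro v
      constructor
      · rintro ⟨_, u, hu, a, ha, hr⟩
        obtain ⟨x, hx, hx'⟩ := (ih u).1 hu
        obtain ⟨x', y, g1, g2, g3⟩ := of_decide_eq_true hr
        have : x' = x := hinj _ _ (by rw [g1, hx])
        subst this
        exact ⟨y, g2, x', hx', a, ha, g3⟩
      · rintro ⟨y, hy, x, hx, a, ha, hs⟩
        exact ⟨by rw [← hy]; exact (e y).isLt, (e x).val, (ih _).2 ⟨x, rfl, hx⟩, a, ha,
          decide_eq_true ⟨x, y, rfl, hy, hs⟩⟩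
  have hs := size_M (P := P) (by rw [h5, h1])
  rw [h1] at hs
  refine ⟨P.Mc, fun strict => Mc_usv hP, fun strict w => ?_, hs.1, by rw [Mc_size]; exact hs.2⟩
  rw [Mc_language hP, Set.mem_compl_iff, machine_language hP, not_iff_not]
  constructor
  · rintro ⟨u, g1, g2⟩
    obtain ⟨x, g3, g4⟩ := (key w _ u).1 g1
    rw [h4] at g2
    obtain ⟨x', g5, g6⟩ := of_decide_eq_true g2
    have : x' = x := hinj _ _ (by rw [g5, g3])
    subst this
    exact ⟨x', g4, g6⟩
  · rintro ⟨x, g1, g2⟩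
    refine ⟨(e x).val, (key w _ _).2 ⟨x, rfl, g1⟩, ?_⟩
    rw [h4]
    exact decide_eq_true ⟨x, rfl, g2⟩

theorem rT_table (M : LimAut A) (strict : Prop) (w : List A) :
    (∃ x, rT (ext strict M ∅ .lm, M.q0) (fun a x y => nstep strict M (.sym (M.inp a)) x y) w
      w.length x ∧ ∃ y, nstep strict M .rm x y ∧ y.2 ∈ M.F) ↔ w ∈ M.language strict := by
  rw [mem_language]
  have key : ∀ t, t ≤ w.length → ∀ x, rT (ext strict M ∅ .lm, M.q0)
      (fun a x y => nstep strict M (.sym (M.inp a)) x y) w t x ↔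
        nreach strict M (initTape M w) t x := by
    intro t
    induction t with
    | zero => intro _ x; exact Iff.rfl
    | succ t ih =>
      intro ht y
      have hwt : w[t]? = some w[t] := List.getElem?_eq_getElem (by omega)
      have hcell : initTape M w (t + 1) = .sym (M.inp w[t]) := by
        simp only [initTape, hwt]
      constructor
      · rintro ⟨x, hx, a, ha, hs⟩
        rw [hwt] at ha
        cases ha
        exact ⟨x, (ih (by omega) x).1 hx, by rw [hcell]; exact hs⟩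
      · rintro ⟨x, hx, hs⟩
        rw [hcell] at hs
        exact ⟨x, (ih (by omega) x).2 hx, _, hwt, hs⟩
  have hlast : initTape M w (w.length + 1) = .rm := by
    simp only [initTape, List.getElem?_eq_none (le_refl w.length)]
  constructor
  · rintro ⟨x, g1, y, g2, g3⟩
    refine ⟨y.1, y.2, ⟨x, (key _ le_rfl x).1 g1, ?_⟩, g3⟩
    rw [hlast]
    exact g2
  · rintro ⟨R, f, ⟨x, g1, g2⟩, g3⟩
    rw [hlast] at g2
    exact ⟨x, (key _ le_rfl x).2 g1, (R, f), g2, g3⟩

theorem table_le (q : ℕ) : 2 ^ (q * q) * q ≤ 2 ^ (q ^ 2 + q) := by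
  rw [pow_add, sq]
  exact Nat.mul_le_mul_left _ Nat.lt_two_pow_self.le

theorem arith_up {q a n : ℕ} (hq : q + a + 3 ≤ n) :
    2 ^ 141 * (2 ^ (q * q) * q) ^ 154 * (a + 1) ^ 2 ≤ 2 ^ (154 * n ^ 2) := by
  have h5 := table_le q
  have h6 : a + 1 ≤ 2 ^ a := Nat.lt_two_pow_self
  calc 2 ^ 141 * (2 ^ (q * q) * q) ^ 154 * (a + 1) ^ 2
      ≤ 2 ^ 141 * (2 ^ (q ^ 2 + q)) ^ 154 * (2 ^ a) ^ 2 :=
        Nat.mul_le_mul (Nat.mul_le_mul_left _ (Nat.pow_le_pow_left h5 _))
          (Nat.pow_le_pow_left h6 _)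
    _ = 2 ^ (141 + (q ^ 2 + q) * 154 + a * 2) := by
        rw [← pow_mul, ← pow_mul, ← pow_add, ← pow_add]
    _ ≤ 2 ^ (154 * n ^ 2) := by
        apply Nat.pow_le_pow_right (by omega)
        have h7 : (q + a + 3) ^ 2 ≤ n ^ 2 := Nat.pow_le_pow_left hq 2
        nlinarith [Nat.zero_le (q * a), Nat.zero_le (a ^ 2)]

theorem arith_st (q : ℕ) : 2 ^ 67 * (2 ^ (q * q) * q) ^ 77 ≤ 2 ^ (77 * (q ^ 2 + q) + 67) := by
  have h5 := table_le q
  calc 2 ^ 67 * (2 ^ (q * q) * q) ^ 77 ≤ 2 ^ 67 * (2 ^ (q ^ 2 + q)) ^ 77 :=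
        Nat.mul_le_mul_left _ (Nat.pow_le_pow_left h5 _)
    _ = 2 ^ (77 * (q ^ 2 + q) + 67) := by
        rw [← pow_mul, ← pow_add]
        congr 1
        ring

theorem size_ge (M : LimAut A) : Nat.card M.Q + Nat.card A + 3 ≤ M.size := by
  unfold LimAut.size
  omega

theorem finite_alphabet (M : LimAut A) : Finite A := by
  have := M.finW
  exact Finite.of_injective _ M.inp_inj

/-- Every 1-limited automaton has an equivalent unambiguous self-verifying one of size
`2 ^ O(n ^ 2)`. -/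
theorem la_usv (M : LimAut A) (strict : Prop) :
    ∃ M' : LimAut A, (∀ strict', UnambSelfVer strict' M') ∧
      (∀ strict', M'.language strict' = M.language strict) ∧
      Nat.card M'.Q ≤ 2 ^ (77 * (Nat.card M.Q ^ 2 + Nat.card M.Q) + 67) ∧
      M'.size ≤ 2 ^ (154 * M.size ^ 2) := by
  have := M.finQ
  have := finite_alphabet M
  obtain ⟨M', h1, h2, h3, h4⟩ := sys_usv (A := A) (T := Set (M.Q × M.Q) × M.Q)
    (ext strict M ∅ .lm, M.q0) (fun a x y => nstep strict M (.sym (M.inp a)) x y)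
    (fun x => ∃ y, nstep strict M .rm x y ∧ y.2 ∈ M.F)
  rw [card_table] at h3 h4
  refine ⟨M', h1, fun strict' => ?_, h3.trans (arith_st _), h4.trans (arith_up (size_ge M))⟩
  ext w
  rw [h2, rT_table]

theorem la_usv_compl (M : LimAut A) (strict : Prop) :
    ∃ M' : LimAut A, (∀ strict', UnambSelfVer strict' M') ∧
      (∀ strict', M'.language strict' = (M.language strict)ᶜ) ∧
      Nat.card M'.Q ≤ 2 ^ (77 * (Nat.card M.Q ^ 2 + Nat.card M.Q) + 67) ∧
      M'.size ≤ 2 ^ (154 * M.size ^ 2) := by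
  have := M.finQ
  have := finite_alphabet M
  obtain ⟨M', h1, h2, h3, h4⟩ := sys_usv_compl (A := A) (T := Set (M.Q × M.Q) × M.Q)
    (ext strict M ∅ .lm, M.q0) (fun a x y => nstep strict M (.sym (M.inp a)) x y)
    (fun x => ∃ y, nstep strict M .rm x y ∧ y.2 ∈ M.F)
  rw [card_table] at h3 h4
  refine ⟨M', h1, fun strict' => ?_, h3.trans (arith_st _), h4.trans (arith_up (size_ge M))⟩
  ext w
  rw [h2, Set.mem_compl_iff, rT_table]

end upper

section cost

/-- The cost function of complementation by machines with the property `P`: the greatest of the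
least sizes of the 1-limited automata with the property `P` for the complements of the languages of
the 1-limited automata of size at most `n`. -/
noncomputable def compCost (strict : Prop) (P : ∀ A : Type, LimAut A → Prop) (n : ℕ) : ℕ :=
  sSup {s | ∃ (A : Type) (_ : Finite A) (M : LimAut A), M.size ≤ n ∧
    s = minSize strict (P A) (M.language strict)ᶜ}

theorem pow_sq_le {n m : ℕ} (h : n ≤ m) : 2 ^ (154 * n ^ 2) ≤ 2 ^ (154 * m ^ 2) :=
  Nat.pow_le_pow_right (by omega) (Nat.mul_le_mul_left _ (Nat.pow_le_pow_left h 2))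

theorem lower_arith {n m s C : ℕ} (h10 : n ≤ 6240 * m) (h6 : 2 ^ (m ^ 2) ≤ s ^ 2) (h8 : s ≤ C) :
    2 ^ (n ^ 2) ≤ C ^ 80000000 := by
  have h9 : n ^ 2 ≤ m ^ 2 * 40000000 := by
    have h11 : n ^ 2 ≤ (6240 * m) ^ 2 := Nat.pow_le_pow_left h10 2
    nlinarith
  calc 2 ^ (n ^ 2) ≤ 2 ^ (m ^ 2 * 40000000) := Nat.pow_le_pow_right (by omega) h9
    _ = (2 ^ (m ^ 2)) ^ 40000000 := by rw [pow_mul]
    _ ≤ (s ^ 2) ^ 40000000 := Nat.pow_le_pow_left h6 _
    _ ≤ (C ^ 2) ^ 40000000 := Nat.pow_le_pow_left (Nat.pow_le_pow_left h8 2) _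
    _ = C ^ 80000000 := by rw [← pow_mul]

theorem theta_of_bounds (g : ℕ → ℕ) (h1 : ∀ n, g n ≤ 2 ^ (154 * n ^ 2))
    (h2 : ∀ n, 4160 ≤ n → 2 ^ (n ^ 2) ≤ g n ^ 80000000) :
    (fun n : ℕ => Real.log (g n)) =Θ[atTop] fun n : ℕ => (n : ℝ) ^ 2 := by
  have hl2 : 0 < Real.log 2 := Real.log_pos (by norm_num)
  constructor
  · refine IsBigO.of_bound (154 * Real.log 2) (Eventually.of_forall fun n => ?_)
    rw [Real.norm_of_nonneg (Real.log_natCast_nonneg _), Real.norm_of_nonneg (by positivity)]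
    rcases Nat.eq_zero_or_pos (g n) with h0 | h0
    · rw [h0, Nat.cast_zero, Real.log_zero]
      positivity
    · have h3 : Real.log (g n) ≤ Real.log ((2 : ℝ) ^ (154 * n ^ 2)) := by
        apply Real.log_le_log (by exact_mod_cast h0)
        exact_mod_cast h1 n
      rw [Real.log_pow] at h3
      push_cast at h3
      nlinarith
  · refine IsBigO.of_bound (80000000 / Real.log 2) ?_
    filter_upwards [eventually_ge_atTop 4160] with n hn
    rw [Real.norm_of_nonneg (Real.log_natCast_nonneg _), Real.norm_of_nonneg (by positivity)]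
    have h3 : Real.log ((2 : ℝ) ^ (n ^ 2)) ≤ Real.log ((g n : ℝ) ^ 80000000) := by
      apply Real.log_le_log (by positivity)
      exact_mod_cast h2 n hn
    rw [Real.log_pow, Real.log_pow] at h3
    push_cast at h3
    rw [div_mul_eq_mul_div, le_div_iff₀ hl2]
    linarith

theorem cost_main (strict : Prop) (P : ∀ A : Type, LimAut A → Prop)
    (h1 : ∀ (A : Type) (M : LimAut A), UnambSelfVer strict M → P A M)
    (h2 : ∀ (A : Type) (M : LimAut A), P A M → Subexp strict M ∨ SelfVer strict M) (n : ℕ) :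
    cost strict P n ≤ 2 ^ (154 * n ^ 2) ∧
      (4160 ≤ n → 2 ^ (n ^ 2) ≤ cost strict P n ^ 80000000) := by
  have hb : ∀ s ∈ {s | ∃ (A : Type) (_ : Finite A) (M : LimAut A), M.size ≤ n ∧
      s = minSize strict (P A) (M.language strict)}, s ≤ 2 ^ (154 * n ^ 2) := by
    rintro s ⟨A, _, M, hM, rfl⟩
    obtain ⟨M', g1, g2, _, g3⟩ := la_usv M strict
    have h4 : minSize strict (P A) (M.language strict) ≤ M'.size :=
      Nat.sInf_le (s := {s | ∃ M₁ : LimAut A, P A M₁ ∧ M₁.language strict = M.language strict ∧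
        M₁.size = s}) ⟨M', h1 A M' (g1 strict), g2 strict, rfl⟩
    exact h4.trans (g3.trans (pow_sq_le hM))
  refine ⟨csSup_le' hb, fun hn => ?_⟩
  obtain ⟨m, hm1, hm2, hm3⟩ : ∃ m, 1 ≤ m ∧ 2080 * (m + 1) ≤ n ∧ n ≤ 2080 * (m + 2) := by
    refine ⟨n / 2080 - 1, ?_, ?_, ?_⟩ <;> omega
  have h3 : {s | ∃ M : LimAut Ltr, P Ltr M ∧ M.language strict = (witM m).language strict ∧
      M.size = s}.Nonempty := by
    obtain ⟨M', g1, g2, _⟩ := la_usv (witM m) strict
    exact ⟨_, M', h1 Ltr M' (g1 strict), g2 strict, rfl⟩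
  obtain ⟨M', h4, h5, h6⟩ := Nat.sInf_mem h3
  have h7 : 2 ^ (m ^ 2) ≤ M'.size ^ 2 := by
    rcases h2 Ltr M' h4 with h7 | h7
    · exact size_lower' (sub_lower pol hm1 h7 h5)
    · exact size_lower' ((sv_lower hm1 h7 h5).trans (Nat.le_succ _))
  have h8 : M'.size = minSize strict (P Ltr) ((witM m).language strict) := h6
  have h9 : minSize strict (P Ltr) ((witM m).language strict) ≤ cost strict P n :=
    le_csSup ⟨_, hb⟩ ⟨Ltr, inferInstance, witM m, (size_witM m).trans hm2, rfl⟩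
  exact lower_arith (by omega) h7 (by rw [h8]; exact h9)

theorem compCost_main (strict : Prop) (P : ∀ A : Type, LimAut A → Prop)
    (h1 : ∀ (A : Type) (M : LimAut A), UnambSelfVer strict M → P A M) (n : ℕ) :
    compCost strict P n ≤ 2 ^ (154 * n ^ 2) ∧
      (4160 ≤ n → 2 ^ (n ^ 2) ≤ compCost strict P n ^ 80000000) := by
  have hb : ∀ s ∈ {s | ∃ (A : Type) (_ : Finite A) (M : LimAut A), M.size ≤ n ∧
      s = minSize strict (P A) (M.language strict)ᶜ}, s ≤ 2 ^ (154 * n ^ 2) := by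
    rintro s ⟨A, _, M, hM, rfl⟩
    obtain ⟨M', g1, g2, _, g3⟩ := la_usv_compl M strict
    have h4 : minSize strict (P A) (M.language strict)ᶜ ≤ M'.size :=
      Nat.sInf_le (s := {s | ∃ M₁ : LimAut A, P A M₁ ∧ M₁.language strict = (M.language strict)ᶜ ∧
        M₁.size = s}) ⟨M', h1 A M' (g1 strict), g2 strict, rfl⟩
    exact h4.trans (g3.trans (pow_sq_le hM))
  refine ⟨csSup_le' hb, fun hn => ?_⟩
  obtain ⟨m, hm1, hm2, hm3⟩ : ∃ m, 1 ≤ m ∧ 2080 * (m + 1) ≤ n ∧ n ≤ 2080 * (m + 2) := by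
    refine ⟨n / 2080 - 1, ?_, ?_, ?_⟩ <;> omega
  have h3 : {s | ∃ M : LimAut Ltr, P Ltr M ∧ M.language strict = ((witM m).language strict)ᶜ ∧
      M.size = s}.Nonempty := by
    obtain ⟨M', g1, g2, _⟩ := la_usv_compl (witM m) strict
    exact ⟨_, M', h1 Ltr M' (g1 strict), g2 strict, rfl⟩
  obtain ⟨M', h4, h5, h6⟩ := Nat.sInf_mem h3
  have h7 : 2 ^ (m ^ 2) ≤ M'.size ^ 2 := compl_size hm1 h5
  have h8 : M'.size = minSize strict (P Ltr) ((witM m).language strict)ᶜ := h6
  have h9 : minSize strict (P Ltr) ((witM m).language strict)ᶜ ≤ compCost strict P n :=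
    le_csSup ⟨_, hb⟩ ⟨Ltr, inferInstance, witM m, (size_witM m).trans hm2, rfl⟩
  exact lower_arith (by omega) h7 (by rw [h8]; exact h9)

theorem accLE_of_unamb {A : Type} {strict : Prop} {M : LimAut A}
    (h : Pool.Agent.NH19.LA.Unambiguous strict M) (w : List A) : AccLE strict M w 1 := by
  intro T f hf
  obtain ⟨h1, h2⟩ := h w (T 0) (T 1) (f 0) (f 1) (hf 0) (hf 1)
  exact ⟨0, 1, by decide, h1, h2⟩

theorem witnesses (strict : Prop) (m : ℕ) (hm : 1 ≤ m) :
    ∃ M : LimAut Ltr, Nat.card M.Q ≤ 12 * (m + 1) ∧ M.size ≤ 2080 * (m + 1) ∧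
      (∀ M' : LimAut Ltr, M'.language strict = M.language strict →
        (Subexp strict M' ∨ SelfVer strict M') →
        2 ^ (2 ^ (m ^ 2)) ≤ Nat.card M'.Q * 2 ^ (Nat.card M'.Q * Nat.card M'.Q) + 1) ∧
      ∀ M' : LimAut Ltr, M'.language strict = (M.language strict)ᶜ →
        2 ^ (2 ^ (m ^ 2)) ≤ Nat.card M'.Q * 2 ^ (Nat.card M'.Q * Nat.card M'.Q) := by
  have hl : ∀ M' : LimAut Ltr, Nat.card M'.Q * 2 ^ ((Lft M').ncard * Nat.card M'.Q) ≤
      Nat.card M'.Q * 2 ^ (Nat.card M'.Q * Nat.card M'.Q) := fun M' =>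
    Nat.mul_le_mul_left _ (Nat.pow_le_pow_right (by omega) (Nat.mul_le_mul_right _ (lft_le M')))
  refine ⟨witM m, ?_, size_witM m, fun M' h1 h2 => ?_, fun M' h1 => ?_⟩
  · have h6 := card_Tag
    have h2 : Nat.card (witM m).Q = Nat.card Tag * (m + 1) := by
      show Nat.card (Tag × Fin (m + 1)) = _
      rw [Nat.card_prod]
      simp
    rw [h2]
    exact Nat.mul_le_mul_right _ h6
  · rcases h2 with h2 | h2
    · exact (sub_lower pol hm h2 h1).trans (Nat.succ_le_succ (hl M'))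
    · exact ((sv_lower hm h2 h1).trans (hl M')).trans (Nat.le_succ _)
  · exact (compl_lower hm h1).trans (hl M')

end cost

end Pool.Agent.H720.UV
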